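import Pool.Agent.P.MP_50f9b9_al.Main

/-! Equivariant maps, derivations, permutation modules and the low degree exact sequences. -/

namespace Pool.Agent.P.MP_50f9b9_al.RP

/-- Additive maps intertwining `a` with the action on `Q`. -/
def Hm (k : Type) [CommRing k] {Γ X : Type} [Group Γ] [AddCommGroup X] (a : Γ → X →+ X)
    (Q : Type) [AddCommGroup Q] [Module k Q] [DistribMulAction Γ Q] [SMulCommClass Γ k Q] :
    Submodule k (X →+ Q) where
  carrier := {c | ∀ g x, c (a g x) = g • c x}
  add_mem' := fun ha hb g x => by simp [ha g x, hb g x]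
  zero_mem' := fun g x => by simp
  smul_mem' := fun t c hc g x => by simp [hc g x, smul_comm g t]

/-- Derivations (crossed homomorphisms). -/
def Der (k : Type) [CommRing k] (Γ : Type) [Group Γ] (Q : Type) [AddCommGroup Q] [Module k Q]
    [DistribMulAction Γ Q] [SMulCommClass Γ k Q] : Submodule k (Γ → Q) where
  carrier := {D | ∀ g h, D (g * h) = D g + g • D h}
  add_mem' := fun ha hb g h => by simp only [Pi.add_apply, ha g h, hb g h, smul_add]; abel
  zero_mem' := fun g h => by simp
  smul_mem' := fun t D hD g h => by simp [hD g h, smul_comm g t]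

/-- Homomorphisms to an additive group. -/
def Hom (k : Type) [CommRing k] (L : Type) [Group L] (A : Type) [AddCommGroup A] [Module k A] :
    Submodule k (L → A) where
  carrier := {f | ∀ g h, f (g * h) = f g + f h}
  add_mem' := fun ha hb g h => by simp only [Pi.add_apply, ha g h, hb g h]; abel
  zero_mem' := fun g h => by simp
  smul_mem' := fun t f hf g h => by simp [hf g h]

/-- Invariant vectors. -/
def Fix (Γ : Type) [Group Γ] (Q : Type) [AddCommGroup Q] [DistribMulAction Γ Q] :
    AddSubgroup Q where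
  carrier := {v | ∀ g : Γ, g • v = v}
  add_mem' := fun ha hb g => by rw [smul_add, ha g, hb g]
  zero_mem' := fun g => smul_zero g
  neg_mem' := fun ha g => by rw [smul_neg, ha g]

/-- Functions on a set with a group action. -/
def Perm (X A : Type) : Type := X → A

instance (X A : Type) [AddCommGroup A] : AddCommGroup (Perm X A) :=
  inferInstanceAs (AddCommGroup (X → A))

instance (k X A : Type) [CommRing k] [AddCommGroup A] [Module k A] : Module k (Perm X A) :=
  inferInstanceAs (Module k (X → A))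

instance (X A : Type) [Finite X] [Finite A] : Finite (Perm X A) :=
  inferInstanceAs (Finite (X → A))

instance (Γ X A : Type) [Group Γ] [MulAction Γ X] [AddCommGroup A] :
    DistribMulAction Γ (Perm X A) where
  smul g f := fun x => f (g⁻¹ • x)
  one_smul f := funext fun x => by change f _ = f x; simp
  mul_smul g h f := funext fun x => by change f _ = f _; simp [mul_smul]
  smul_zero _ := rfl
  smul_add _ _ _ := rfl

theorem Perm.smul_apply {Γ X A : Type} [Group Γ] [MulAction Γ X] [AddCommGroup A] (g : Γ)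
    (f : Perm X A) (x : X) : (g • f) x = f (g⁻¹ • x) := rfl

instance (k Γ X A : Type) [CommRing k] [Group Γ] [MulAction Γ X] [AddCommGroup A] [Module k A] :
    SMulCommClass Γ k (Perm X A) := ⟨fun _ _ _ => rfl⟩

/-- An abelian group with the trivial action. -/
def Tr (A : Type) : Type := A

instance (A : Type) [AddCommGroup A] : AddCommGroup (Tr A) := inferInstanceAs (AddCommGroup A)

instance (A : Type) [Finite A] : Finite (Tr A) := inferInstanceAs (Finite A)

instance (Γ A : Type) [Group Γ] [AddCommGroup A] : DistribMulAction Γ (Tr A) where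
  smul _ a := a
  one_smul _ := rfl
  mul_smul _ _ _ := rfl
  smul_zero _ := rfl
  smul_add _ _ _ := rfl

/-- The dual with values in `ZMod p`. -/
def Dl (p : ℕ) (Q : Type) [AddCommGroup Q] : Type := Q →+ ZMod p

instance (p : ℕ) (Q : Type) [AddCommGroup Q] : AddCommGroup (Dl p Q) :=
  inferInstanceAs (AddCommGroup (Q →+ ZMod p))

instance (p : ℕ) (Q : Type) [AddCommGroup Q] : FunLike (Dl p Q) Q (ZMod p) :=
  inferInstanceAs (FunLike (Q →+ ZMod p) Q (ZMod p))

instance (p : ℕ) (Q : Type) [AddCommGroup Q] : AddMonoidHomClass (Dl p Q) Q (ZMod p) :=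
  inferInstanceAs (AddMonoidHomClass (Q →+ ZMod p) Q (ZMod p))

instance (p : ℕ) [NeZero p] (Q : Type) [AddCommGroup Q] [Finite Q] : Finite (Dl p Q) :=
  Finite.of_injective (fun f : Dl p Q => (f : Q → ZMod p)) DFunLike.coe_injective

instance (p : ℕ) (Γ Q : Type) [Group Γ] [AddCommGroup Q] [DistribMulAction Γ Q] :
    DistribMulAction Γ (Dl p Q) where
  smul g f := AddMonoidHom.comp f (DistribSMul.toAddMonoidHom Q g⁻¹)
  one_smul f := AddMonoidHom.ext fun x => by change f _ = f x; simp
  mul_smul g h f := AddMonoidHom.ext fun x => by change f _ = f _; simp [mul_smul]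
  smul_zero _ := rfl
  smul_add _ _ _ := rfl

theorem Dl.smul_apply {p : ℕ} {Γ Q : Type} [Group Γ] [AddCommGroup Q] [DistribMulAction Γ Q]
    (g : Γ) (f : Dl p Q) (x : Q) : (g • f) x = f (g⁻¹ • x) := rfl

theorem Dl.add_apply {p : ℕ} {Q : Type} [AddCommGroup Q] (f f' : Dl p Q) (x : Q) :
    (f + f') x = f x + f' x := rfl

theorem Dl.ext {p : ℕ} {Q : Type} [AddCommGroup Q] {f f' : Dl p Q} (h : ∀ x, f x = f' x) :
    f = f' := AddMonoidHom.ext h

variable {Γ : Type} [Group Γ]

/-- The left action of the group on a module over the group ring. -/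
noncomputable def la (P : Type) [AddCommGroup P] [Module (ZG Γ) P] (g : Γ) : P →+ P :=
  DistribSMul.toAddMonoidHom P (og g)

@[simp] theorem la_apply {P : Type} [AddCommGroup P] [Module (ZG Γ) P] (g : Γ) (x : P) :
    la P g x = og g • x := rfl

/-- The left action of the group on the dual module. -/
noncomputable def ra (P : Type) [AddCommGroup P] [Module (ZG Γ) P] (g : Γ) :
    (P →ₗ[ZG Γ] ZG Γ) →+ (P →ₗ[ZG Γ] ZG Γ) :=
  AddMonoidHom.mk' (fun b => rm b (og g⁻¹)) fun a b => by ext x : 1; simp [add_mul]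

@[simp] theorem ra_apply {P : Type} [AddCommGroup P] [Module (ZG Γ) P] (g : Γ)
    (b : P →ₗ[ZG Γ] ZG Γ) : ra P g b = rm b (og g⁻¹) := rfl

theorem zg_ind {p : ZG Γ → Prop} (h0 : p 0) (hsub : ∀ a b, p a → p b → p (a - b))
    (hog : ∀ g, p (og g)) (r : ZG Γ) : p r :=
  mem_of_og
    { carrier := {r | p r}
      zero_mem' := h0
      add_mem' := fun {a b} ha hb => by
        have := hsub a (0 - b) ha (hsub 0 b h0 hb)
        rwa [zero_sub, sub_neg_eq_add] at this
      neg_mem' := fun {a} ha => by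
        have := hsub 0 a h0 ha
        rwa [zero_sub] at this } hog r

theorem card_exact {A B C : Type} [AddCommGroup A] [AddCommGroup B] [AddCommGroup C]
    (f : A →+ B) (g : B →+ C) (hf : Function.Injective f) (hg : Function.Surjective g)
    (h : ∀ b, g b = 0 ↔ ∃ a, f a = b) : Nat.card B = Nat.card A * Nat.card C := by
  have h1 : g.ker = f.range := AddSubgroup.ext h
  rw [AddSubgroup.card_eq_card_quotient_mul_card_addSubgroup g.ker,
    Nat.card_congr (QuotientAddGroup.quotientKerEquivOfSurjective g hg).toEquiv, h1,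
    ← Nat.card_congr (AddMonoidHom.ofInjective hf).toEquiv, mul_comm]

theorem finrank_exact {k A B C : Type} [Field k] [AddCommGroup A] [AddCommGroup B]
    [AddCommGroup C] [Module k A] [Module k B] [Module k C] [FiniteDimensional k B]
    (f : A →ₗ[k] B) (g : B →ₗ[k] C) (hf : Function.Injective f) (hg : Function.Surjective g)
    (h : ∀ b, g b = 0 ↔ ∃ a, f a = b) :
    Module.finrank k B = Module.finrank k A + Module.finrank k C := by
  have h1 : LinearMap.ker g = LinearMap.range f := Submodule.ext h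
  rw [← LinearMap.finrank_range_add_finrank_ker g, h1, LinearMap.range_eq_top.mpr hg,
    finrank_top, LinearMap.finrank_range_of_inj hf, add_comm]

section
variable {k : Type} [CommRing k] {Q : Type} [AddCommGroup Q] [Module k Q] [DistribMulAction Γ Q]
  [SMulCommClass Γ k Q]

theorem der_one {D : Γ → Q} (hD : D ∈ Der k Γ Q) : D 1 = 0 := by
  have := hD 1 1
  simpa using this

/-- Principal derivations. -/
def pr (k : Type) [CommRing k] (Γ : Type) [Group Γ] (Q : Type) [AddCommGroup Q] [Module k Q]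
    [DistribMulAction Γ Q] [SMulCommClass Γ k Q] : Q →ₗ[k] Der k Γ Q where
  toFun q := ⟨fun g => g • q - q, fun g h => by simp [mul_smul, smul_sub]⟩
  map_add' a b := Subtype.ext (funext fun g => by
    change g • (a + b) - (a + b) = (g • a - a) + (g • b - b)
    rw [smul_add]; abel)
  map_smul' t a := Subtype.ext (funext fun g => by simp [smul_comm g t, smul_sub])

@[simp] theorem pr_apply (q : Q) (g : Γ) : (pr k Γ Q q).1 g = g • q - q := rfl

end

/-- The beginning of a resolution of the integers with a comparison map to the group ring. -/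
structure PRes (Γ X1 X0 : Type) [Group Γ] [AddCommGroup X1] [AddCommGroup X0] where
  /-- action -/
  a1 : Γ → X1 →+ X1
  /-- action -/
  a0 : Γ → X0 →+ X0
  a0_mul : ∀ g h x, a0 (g * h) x = a0 g (a0 h x)
  /-- boundary -/
  d : X1 →+ X0
  d_a : ∀ g y, d (a1 g y) = a0 g (d y)
  /-- augmentation -/
  eps : X0 →+ ℤ
  eps_a : ∀ g x, eps (a0 g x) = eps x
  /-- base point -/
  r0 : X0
  eps_r0 : eps r0 = 1
  ex : ∀ x, eps x = 0 ↔ ∃ y, d y = x
  /-- comparison map -/
  al : X0 →+ ZG Γ
  al_a : ∀ g x, al (a0 g x) = og g * al x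
  tau_al : ∀ x, tau ⊤ (al x) = eps x

namespace PRes

variable {X1 X0 : Type} [AddCommGroup X1] [AddCommGroup X0] (S : PRes Γ X1 X0)
  (k : Type) [CommRing k] (Q : Type) [AddCommGroup Q] [Module k Q] [DistribMulAction Γ Q]
  [SMulCommClass Γ k Q]

/-- Cocycles of degree one. -/
def Z1 : Submodule k (X1 →+ Q) where
  carrier := {c | c ∈ Hm k S.a1 Q ∧ ∀ y, S.d y = 0 → c y = 0}
  add_mem' := fun ha hb => ⟨add_mem ha.1 hb.1, fun y hy => by simp [ha.2 y hy, hb.2 y hy]⟩
  zero_mem' := ⟨zero_mem _, fun _ _ => rfl⟩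
  smul_mem' := fun t c hc => ⟨Submodule.smul_mem _ t hc.1, fun y hy => by simp [hc.2 y hy]⟩

theorem eps_d (y : X1) : S.eps (S.d y) = 0 := (S.ex _).mpr ⟨y, rfl⟩

theorem exists_s (x : X0) : ∃ y, S.d y = x - S.eps x • S.r0 :=
  (S.ex _).mp (by simp [S.eps_r0])

/-- A path from the base point to its translate. -/
noncomputable def s (g : Γ) : X1 := (S.exists_s (S.a0 g S.r0)).choose

theorem d_s (g : Γ) : S.d (S.s g) = S.a0 g S.r0 - S.r0 := by
  have : S.d (S.s g) = _ := (S.exists_s (S.a0 g S.r0)).choose_spec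
  rwa [S.eps_a, S.eps_r0, one_smul] at this

variable {S k Q} in
theorem Z1_congr {c : X1 →+ Q} (hc : c ∈ S.Z1 k Q) {y y' : X1} (h : S.d y = S.d y') :
    c y = c y' := by
  rw [← sub_eq_zero, ← map_sub]
  exact hc.2 _ (by rw [map_sub, h, sub_self])

/-- The derivation of a cocycle. -/
noncomputable def toDer : S.Z1 k Q →ₗ[k] Der k Γ Q where
  toFun c := ⟨fun g => c.1 (S.s g), fun g h => by
    rw [← c.2.1 g, ← map_add]
    apply Z1_congr c.2
    rw [map_add, S.d_a, S.d_s, S.d_s, S.d_s, map_sub, S.a0_mul]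
    abel⟩
  map_add' _ _ := rfl
  map_smul' _ _ := rfl

@[simp] theorem toDer_apply (c : S.Z1 k Q) (g : Γ) : (S.toDer k Q c).1 g = c.1 (S.s g) := rfl

/-- The coboundary of a zero cochain. -/
def cob0 : Hm k S.a0 Q →ₗ[k] S.Z1 k Q where
  toFun F := ⟨F.1.comp S.d, fun g y => by simp [S.d_a, F.2 g], fun y hy => by simp [hy]⟩
  map_add' _ _ := rfl
  map_smul' _ _ := rfl

@[simp] theorem cob0_apply (F : Hm k S.a0 Q) (y : X1) : (S.cob0 k Q F).1 y = F.1 (S.d y) := rfl

theorem toDer_cob0 (F : Hm k S.a0 Q) :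
    S.toDer k Q (S.cob0 k Q F) = pr k Γ Q (F.1 S.r0) :=
  Subtype.ext (funext fun g => by simp [S.d_s, F.2 g])

theorem exists_ext (c : S.Z1 k Q) (q : Q) (h : S.toDer k Q c = pr k Γ Q q) :
    ∃ F : Hm k S.a0 Q, S.cob0 k Q F = c ∧ F.1 S.r0 = q := by
  choose t ht using S.exists_s
  have hq : ∀ g, c.1 (S.s g) = g • q - q := fun g => congrFun (congrArg Subtype.val h) g
  refine ⟨⟨AddMonoidHom.mk' (fun x => c.1 (t x) + S.eps x • q) fun x y => ?_, fun g x => ?_⟩,
    Subtype.ext (AddMonoidHom.ext fun y => ?_), ?_⟩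
  · have : c.1 (t (x + y)) = c.1 (t x + t y) := Z1_congr c.2 (by
      simp only [map_add, ht, add_smul]; abel)
    rw [this, map_add, map_add, add_smul]
    abel
  · change c.1 (t (S.a0 g x)) + S.eps (S.a0 g x) • q = g • (c.1 (t x) + S.eps x • q)
    have : c.1 (t (S.a0 g x)) = c.1 (S.a1 g (t x) + S.eps x • S.s g) := Z1_congr c.2 (by
      rw [map_add, S.d_a, ht, ht, map_zsmul, S.d_s, S.eps_a, map_sub, map_zsmul, smul_sub]
      abel)
    rw [this, map_add, map_zsmul, hq, c.2.1, S.eps_a, smul_add, smul_sub, smul_comm g (S.eps x)]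
    abel
  · change c.1 (t (S.d y)) + S.eps (S.d y) • q = c.1 y
    rw [S.eps_d, zero_smul, add_zero]
    exact Z1_congr c.2 (by rw [ht, S.eps_d, zero_smul, sub_zero])
  · change c.1 (t S.r0) + S.eps S.r0 • q = q
    rw [c.2.2 _ (by rw [ht, S.eps_r0, one_smul, sub_self]), S.eps_r0, one_smul, zero_add]

theorem exists_toDer (D : Der k Γ Q) :
    ∃ (c : S.Z1 k Q) (q : Q), S.toDer k Q c = D + pr k Γ Q q := by
  have h1 : ∀ (g : Γ) (r : ZG Γ), ext D.1 (og g * r) = tau ⊤ r • D.1 g + g • ext D.1 r :=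
    fun g r => by
    induction r using zg_ind with
    | h0 => simp
    | hsub a b ha hb => simp only [mul_sub, map_sub, ha, hb, sub_smul, smul_sub]; abel
    | hog h => simp [← og_mul, D.2 g h, tau_og_mem _ (Subgroup.mem_top h)]
  refine ⟨⟨((ext D.1).comp S.al).comp S.d, fun g y => ?_, fun y hy => by simp [hy]⟩,
    ext D.1 (S.al S.r0), Subtype.ext (funext fun g => ?_)⟩
  · simp [S.d_a, S.al_a, h1, S.tau_al, S.eps_d]
  · change ext D.1 (S.al (S.d (S.s g))) = D.1 g + (g • _ - _)
    rw [S.d_s, map_sub, map_sub, S.al_a, h1, S.tau_al, S.eps_r0, one_smul, add_sub_assoc]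

theorem ext0 {F F' : Hm k S.a0 Q} (h : S.cob0 k Q F = S.cob0 k Q F') (h0 : F.1 S.r0 = F'.1 S.r0) :
    F = F' := by
  refine Subtype.ext (AddMonoidHom.ext fun x => ?_)
  obtain ⟨y, hy⟩ := S.exists_s x
  have e : F.1 (S.d y) = F'.1 (S.d y) := DFunLike.congr_fun (congrArg Subtype.val h) y
  rw [hy, map_sub, map_sub, map_zsmul, map_zsmul, h0] at e
  exact sub_left_injective e

/-- First map of the exact sequence. -/
def iota : Hm k S.a0 Q →ₗ[k] S.Z1 k Q × Q :=
  (S.cob0 k Q).prod
    { toFun := fun F => F.1 S.r0, map_add' := fun _ _ => rfl, map_smul' := fun _ _ => rfl }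

/-- Second map of the exact sequence. -/
noncomputable def theta : S.Z1 k Q × Q →ₗ[k] Der k Γ Q := (S.toDer k Q).coprod (-pr k Γ Q)

theorem iota_inj : Function.Injective (S.iota k Q) := fun _ _ h =>
  S.ext0 k Q (congrArg Prod.fst h) (congrArg Prod.snd h)

theorem theta_surj : Function.Surjective (S.theta k Q) := fun D => by
  obtain ⟨c, q, h⟩ := S.exists_toDer k Q D
  exact ⟨(c, q), by simp [theta, h]⟩

theorem theta_iota (b : S.Z1 k Q × Q) : S.theta k Q b = 0 ↔ ∃ F, S.iota k Q F = b := by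
  constructor
  · intro h
    obtain ⟨F, h1, h2⟩ := S.exists_ext k Q b.1 b.2 (by
      simpa [theta, add_neg_eq_zero] using h)
    exact ⟨F, Prod.ext h1 h2⟩
  · rintro ⟨F, rfl⟩
    change S.toDer k Q (S.cob0 k Q F) + -pr k Γ Q (F.1 S.r0) = 0
    rw [toDer_cob0, add_neg_cancel]

theorem card_Z1 : Nat.card (S.Z1 k Q) * Nat.card Q =
    Nat.card (Hm k S.a0 Q) * Nat.card (Der k Γ Q) := by
  rw [← Nat.card_prod]
  exact card_exact (S.iota k Q).toAddMonoidHom (S.theta k Q).toAddMonoidHom (S.iota_inj k Q)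
    (S.theta_surj k Q) (S.theta_iota k Q)

theorem finrank_Z1 (k : Type) [Field k] [Module k Q] [SMulCommClass Γ k Q]
    [FiniteDimensional k Q] [FiniteDimensional k (S.Z1 k Q)] :
    Module.finrank k (S.Z1 k Q) + Module.finrank k Q =
      Module.finrank k (Hm k S.a0 Q) + Module.finrank k (Der k Γ Q) := by
  rw [← Module.finrank_prod]
  exact finrank_exact (S.iota k Q) (S.theta k Q) (S.iota_inj k Q) (S.theta_surj k Q)
    (S.theta_iota k Q)

end PRes

end Pool.Agent.P.MP_50f9b9_al.RP
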