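import Pool.Agent.P.MP_50f9b9_al.RP.LuckG

/-! Approximation for spaces of derivations.

Hint. For a module `P` with a frame `F`, the map `c ↦ fun i => c (F.e i)` identifies
`Hm ℝ (la P) Q` with the solutions of `q i = ∑ j, zact (q j) (F.j j (F.e i))` (an equivariant `c`
satisfies `c (r • x) = zact (c x) r`; the inverse is `x ↦ ∑ j, zact (q j) (F.j j x)`), and
`(pres R).Z1 ℝ Q` (see `mem_pres_Z1`) with the solutions of these equations for `R.F1` together
with `∑ j, zact (q j) (R.F1.j j (R.d2 (R.F2.e l))) = 0` (index type a sum type). Then use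
`PRes.finrank_Z1`, `finrank (Perm X ℝ) = card X` and `luck_sol` twice, the second time with the
two sets exchanged. -/

namespace Pool.Agent.P.MP_50f9b9_al.RP

variable {Γ : Type} [Group Γ]

namespace LuckAux

section
variable {Q : Type} [AddCommGroup Q] [DistribMulAction Γ Q]

theorem zact_og_mul (q : Q) (g : Γ) (r : ZG Γ) : zact q (og g * r) = g • zact q r := by
  induction r using zg_ind with
  | h0 => simp
  | hsub a b ha hb => simp only [mul_sub, map_sub, ha, hb, smul_sub]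
  | hog h => rw [← og_mul, zact_og, zact_og, mul_smul]

theorem zact_one (q : Q) : zact q (1 : ZG Γ) = q := by
  rw [← og_one, zact_og, one_smul]

theorem zact_zero (r : ZG Γ) : zact (0 : Q) r = 0 := by
  induction r using zg_ind with
  | h0 => simp
  | hsub a b ha hb => simp only [map_sub, ha, hb, sub_self]
  | hog h => rw [zact_og, smul_zero]

variable [Module ℝ Q] [SMulCommClass Γ ℝ Q] {P : Type} [AddCommGroup P] [Module (ZG Γ) P]

theorem hm_smul {c : P →+ Q} (hc : c ∈ Hm ℝ (la (Γ := Γ) P) Q) (r : ZG Γ) (x : P) :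
    c (r • x) = zact (c x) r := by
  induction r using zg_ind with
  | h0 => simp
  | hsub a b ha hb => simp only [sub_smul, map_sub, ha, hb]
  | hog h => rw [zact_og, ← hc h x, la_apply]

theorem hm_frame (F : Frame Γ P) {c : P →+ Q} (hc : c ∈ Hm ℝ (la (Γ := Γ) P) Q) (x : P) :
    ∑ j, zact (c (F.e j)) (F.j j x) = c x := by
  conv_rhs => rw [← F.sum x, map_sum]
  exact Finset.sum_congr rfl fun j _ => (hm_smul hc _ _).symm

end

variable {P : Type} [AddCommGroup P] [Module (ZG Γ) P]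

/-- The matrix of the equations. -/
noncomputable def mat (F : Frame Γ P) {L : Type} (w : L → P) : Fin F.m ⊕ L → Fin F.m → ZG Γ
  | Sum.inl i => fun j => F.j j (F.e i) - if j = i then 1 else 0
  | Sum.inr l => fun j => F.j j (w l)

theorem sum_inl {Q : Type} [AddCommGroup Q] [DistribMulAction Γ Q] (F : Frame Γ P) {L : Type}
    (w : L → P) (q : Fin F.m → Q) (i : Fin F.m) :
    ∑ j, zact (q j) (mat F w (Sum.inl i) j) = ∑ j, zact (q j) (F.j j (F.e i)) - q i := by
  have h : ∀ j, zact (q j) (mat F w (Sum.inl i) j) =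
      zact (q j) (F.j j (F.e i)) - if j = i then q j else 0 := fun j => by
    change zact (q j) (F.j j (F.e i) - if j = i then 1 else 0) = _
    rw [map_sub]
    split_ifs
    · rw [zact_one]
    · rw [map_zero]
  rw [Finset.sum_congr rfl fun j _ => h j, Finset.sum_sub_distrib, Finset.sum_ite_eq' Finset.univ i,
    if_pos (Finset.mem_univ i)]

theorem exists_equiv (F : Frame Γ P) {L : Type} (w : L → P) (X : Type) [MulAction Γ X]
    (V : Submodule ℝ (P →+ Perm X ℝ))
    (hV : ∀ c, c ∈ V ↔ c ∈ Hm ℝ (la (Γ := Γ) P) (Perm X ℝ) ∧ ∀ l, c (w l) = 0) :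
    Nonempty (V ≃ₗ[ℝ] Sol (mat F w) X) := by
  let ev : V →ₗ[ℝ] Sol (mat F w) X :=
    { toFun := fun c => ⟨fun i => c.1 (F.e i), fun i => by
        obtain ⟨h1, h2⟩ := (hV c.1).mp c.2
        cases i with
        | inl i => rw [sum_inl, hm_frame F h1, sub_self]
        | inr l => exact (hm_frame F h1 (w l)).trans (h2 l)⟩
      map_add' := fun _ _ => rfl
      map_smul' := fun _ _ => rfl }
  refine ⟨LinearEquiv.ofBijective ev ⟨fun c c' h => ?_, fun q => ?_⟩⟩
  · refine Subtype.ext (AddMonoidHom.ext fun x => ?_)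
    have e : ∀ i, c.1 (F.e i) = c'.1 (F.e i) := fun i => congrFun (congrArg Subtype.val h) i
    rw [← hm_frame F ((hV c.1).mp c.2).1 x, ← hm_frame F ((hV c'.1).mp c'.2).1 x]
    exact Finset.sum_congr rfl fun j _ => by rw [e j]
  · let c : P →+ Perm X ℝ := ∑ j, (zact (q.1 j)).comp (F.j j).toAddMonoidHom
    have hc : ∀ x, c x = ∑ j, zact (q.1 j) (F.j j x) := fun x => by
      simp [c, AddMonoidHom.finsetSum_apply]
    refine ⟨⟨c, (hV c).mpr ⟨fun g x => ?_, fun l => ?_⟩⟩, Subtype.ext (funext fun i => ?_)⟩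
    · rw [hc, hc, Finset.smul_sum]
      refine Finset.sum_congr rfl fun j _ => ?_
      rw [la_apply, map_smul, smul_eq_mul, zact_og_mul]
    · rw [hc]
      exact q.2 (Sum.inr l)
    · change c (F.e i) = q.1 i
      have := q.2 (Sum.inl i)
      rw [sum_inl, sub_eq_zero] at this
      rw [hc, this]

theorem mem_Z1 (R : Res3 Γ) (X : Type) [MulAction Γ X] (c : R.P1 →+ Perm X ℝ) :
    c ∈ (pres R).Z1 ℝ (Perm X ℝ) ↔ c ∈ Hm ℝ (la (Γ := Γ) R.P1) (Perm X ℝ) ∧
      ∀ l, c (R.d2 (R.F2.e l)) = 0 := by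
  rw [mem_pres_Z1]
  refine and_congr_right fun hc => ⟨fun h l => h _, fun h z => ?_⟩
  rw [← R.F2.sum z, map_sum, map_sum]
  refine Finset.sum_eq_zero fun l _ => ?_
  rw [map_smul, hm_smul hc, h l, zact_zero]

theorem finrank_der (R : Res3 Γ) (X : Type) [Finite X] [MulAction Γ X] :
    Module.finrank ℝ (Sol (mat R.F1 fun l => R.d2 (R.F2.e l)) X) + Nat.card X =
      Module.finrank ℝ (Sol (mat R.F0 (Empty.elim : Empty → R.P0)) X) +
        Module.finrank ℝ (Der ℝ Γ (Perm X ℝ)) := by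
  have : FiniteDimensional ℝ (Perm X ℝ) := inferInstanceAs (FiniteDimensional ℝ (X → ℝ))
  obtain ⟨e1⟩ := exists_equiv R.F1 (fun l => R.d2 (R.F2.e l)) X _ (mem_Z1 R X)
  obtain ⟨e0⟩ := exists_equiv R.F0 (Empty.elim : Empty → R.P0) X
    (Hm ℝ (la (Γ := Γ) R.P0) (Perm X ℝ)) fun c => ⟨fun h => ⟨h, fun l => l.elim⟩, fun h => h.1⟩
  have : FiniteDimensional ℝ ((pres R).Z1 ℝ (Perm X ℝ)) := e1.symm.finiteDimensional
  have h := (pres R).finrank_Z1 (Perm X ℝ) ℝ
  have h3 : Module.finrank ℝ (Perm X ℝ) = Nat.card X := by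
    have := Fintype.ofFinite X
    rw [Nat.card_eq_fintype_card]
    exact Module.finrank_fintype_fun_eq_card ℝ
  rw [← e1.finrank_eq, ← e0.finrank_eq, ← h3]
  exact h

end LuckAux

theorem luck_der (R : Res3 Γ) (ε : ℝ) (hε : 0 < ε) :
    ∃ S : Finset Γ, ∀ (X Y : Type) [Finite X] [Finite Y] [Nonempty X] [Nonempty Y]
      [MulAction Γ X] [MulAction Γ Y], (∀ s ∈ S, s ≠ 1 → ∀ x : X, s • x ≠ x) →
      (∀ s ∈ S, s ≠ 1 → ∀ y : Y, s • y ≠ y) →
      (Module.finrank ℝ (Der ℝ Γ (Perm X ℝ)) : ℝ) / Nat.card X ≤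
        (Module.finrank ℝ (Der ℝ Γ (Perm Y ℝ)) : ℝ) / Nat.card Y + ε := by
  classical
  obtain ⟨S1, h1⟩ := luck_sol (LuckAux.mat R.F1 fun l => R.d2 (R.F2.e l)) (ε / 2) (half_pos hε)
  obtain ⟨S0, h0⟩ := luck_sol (LuckAux.mat R.F0 (Empty.elim : Empty → R.P0)) (ε / 2) (half_pos hε)
  refine ⟨S1 ∪ S0, fun X Y _ _ _ _ _ _ hX hY => ?_⟩
  have a1 := h1 X Y (fun s hs => hX s (Finset.mem_union_left _ hs))
    (fun s hs => hY s (Finset.mem_union_left _ hs))
  have a0 := h0 Y X (fun s hs => hY s (Finset.mem_union_right _ hs))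
    (fun s hs => hX s (Finset.mem_union_right _ hs))
  have key : ∀ (Z : Type) [Finite Z] [Nonempty Z] [MulAction Γ Z],
      (Module.finrank ℝ (Der ℝ Γ (Perm Z ℝ)) : ℝ) / Nat.card Z =
        (Module.finrank ℝ (Sol (LuckAux.mat R.F1 fun l => R.d2 (R.F2.e l)) Z) : ℝ) / Nat.card Z
          + 1 - (Module.finrank ℝ (Sol (LuckAux.mat R.F0 (Empty.elim : Empty → R.P0)) Z) : ℝ) /
            Nat.card Z := by
    intro Z _ _ _
    have hp : (0 : ℝ) < Nat.card Z := by exact_mod_cast Nat.card_pos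
    have h : (Module.finrank ℝ (Sol (LuckAux.mat R.F1 fun l => R.d2 (R.F2.e l)) Z) : ℝ) +
        Nat.card Z = Module.finrank ℝ (Sol (LuckAux.mat R.F0 (Empty.elim : Empty → R.P0)) Z) +
          Module.finrank ℝ (Der ℝ Γ (Perm Z ℝ)) := by
      exact_mod_cast LuckAux.finrank_der R Z
    field_simp
    linarith
  rw [key X, key Y]
  linarith

end Pool.Agent.P.MP_50f9b9_al.RP
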