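import Mathlib

/-! Virtually solvable groups, virtual products and virtually residually `p` groups. -/

namespace Pool.Agent.P.MP_50f9b9_al.RP

/-- Some subgroup of finite index is solvable. -/
def VirtSolvable (G : Type) [Group G] : Prop :=
  ∃ S : Subgroup G, S.FiniteIndex ∧ Group.IsSolvable S

/-- Some subgroup of finite index is a direct product of two nontrivial groups. -/
def VirtProduct (G : Type) [Group G] : Prop :=
  ∃ S : Subgroup G, S.FiniteIndex ∧ ∃ (A B : Type) (_ : Group A) (_ : Group B),
    Nontrivial A ∧ Nontrivial B ∧ Nonempty (S ≃* A × B)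

/-- Every element other than the identity survives in a quotient that is a finite `p`-group. -/
def ResiduallyP (p : ℕ) (W : Type) [Group W] : Prop :=
  ∀ g : W, g ≠ 1 → ∃ (N : Subgroup W) (_ : N.Normal), N.FiniteIndex ∧ IsPGroup p (W ⧸ N) ∧ g ∉ N

end Pool.Agent.P.MP_50f9b9_al.RP
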