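import Pool.Agent.P.MP_50f9b9_al.RP.Base
import Pool.Agent.P.MP_50f9b9_al.RP.Defs

/-! Subgroups that are open in the pro-`p` topology. -/

namespace Pool.Agent.P.MP_50f9b9_al.RP

variable {Γ : Type} [Group Γ]

/-- Subgroups of finite index containing all `p ^ e`-th powers for some `e`. -/
def POpen (p : ℕ) (L : Subgroup Γ) : Prop := L.FiniteIndex ∧ ∃ e : ℕ, ∀ g : Γ, g ^ p ^ e ∈ L

/-- A cofinal chain of fully invariant open subgroups. -/
def V (p : ℕ) (Γ : Type) [Group Γ] (j : ℕ) : Subgroup Γ :=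
  sInf {L | L.index ≠ 0 ∧ L.index ≤ j ∧ ∀ g : Γ, g ^ p ^ j ∈ L}

/-- The elements that an iterate of `φ` sends into `V p Γ j`. -/
def Cn (p : ℕ) (φ : Monoid.End Γ) (j : ℕ) : Subgroup Γ :=
  ⨆ n : ℕ, (V p Γ j).comap (φ ^ n : Monoid.End Γ)

/-- The common kernel of the homomorphisms from `L` to `ZMod p`. -/
def Phi (p : ℕ) (L : Subgroup Γ) : Subgroup Γ where
  carrier := {x | ∃ hx : x ∈ L, ∀ f ∈ Hom ℤ L (ZMod p), f ⟨x, hx⟩ = 0}
  mul_mem' := fun ⟨ha, ha'⟩ ⟨hb, hb'⟩ => ⟨L.mul_mem ha hb, fun f hf => by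
    have := hf ⟨_, ha⟩ ⟨_, hb⟩
    rw [ha' f hf, hb' f hf, add_zero] at this
    exact this⟩
  one_mem' := ⟨L.one_mem, fun f hf => by
    have := hf 1 1
    rw [mul_one, left_eq_add] at this
    exact this⟩
  inv_mem' := fun {a} ⟨ha, ha'⟩ => ⟨L.inv_mem ha, fun f hf => by
    have h1 := hf 1 1
    rw [mul_one, left_eq_add] at h1
    have := hf ⟨_, ha⟩⁻¹ ⟨_, ha⟩
    rw [inv_mul_cancel, h1, ha' f hf, add_zero] at this
    exact this.symm⟩

/-- Commutators lie in the second Frattini term. -/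
def Pow2 (p : ℕ) (L : Type) [Group L] : Prop :=
  ∀ c : L → ZMod p, (∀ x y, (∀ f ∈ Hom ℤ L (ZMod p), f x = 0) →
    (∀ f ∈ Hom ℤ L (ZMod p), f y = 0) → c (x * y) = c x + c y) →
    ∀ x y, c (x * y * x⁻¹ * y⁻¹) = 0

section
variable {k L A : Type} [CommRing k] [Group L] [AddCommGroup A] [Module k A] {f : L → A}

theorem hom_one (hf : f ∈ Hom k L A) : f 1 = 0 := by
  have := hf 1 1
  rwa [mul_one, left_eq_add] at this

/-- A homomorphism to an additive group as a bundled map. -/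
def toMon (hf : f ∈ Hom k L A) : L →* Multiplicative A :=
  MonoidHom.mk' (fun x => Multiplicative.ofAdd (f x)) fun x y => by rw [hf x y]; rfl

theorem hom_inv (hf : f ∈ Hom k L A) (x : L) : f x⁻¹ = -f x := (toMon hf).map_inv x

theorem hom_pow (hf : f ∈ Hom k L A) (x : L) (n : ℕ) : f (x ^ n) = n • f x :=
  (toMon hf).map_pow x n

theorem hom_zpow (hf : f ∈ Hom k L A) (x : L) (n : ℤ) : f (x ^ n) = n • f x :=
  (toMon hf).map_zpow x n

end

variable {p : ℕ}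

theorem POpen.mono {L L' : Subgroup Γ} (h : POpen p L) (hl : L ≤ L') : POpen p L' := by
  obtain ⟨h1, e, he⟩ := h
  exact ⟨Subgroup.finiteIndex_of_le hl, e, fun g => hl (he g)⟩

theorem pow_pow_mem {L : Subgroup Γ} {e e' : ℕ} (h : e ≤ e') {g : Γ} (hg : g ^ p ^ e ∈ L) :
    g ^ p ^ e' ∈ L := by
  obtain ⟨c, rfl⟩ := Nat.exists_eq_add_of_le h
  rw [pow_add, pow_mul]
  exact L.pow_mem hg _

theorem POpen.inf {L L' : Subgroup Γ} (h : POpen p L) (h' : POpen p L') : POpen p (L ⊓ L') := by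
  obtain ⟨h1, e, he⟩ := h
  obtain ⟨h1', e', he'⟩ := h'
  exact ⟨inferInstance, e + e', fun g =>
    ⟨pow_pow_mem (Nat.le_add_right _ _) (he g), pow_pow_mem (Nat.le_add_left _ _) (he' g)⟩⟩

theorem popen_top : POpen p (⊤ : Subgroup Γ) := ⟨inferInstance, 0, fun _ => trivial⟩

theorem finiteIndex_comap {Γ' : Type} [Group Γ'] (L : Subgroup Γ) [L.FiniteIndex] (f : Γ' →* Γ) :
    (L.comap f).FiniteIndex :=
  ⟨by rw [Subgroup.index_comap]; exact Subgroup.FiniteIndex.index_ne_zero⟩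

theorem index_comap_le {Γ' : Type} [Group Γ'] (L : Subgroup Γ) (h : L.index ≠ 0) (f : Γ' →* Γ) :
    (L.comap f).index ≤ L.index := by
  rw [Subgroup.index_comap, ← Subgroup.relIndex_top_right]
  exact Subgroup.relIndex_le_of_le_right le_top (by rwa [Subgroup.relIndex_top_right])

theorem POpen.comap {Γ' : Type} [Group Γ'] {L : Subgroup Γ} (h : POpen p L) (f : Γ' →* Γ) :
    POpen p (L.comap f) := by
  obtain ⟨h1, e, he⟩ := h
  exact ⟨finiteIndex_comap L f, e, fun g => by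
    rw [Subgroup.mem_comap, map_pow]; exact he _⟩

theorem POpen.trans {L : Subgroup Γ} (h : POpen p L) {K : Subgroup L} (hK : POpen p K) :
    POpen p (K.map L.subtype) := by
  obtain ⟨h1, e, he⟩ := h
  obtain ⟨h1', e', he'⟩ := hK
  refine ⟨⟨?_⟩, e + e', fun g => ⟨⟨_, he g⟩ ^ p ^ e', he' _, ?_⟩⟩
  · rw [Subgroup.index_map_subtype]
    exact mul_ne_zero h1'.1 h1.1
  · simp [pow_add, pow_mul]

theorem POpen.V_le {L : Subgroup Γ} (h : POpen p L) : ∃ j, V p Γ j ≤ L := by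
  obtain ⟨h1, e, he⟩ := h
  exact ⟨L.index + e, sInf_le ⟨h1.1, Nat.le_add_right _ _,
    fun g => pow_pow_mem (Nat.le_add_left _ _) (he g)⟩⟩

theorem V_anti : Antitone (V p Γ) := fun _ _ hij =>
  sInf_le_sInf fun _ hL => ⟨hL.1, hL.2.1.trans hij, fun g => pow_pow_mem hij (hL.2.2 g)⟩

theorem V_map {Γ' : Type} [Group Γ'] (f : Γ' →* Γ) (j : ℕ) {x : Γ'} (hx : x ∈ V p Γ' j) :
    f x ∈ V p Γ j := by
  refine Subgroup.mem_sInf.mpr fun L hL => ?_
  have : L.FiniteIndex := ⟨hL.1⟩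
  exact Subgroup.mem_sInf.mp hx (L.comap f) ⟨(finiteIndex_comap L f).1,
    (index_comap_le L hL.1 f).trans hL.2.1, fun g => by
      rw [Subgroup.mem_comap, map_pow]; exact hL.2.2 _⟩

instance (j : ℕ) : (V p Γ j).Normal :=
  ⟨fun _ hx g => V_map (MulAut.conj g).toMonoidHom j hx⟩

theorem V_popen [Group.FG Γ] (j : ℕ) : POpen p (V p Γ j) := by
  refine ⟨Subgroup.finiteIndex_of_le (H := Wk Γ j) (le_sInf fun L hL => ?_), j,
    fun g => Subgroup.mem_sInf.mpr fun L hL => hL.2.2 g⟩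
  have : L.FiniteIndex := ⟨hL.1⟩
  exact Wk_le L hL.2.1

instance [Group.FG Γ] (j : ℕ) : (V p Γ j).FiniteIndex := (V_popen j).1

theorem POpen.isPGroup {N : Subgroup Γ} [N.Normal] (h : POpen p N) : IsPGroup p (Γ ⧸ N) := by
  obtain ⟨-, e, he⟩ := h
  intro g
  obtain ⟨g, rfl⟩ := QuotientGroup.mk_surjective g
  exact ⟨e, by rw [← QuotientGroup.mk_pow, QuotientGroup.eq_one_iff]; exact he g⟩

theorem popen_of_isPGroup [Fact p.Prime] {N : Subgroup Γ} [N.Normal] [N.FiniteIndex]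
    (h : IsPGroup p (Γ ⧸ N)) : POpen p N := by
  obtain ⟨e, he⟩ := IsPGroup.iff_card.mp h
  refine ⟨inferInstance, e, fun g => ?_⟩
  rw [← QuotientGroup.eq_one_iff, QuotientGroup.mk_pow, ← he, pow_card_eq_one']

theorem POpen.normalCore {L : Subgroup Γ} (h : POpen p L) : POpen p L.normalCore := by
  obtain ⟨h1, e, he⟩ := h
  exact ⟨inferInstance, e, fun g x => by rw [← conj_pow]; exact he _⟩

theorem popen_ker {L : Type} [Group L] {e : ℕ} [NeZero p] {f : L → ZMod (p ^ e)}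
    (hf : f ∈ Hom ℤ L (ZMod (p ^ e))) : POpen p (toMon hf).ker :=
  ⟨inferInstance, e, fun g => by
    change f _ = 0
    rw [hom_pow hf, nsmul_eq_mul, ZMod.natCast_self, zero_mul]⟩

theorem popen_ker' {L : Type} [Group L] [NeZero p] {f : L → ZMod p}
    (hf : f ∈ Hom ℤ L (ZMod p)) : POpen p (toMon hf).ker :=
  ⟨inferInstance, 1, fun g => by
    change f _ = 0
    rw [hom_pow hf, nsmul_eq_mul, pow_one, ZMod.natCast_self, zero_mul]⟩

theorem eq_one_of_mem_V [Fact p.Prime] (h : ResiduallyP p Γ) {x : Γ} (hx : ∀ j, x ∈ V p Γ j) :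
    x = 1 := by
  by_contra hc
  obtain ⟨N, _, _, hN, hx'⟩ := h x hc
  obtain ⟨j, hj⟩ := (popen_of_isPGroup hN).V_le
  exact hx' (hj (hx j))

theorem ResiduallyP.of_injective [Fact p.Prime] (h : ResiduallyP p Γ) {Γ' : Type} [Group Γ']
    (f : Γ' →* Γ) (hf : Function.Injective f) : ResiduallyP p Γ' := fun g hg => by
  obtain ⟨N, _, _, hN, hx'⟩ := h (f g) fun e => hg (hf (e.trans f.map_one.symm))
  have := (popen_of_isPGroup hN).comap f
  exact ⟨N.comap f, inferInstance, this.1, this.isPGroup, hx'⟩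

theorem end_mul_apply (f g : Monoid.End Γ) (x : Γ) : (f * g) x = f (g x) := rfl

theorem mem_Cn {φ : Monoid.End Γ} {j : ℕ} {x : Γ} :
    x ∈ Cn p φ j ↔ ∃ n : ℕ, (φ ^ n) x ∈ V p Γ j := by
  refine Subgroup.mem_iSup_of_directed (Monotone.directed_le (monotone_nat_of_le_succ ?_))
  intro n y hy
  rw [Subgroup.mem_comap, pow_succ']
  exact V_map φ j hy

theorem V_le_Cn (φ : Monoid.End Γ) (j : ℕ) : V p Γ j ≤ Cn p φ j := fun _ hx =>
  mem_Cn.mpr ⟨0, hx⟩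

theorem Cn_anti (φ : Monoid.End Γ) : Antitone (Cn p φ) := fun _ _ hij _ hx =>
  let ⟨n, hn⟩ := mem_Cn.mp hx
  mem_Cn.mpr ⟨n, V_anti hij hn⟩

instance (φ : Monoid.End Γ) (j : ℕ) : (Cn p φ j).Normal :=
  ⟨fun x hx g => by
    obtain ⟨n, hn⟩ := mem_Cn.mp hx
    refine mem_Cn.mpr ⟨n, ?_⟩
    rw [map_mul, map_mul, map_inv]
    exact Subgroup.Normal.conj_mem inferInstance _ hn _⟩

theorem Cn_popen [Group.FG Γ] (φ : Monoid.End Γ) (j : ℕ) : POpen p (Cn p φ j) :=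
  (V_popen j).mono (V_le_Cn φ j)

instance [Group.FG Γ] (φ : Monoid.End Γ) (j : ℕ) : (Cn p φ j).FiniteIndex := (Cn_popen φ j).1

theorem Cn_map (φ : Monoid.End Γ) (j : ℕ) {x : Γ} (hx : x ∈ Cn p φ j) : φ x ∈ Cn p φ j := by
  obtain ⟨n, hn⟩ := mem_Cn.mp hx
  refine mem_Cn.mpr ⟨n, ?_⟩
  have : (φ ^ n) (φ x) = φ ((φ ^ n) x) := by
    rw [← end_mul_apply, ← end_mul_apply, ← pow_succ, ← pow_succ']
  rw [this]
  exact V_map φ j hn

/-- An iterate of `φ` that is idempotent modulo `V p Γ j`. -/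
theorem exists_idem [Group.FG Γ] (φ : Monoid.End Γ) (j : ℕ) : ∃ m : ℕ, 1 ≤ m ∧
    (∀ x, x * ((φ ^ m) x)⁻¹ ∈ Cn p φ j) ∧ ∀ x ∈ Cn p φ j, (φ ^ m) x ∈ V p Γ j := by
  let f : Monoid.End (Γ ⧸ V p Γ j) :=
    QuotientGroup.map _ _ φ fun x hx => V_map φ j hx
  have hf : ∀ (n : ℕ) (x : Γ), (f ^ n) (x : Γ ⧸ V p Γ j) = ((φ ^ n) x : Γ) := fun n => by
    induction n with
    | zero => intro x; rfl
    | succ n ih => intro x; rw [pow_succ, pow_succ]; exact ih (φ x)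
  have : Finite (Monoid.End (Γ ⧸ V p Γ j)) :=
    Finite.of_injective (fun g : Monoid.End (Γ ⧸ V p Γ j) => (g : _ → _)) DFunLike.coe_injective
  obtain ⟨m, hm, hm'⟩ := exists_idem_pow _ f
  refine ⟨m, hm, fun x => mem_Cn.mpr ⟨m, ?_⟩, fun x hx => ?_⟩
  · rw [← QuotientGroup.eq_one_iff, ← hf, QuotientGroup.mk_mul, QuotientGroup.mk_inv, ← hf,
      map_mul, map_inv, ← end_mul_apply, hm', mul_inv_cancel]
  · obtain ⟨n, hn⟩ := mem_Cn.mp hx
    have h1 : ∀ i : ℕ, f ^ (m * (i + 1)) = f ^ m := fun i => by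
      induction i with
      | zero => simp
      | succ i ih => rw [mul_add, pow_add, ih, mul_one, hm']
    obtain ⟨c, hc⟩ : ∃ c, m * (n + 1) = c + n := ⟨m * (n + 1) - n, by
      have : n + 1 ≤ m * (n + 1) := Nat.le_mul_of_pos_left _ hm
      omega⟩
    rw [← QuotientGroup.eq_one_iff, ← hf, ← h1 n, hc, pow_add, end_mul_apply, hf n,
      (QuotientGroup.eq_one_iff _).mpr hn, map_one]

end Pool.Agent.P.MP_50f9b9_al.RP
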