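import Pool.Agent.P.MP_50f9b9_al.RP.Pres
import Pool.Agent.P.MP_50f9b9_al.RP.Open
import Pool.Agent.P.MP_50f9b9_al.RP.Luck

/-! From counts modulo prime powers to the first Betti number, and the approximation argument.

Hints. `card_hom_le`: by the structure theorem (`AddCommGroup.equiv_free_prod_directSum_zmod`
for `Additive (Abelianization L)`) with free rank `n` and finite part `T`: `Hom ℝ L ℝ` has
dimension `n`, and `Hom ℤ L (ZMod M)` has at most `M ^ n * card T` elements (any constant that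
does not depend on `M` is enough; a homomorphism from `ZMod q` to `ZMod M` is determined by an
element killed by `q`, and there are at most `q` of them).
`le_finrank_of_card`: let `k` tend to infinity.
`not_residual`: let `g` be the number of generators of `Γ`, `K = range (φ ^ n)` with index
`d ^ n ≥ 4 g` (`index_range_pow`), `S` from `luck_der` with `ε = 1 / 2`, `j` with
`s ∉ N j` for all `s ∈ S`, `s ≠ 1`. Take `X = Γ ⧸ N j` and `Y = Γ ⧸ (N j ⊓ K)`. By `finrank_shap`,
`finrank (Der X) + 1 = finrank (Hom (N j)) + card X ≥ 3 * card X`. For `E = N j ⊓ K`,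
`finrank (Hom E) ≤ finrank (Der ℝ K (Perm (K ⧸ E.subgroupOf K) ℝ)) ≤ g * E.relIndex K` by
`finrank_shap` for the group `K` and `derEv_inj`, and `card Y = E.relIndex K * d ^ n`, so
`finrank (Der Y) / card Y ≤ 1 + 1 / 4`, while `finrank (Der X) / card X ≥ 2`. -/

namespace Pool.Agent.P.MP_50f9b9_al.RP

variable {Γ : Type} [Group Γ]

namespace BettiAux

theorem hom_fd (L : Type) [Group L] [h : Group.FG L] : FiniteDimensional ℝ (Hom ℝ L ℝ) := by
  obtain ⟨S, hS⟩ := h.out
  let ev : Hom ℝ L ℝ →ₗ[ℝ] (S → ℝ) :=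
    { toFun := fun f s => f.1 s, map_add' := fun _ _ => rfl, map_smul' := fun _ _ => rfl }
  refine FiniteDimensional.of_injective ev fun f f' e => ?_
  have : toMon f.2 = toMon f'.2 :=
    MonoidHom.eq_of_eqOn_dense hS fun x hx => congrFun e ⟨x, hx⟩
  exact Subtype.ext (funext fun x => DFunLike.congr_fun this x)

theorem exists_split (L : Type) [Group L] [Group.FG L] :
    ∃ (n : ℕ) (T : Type) (_ : AddCommGroup T) (_ : Finite T) (π : L → (Fin n →₀ ℤ) × T),
      Function.Surjective π ∧ (∀ x y, π (x * y) = π x + π y) ∧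
      ∀ (A : Type) [AddCommGroup A] (f : L → A), f ∈ Hom ℤ L A →
        ∃ F : (Fin n →₀ ℤ) × T →+ A, ∀ x, F (π x) = f x := by
  have hs : Function.Surjective (Abelianization.of : L →* Abelianization L) :=
    QuotientGroup.mk_surjective
  have : Group.FG (Abelianization L) := Group.fg_of_surjective hs
  obtain ⟨n, ι, _, p, hp, e, ⟨E⟩⟩ :=
    AddCommGroup.equiv_free_prod_directSum_zmod (Additive (Abelianization L))
  have : ∀ i, NeZero (p i ^ e i) := fun i => ⟨pow_ne_zero _ (hp i).ne_zero⟩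
  refine ⟨n, DirectSum ι fun i => ZMod (p i ^ e i), inferInstance,
    Finite.of_equiv _ DFinsupp.equivFunOnFintype.symm,
    fun x => E (Additive.ofMul (Abelianization.of x)), E.surjective.comp hs, fun x y => ?_,
    fun A _ f hf => ?_⟩
  · beta_reduce
    rw [map_mul, ofMul_mul, map_add]
  · refine ⟨(MonoidHom.toAdditiveLeft (Abelianization.lift (toMon hf))).comp
      E.symm.toAddMonoidHom, fun x => ?_⟩
    simp [toMon]

theorem der_le {S : Finset Γ} (hS : Subgroup.closure (S : Set Γ) = ⊤) (K : Subgroup Γ)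
    [K.FiniteIndex] : FiniteDimensional ℝ (Der ℝ Γ (Perm (Γ ⧸ K) ℝ)) ∧
      Module.finrank ℝ (Der ℝ Γ (Perm (Γ ⧸ K) ℝ)) ≤ S.card * K.index := by
  have : FiniteDimensional ℝ (Perm (Γ ⧸ K) ℝ) := inferInstanceAs (FiniteDimensional ℝ (_ → ℝ))
  have h3 : Module.finrank ℝ (Perm (Γ ⧸ K) ℝ) = K.index := by
    have := Fintype.ofFinite (Γ ⧸ K)
    rw [Subgroup.index, Nat.card_eq_fintype_card]
    exact Module.finrank_fintype_fun_eq_card ℝ
  refine ⟨FiniteDimensional.of_injective _ (derEv_inj hS), ?_⟩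
  refine (LinearMap.finrank_le_finrank_of_injective (derEv_inj hS)).trans (le_of_eq ?_)
  rw [Module.finrank_pi_fintype, Finset.sum_const, h3]
  simp

theorem smul_ne {E N : Subgroup Γ} [hN : N.Normal] (h : E ≤ N) {s : Γ} (hs : s ∉ N) (y : Γ ⧸ E) :
    s • y ≠ y := by
  obtain ⟨g, rfl⟩ := QuotientGroup.mk_surjective y
  intro e
  have e1 : ((s * g : Γ) : Γ ⧸ E) = g := e
  have e2 := hN.conj_mem _ (h (QuotientGroup.eq.mp e1.symm)) g
  apply hs
  simpa [mul_assoc] using e2

theorem hom_le_comap [Group.FG Γ] (ψ : Γ →* Γ) (E : Subgroup Γ) [E.FiniteIndex]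
    (h : E ≤ ψ.range) :
    Module.finrank ℝ (Hom ℝ E ℝ) ≤ Module.finrank ℝ (Hom ℝ (E.comap ψ) ℝ) := by
  have := finiteIndex_comap E ψ
  have := hom_fd (E.comap ψ)
  let u : E.comap ψ → E := fun x => ⟨ψ x, x.2⟩
  let ev : Hom ℝ E ℝ →ₗ[ℝ] Hom ℝ (E.comap ψ) ℝ :=
    { toFun := fun f => ⟨fun x => f.1 (u x), fun x y => by
        rw [← f.2]
        exact congrArg f.1 (Subtype.ext (map_mul ψ _ _))⟩
      map_add' := fun _ _ => rfl
      map_smul' := fun _ _ => rfl }
  refine LinearMap.finrank_le_finrank_of_injective (f := ev) fun f f' e => ?_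
  refine Subtype.ext (funext fun ⟨y, hy⟩ => ?_)
  obtain ⟨x, rfl⟩ := h hy
  exact congrFun (congrArg Subtype.val e) ⟨x, hy⟩

end BettiAux

open BettiAux

theorem card_hom_le (L : Type) [Group L] [Group.FG L] : ∃ c : ℕ, ∀ M : ℕ, M ≠ 0 →
    Nat.card (Hom ℤ L (ZMod M)) ≤ c * M ^ Module.finrank ℝ (Hom ℝ L ℝ) := by
  classical
  obtain ⟨n, T, _, _, π, hπ, hmul, hfac⟩ := exists_split L
  have := hom_fd L
  have hn : n ≤ Module.finrank ℝ (Hom ℝ L ℝ) := by
    let v : Fin n → Hom ℝ L ℝ := fun i => ⟨fun x => ((π x).1 i : ℝ), fun x y => by simp [hmul]⟩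
    have hv : LinearIndependent ℝ v := by
      rw [Fintype.linearIndependent_iff]
      intro g hg i
      obtain ⟨x, hx⟩ := hπ (Finsupp.single i 1, 0)
      have := congrFun (congrArg Subtype.val hg) x
      simpa [v, hx, Finsupp.single_apply] using this
    simpa using hv.fintype_card_le_finrank
  refine ⟨Nat.card T ^ Nat.card T, fun M hM => ?_⟩
  have : NeZero M := ⟨hM⟩
  choose F hF using fun f : Hom ℤ L (ZMod M) => hfac (ZMod M) f.1 f.2
  let W := {z : ZMod M // Nat.card T • z = 0}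
  have hW : Nat.card W ≤ Nat.card T := by
    rw [Nat.card_eq_fintype_card, Fintype.card_subtype]
    exact IsAddCyclic.card_nsmul_eq_zero_le Nat.card_pos
  let Φ : Hom ℤ L (ZMod M) → (T → W) × (Fin n → ZMod M) := fun f =>
    (fun t => ⟨F f (0, t), by
      rw [← map_nsmul, Prod.smul_mk, smul_zero, card_nsmul_eq_zero']
      exact map_zero _⟩, fun i => F f (Finsupp.single i 1, 0))
  have hΦ : Function.Injective Φ := fun f f' e => by
    have e1 : ∀ t, F f (0, t) = F f' (0, t) := fun t =>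
      congrArg Subtype.val (congrFun (congrArg Prod.fst e) t)
    have e2 : (F f).comp (AddMonoidHom.inl _ _) = (F f').comp (AddMonoidHom.inl _ _) :=
      Finsupp.addHom_ext' fun i => AddMonoidHom.ext_int (congrFun (congrArg Prod.snd e) i)
    refine Subtype.ext (funext fun x => ?_)
    have e3 : F f ((π x).1, 0) = F f' ((π x).1, 0) := DFunLike.congr_fun e2 (π x).1
    have e4 : π x = ((π x).1, 0) + (0, (π x).2) := by simp
    rw [← hF f x, ← hF f' x, e4, map_add, map_add, e1, e3]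
  refine (Nat.card_le_card_of_injective Φ hΦ).trans ?_
  rw [Nat.card_prod, Nat.card_fun, Nat.card_fun, Nat.card_zmod,
    Nat.card_eq_fintype_card (α := Fin n), Fintype.card_fin]
  exact Nat.mul_le_mul (Nat.pow_le_pow_left hW _) (Nat.pow_le_pow_right (Nat.pos_of_ne_zero hM) hn)

theorem le_finrank_of_card (L : Type) [Group L] [Group.FG L] (p : ℕ) (hp : 2 ≤ p) (b : ℕ)
    (h : ∀ k : ℕ, k ≠ 0 → (p ^ k) ^ b ≤ Nat.card (Hom ℤ L (ZMod (p ^ k)))) :
    b ≤ Module.finrank ℝ (Hom ℝ L ℝ) := by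
  obtain ⟨c, hc⟩ := card_hom_le L
  by_contra hb
  have h0 : 0 < p ^ (c + 1) := by positivity
  have h1 := (h (c + 1) (by omega)).trans (hc _ h0.ne')
  have h2 := (Nat.pow_le_pow_right h0 (Nat.succ_le_of_lt (not_le.mp hb))).trans h1
  rw [pow_succ'] at h2
  have h3 := Nat.le_of_mul_le_mul_right h2 (by positivity)
  have h4 : c + 1 < p ^ (c + 1) := Nat.lt_pow_self (by omega)
  omega

theorem not_residual (R : Res3 Γ) (φ : Monoid.End Γ) (hφ : Function.Injective φ)
    (hd : 2 ≤ φ.range.index) (N : ℕ → Subgroup Γ) [∀ j, (N j).Normal] [∀ j, (N j).FiniteIndex]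
    (hN : Antitone N) (hgr : ∀ j, 2 * (N j).index ≤ Module.finrank ℝ (Hom ℝ (N j) ℝ)) :
    ∃ a : Γ, a ≠ 1 ∧ ∀ j, a ∈ N j := by
  by_contra hcon
  have hres : ∀ a : Γ, ∃ j, a ≠ 1 → a ∉ N j := fun a => by
    by_contra h
    refine hcon ⟨a, fun e => h ⟨0, fun e' => absurd e e'⟩, fun j => ?_⟩
    by_contra h'
    exact h ⟨j, fun _ => h'⟩
  choose J hJ using hres
  have hfg : Group.FG Γ := R.fg
  obtain ⟨G, hG⟩ := hfg.out
  obtain ⟨S, hS⟩ := luck_der R (1 / 2) (by norm_num)
  set j := S.sup J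
  have hj : ∀ s ∈ S, s ≠ 1 → s ∉ N j := fun s hs h1 h => hJ s h1 (hN (Finset.le_sup hs) h)
  set ψ : Γ →* Γ := (φ ^ (4 * G.card) : Monoid.End Γ)
  have hD : 4 * G.card < ψ.range.index := by
    rw [index_range_pow φ hφ]
    exact Nat.lt_pow_self (by omega)
  have : ψ.range.FiniteIndex := ⟨by omega⟩
  set E := N j ⊓ ψ.range
  have := finiteIndex_comap E ψ
  have key := hS (Γ ⧸ N j) (Γ ⧸ E) (fun s hs h1 => smul_ne le_rfl (hj s hs h1))
    (fun s hs h1 => smul_ne inf_le_left (hj s hs h1))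
  obtain ⟨_, -⟩ := der_le hG (N j)
  obtain ⟨_, -⟩ := der_le hG E
  obtain ⟨_, h3⟩ := der_le hG (E.comap ψ)
  have a1 := finrank_shap ℝ (N j)
  have a2 := finrank_shap ℝ E
  have a3 := finrank_shap ℝ (E.comap ψ)
  have a4 := hom_le_comap ψ E inf_le_right
  have a5 := hgr j
  have a6 : (E.comap ψ).index * ψ.range.index = E.index := by
    rw [Subgroup.index_comap]
    exact Subgroup.relIndex_mul_index inf_le_right
  have p1 : 0 < (N j).index := Nat.pos_of_ne_zero Subgroup.FiniteIndex.index_ne_zero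
  have p2 : 0 < E.index := Nat.pos_of_ne_zero Subgroup.FiniteIndex.index_ne_zero
  have p3 : 0 < (E.comap ψ).index := Nat.pos_of_ne_zero Subgroup.FiniteIndex.index_ne_zero
  have a7 : 4 * (G.card * (E.comap ψ).index) ≤ E.index := by
    rw [← a6]
    nlinarith
  have b1 : 2 * (N j).index ≤ Module.finrank ℝ (Der ℝ Γ (Perm (Γ ⧸ N j) ℝ)) := by omega
  have b2 : 4 * Module.finrank ℝ (Der ℝ Γ (Perm (Γ ⧸ E) ℝ)) ≤ 5 * E.index := by omega
  have c1 : (2 : ℝ) ≤ (Module.finrank ℝ (Der ℝ Γ (Perm (Γ ⧸ N j) ℝ)) : ℝ) /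
      Nat.card (Γ ⧸ N j) := by
    rw [le_div_iff₀ (by exact_mod_cast p1)]
    exact_mod_cast b1
  have c2 : (Module.finrank ℝ (Der ℝ Γ (Perm (Γ ⧸ E) ℝ)) : ℝ) / Nat.card (Γ ⧸ E) ≤ 5 / 4 := by
    rw [div_le_div_iff₀ (by exact_mod_cast p2) (by norm_num), mul_comm]
    exact_mod_cast b2
  linarith

end Pool.Agent.P.MP_50f9b9_al.RP
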