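import Pool.Agent.P.MP_50f9b9_al.RP.PGen

/-! The case of bounded rank.

Hints. `exists_deep`: for `N` normal and open, `Phi p N` is normal in `Γ` (conjugate the
homomorphisms), open, and of index at most `p ^ p ^ ρ` in `N` (it is the kernel of the evaluation
map from `N` to the functions on `Hom ℤ N (ZMod p)`; any bound depending only on `p, ρ` will do).
So `Phi p (Phi p N)` has index at most some `B = B p ρ` in `N`. The kernel of the conjugation
action of `Γ` on the finite set `N ⧸ Phi p (Phi p N)` has index at most `B !` and contains all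
`p ^ e`-th powers with `e ≤ B !` (it contains `Phi p (Phi p N)`, so the quotient is a finite
`p`-group of order at most `B !`, see `POpen.isPGroup`), hence it contains `V p Γ (B !)`.
`caseI`: let `W = V p Γ j` as in `exists_deep`. Taking `N = W` gives `Pow2 p W`, so `Hom W` has at
most `p ^ 3` elements. Let `R = W ⊓ ker ψ`, `t ∈ W` with `ψ t` generating `ψ W ≠ 0`. For `N`
normal in `Γ` let `Hc N` be the submodule of `Hom ℤ N (ZMod p)` of maps vanishing on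
`N ⊓ V p Γ i` for some `i`; such a map extends to `N ⊔ V p Γ i`, so by `exists_deep` it is
invariant under conjugation by `W`. A map `f ∈ Hc R` and `s : ZMod p` give the homomorphism
`r * t ^ n ↦ f r + n * s` on `W`, so `Hc R` has at most `p ^ 2` elements; by `exists_sep` two
points `a, b` separate it. For `N = ⁅R, R⁆` and `f ∈ Hc N`, the map `(x, y) ↦ f ⁅x, y⁆` is
alternating and lies in `Hc R` in each variable, so `f` is determined by `f ⁅a, b⁆`. By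
`sup_eq_top_of_hom`, `N` is generated by `⁅a, b⁆` modulo `N ⊓ V p Γ i` for each `i`, so `N` is
abelian by `eq_one_of_mem_V`. Finally `⁅W, W⁆ ≤ R`. -/

namespace Pool.Agent.P.MP_50f9b9_al.RP

variable {Γ : Type} [Group Γ] {p : ℕ} [hp : Fact p.Prime]

open scoped commutatorElement

namespace CaseIAux

omit hp in
theorem Phi_le (L : Subgroup Γ) : Phi p L ≤ L := fun _ hx => hx.1

omit hp in
theorem Phi_normal (N : Subgroup Γ) (hN : N.Normal) : (Phi p N).Normal :=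
  ⟨fun x hx g => ⟨hN.conj_mem x hx.1 g, fun f hf =>
    hx.2 (fun y => f ⟨g * y.1 * g⁻¹, hN.conj_mem _ y.2 g⟩) fun y z => by
      refine Eq.trans (congrArg f (Subtype.ext ?_)) (hf _ _)
      change g * (y.1 * z.1) * g⁻¹ = g * y.1 * g⁻¹ * (g * z.1 * g⁻¹)
      group⟩⟩

/-- Evaluation at all homomorphisms. -/
def ev (p : ℕ) (L : Subgroup Γ) : L → (Hom ℤ L (ZMod p) → ZMod p) := fun x f => f.1 x

theorem ev_mem (L : Subgroup Γ) : ev p L ∈ Hom ℤ L (Hom ℤ L (ZMod p) → ZMod p) :=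
  fun x y => funext fun f => f.2 x y

theorem ker_ev (L : Subgroup Γ) : (toMon (ev_mem (p := p) L)).ker = (Phi p L).subgroupOf L := by
  ext x
  constructor
  · intro h
    exact ⟨x.2, fun f hf => congrFun (show ev p L x = 0 from h) ⟨f, hf⟩⟩
  · rintro ⟨_, h⟩
    exact (show ev p L x = 0 from funext fun f => h f.1 f.2)

theorem Phi_relIndex [Group.FG Γ] {L : Subgroup Γ} (hL : POpen p L) {ρ : ℕ}
    (h : Nat.card (Hom ℤ L (ZMod p)) ≤ p ^ ρ) :
    (Phi p L).relIndex L ≠ 0 ∧ (Phi p L).relIndex L ≤ p ^ p ^ ρ := by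
  have := hL.1
  have e : (Phi p L).relIndex L = Nat.card (toMon (ev_mem (p := p) L)).range := by
    rw [← Subgroup.index_ker, ker_ev]
    rfl
  rw [e]
  refine ⟨Nat.card_pos.ne', (Nat.card_le_card_of_injective _ Subtype.val_injective).trans ?_⟩
  change Nat.card (Hom ℤ L (ZMod p) → ZMod p) ≤ _
  rw [Nat.card_fun, Nat.card_zmod]
  exact Nat.pow_le_pow_right hp.out.pos h

theorem Phi_popen [Group.FG Γ] {L : Subgroup Γ} (hL : POpen p L) : POpen p (Phi p L) := by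
  have := hL.1
  obtain ⟨r, hr⟩ := exists_card_hom (p := p) L
  have h1 := (Phi_relIndex hL hr.le).1
  obtain ⟨h2, e, he⟩ := hL
  refine ⟨⟨?_⟩, e + 1, fun g => ?_⟩
  · rw [← Subgroup.relIndex_mul_index (Phi_le L)]
    exact mul_ne_zero h1 h2.1
  · refine ⟨pow_pow_mem (Nat.le_succ e) (he g), fun f hf => ?_⟩
    have e1 : (⟨g ^ p ^ (e + 1), pow_pow_mem (Nat.le_succ e) (he g)⟩ : L) =
        ⟨g ^ p ^ e, he g⟩ ^ p := Subtype.ext (by simp [pow_succ, pow_mul])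
    rw [e1, hom_pow hf, nsmul_eq_mul, ZMod.natCast_self, zero_mul]

theorem V_le_ker {X : Type} [Finite X] {B e : ℕ} (hX : Nat.card X ≤ B) (φ : Γ →* Equiv.Perm X)
    (he : ∀ g, φ (g ^ p ^ e) = 1) : V p Γ B.factorial ≤ φ.ker := by
  have hc : Nat.card (Equiv.Perm X) ≤ B.factorial := by
    rw [Nat.card_perm]
    exact Nat.factorial_le hX
  refine sInf_le ⟨?_, ?_, fun g => ?_⟩
  · rw [Subgroup.index_ker]
    exact Nat.card_pos.ne'
  · rw [Subgroup.index_ker]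
    exact (Nat.card_le_card_of_injective _ Subtype.val_injective).trans hc
  · rw [MonoidHom.mem_ker, map_pow, ← orderOf_dvd_iff_pow_eq_one]
    have h1 : orderOf (φ g) ∣ p ^ e := by
      rw [orderOf_dvd_iff_pow_eq_one, ← map_pow, he]
    obtain ⟨k, -, hk⟩ := (Nat.dvd_prime_pow hp.out).1 h1
    have h2 : orderOf (φ g) ≤ B.factorial :=
      (Nat.le_of_dvd Nat.card_pos (orderOf_dvd_natCard _)).trans hc
    rw [hk] at h2 ⊢
    exact pow_dvd_pow p ((Nat.lt_pow_self hp.out.one_lt).le.trans h2)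

/-- Homomorphisms that vanish on some term of the chain. -/
def Hc (p : ℕ) (N : Subgroup Γ) : Submodule ℤ (N → ZMod p) where
  carrier := {f | f ∈ Hom ℤ N (ZMod p) ∧ ∃ i, ∀ x : N, x.1 ∈ V p Γ i → f x = 0}
  add_mem' := fun ⟨ha, i, hi⟩ ⟨hb, i', hi'⟩ => ⟨add_mem ha hb, i + i', fun x hx => by
    rw [Pi.add_apply, hi x (V_anti (Nat.le_add_right _ _) hx),
      hi' x (V_anti (Nat.le_add_left _ _) hx), add_zero]⟩
  zero_mem' := ⟨zero_mem _, 0, fun _ _ => rfl⟩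
  smul_mem' := fun t f ⟨hf, i, hi⟩ => ⟨Submodule.smul_mem _ t hf, i, fun x hx => by
    rw [Pi.smul_apply, hi x hx, smul_zero]⟩

omit hp in
theorem Hc_conj [Group.FG Γ] {W : Subgroup Γ}
    (hW : ∀ N : Subgroup Γ, N.Normal → POpen p N → ∀ w ∈ W, ∀ x ∈ N,
      w * x * w⁻¹ * x⁻¹ ∈ Phi p (Phi p N))
    {N : Subgroup Γ} (hN : N.Normal) {f : N → ZMod p} (hf : f ∈ Hc p N) {w : Γ} (hw : w ∈ W)
    (x y : N) (hy : y.1 = w * x.1 * w⁻¹) : f y = f x := by
  obtain ⟨hf, i, hi⟩ := hf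
  have key : ∀ a b : N, (a.1 : Γ ⧸ V p Γ i) = b.1 → f a = f b := fun a b h => by
    have h1 := hi (a⁻¹ * b) (QuotientGroup.eq.1 h)
    rw [hf, hom_inv hf] at h1
    exact neg_add_eq_zero.1 h1
  have ex : ∀ z : (N ⊔ V p Γ i : Subgroup Γ), ∃ a : N, (a.1 : Γ ⧸ V p Γ i) = z.1 := fun z => by
    obtain ⟨a, ha, v, hv, e⟩ := Subgroup.mem_sup_of_normal_right.1 z.2
    refine ⟨⟨a, ha⟩, ?_⟩
    rw [← e, QuotientGroup.mk_mul, (QuotientGroup.eq_one_iff v).2 hv, mul_one]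
  choose n hn using ex
  have hF : (fun z => f (n z)) ∈ Hom ℤ (N ⊔ V p Γ i : Subgroup Γ) (ZMod p) := fun z z' => by
    rw [← hf]
    refine key _ _ ?_
    rw [hn, Subgroup.coe_mul, Subgroup.coe_mul, QuotientGroup.mk_mul, QuotientGroup.mk_mul, hn,
      hn]
  obtain ⟨h1, h2⟩ := Phi_le _ (hW (N ⊔ V p Γ i) inferInstance ((V_popen i).mono le_sup_right)
    w hw x.1 (Subgroup.mem_sup_left x.2))
  have h3 : f (n ⟨_, h1⟩) = 0 := h2 _ hF
  have h4 : f (y * x⁻¹) = 0 := by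
    rw [← h3]
    refine key _ _ ?_
    rw [hn, Subgroup.coe_mul, Subgroup.coe_inv, hy]
  rw [hf, hom_inv hf] at h4
  exact add_neg_eq_zero.1 h4

theorem card_Hc [Group.FG Γ] {W R : Subgroup Γ} [W.FiniteIndex] (hR : R.Normal)
    (hW : ∀ N : Subgroup Γ, N.Normal → POpen p N → ∀ w ∈ W, ∀ x ∈ N,
      w * x * w⁻¹ * x⁻¹ ∈ Phi p (Phi p N))
    (hRW : R ≤ W) (t : W) (n : W → ℤ) (hn : n ∈ Hom ℤ W ℤ) (ht : n t = 1)
    (h0 : ∀ w : W, w.1 ∈ R ↔ n w = 0) (h3 : Nat.card (Hom ℤ W (ZMod p)) ≤ p ^ 3) :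
    Finite (Hc p R) ∧ Nat.card (Hc p R) ≤ p ^ 2 := by
  have hm : ∀ w : W, (w * t ^ (-n w)).1 ∈ R := fun w => (h0 _).2 (by
    rw [hn, hom_zpow hn, ht]
    simp)
  let F : Hc p R × ZMod p → Hom ℤ W (ZMod p) := fun q =>
    ⟨fun w => q.1.1 ⟨_, hm w⟩ + n w • q.2, fun w w' => by
      have hc : (t ^ n w * (w' * t ^ (-n w')) * (t ^ n w)⁻¹ : W).1 ∈ R :=
        hR.conj_mem _ (hm w') (t ^ n w : W).1
      have e1 : (⟨_, hm (w * w')⟩ : R) = ⟨_, hm w⟩ * ⟨_, hc⟩ := by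
        refine Subtype.ext ?_
        change (w * w' * t ^ (-n (w * w')) : W).1 = (w * t ^ (-n w) *
          (t ^ n w * (w' * t ^ (-n w')) * (t ^ n w)⁻¹) : W).1
        congr 1
        rw [hn]
        group
      have e2 : q.1.1 ⟨_, hc⟩ = q.1.1 ⟨_, hm w'⟩ :=
        Hc_conj hW hR q.1.2 (t ^ n w : W).2 _ _ rfl
      change q.1.1 ⟨_, hm (w * w')⟩ + n (w * w') • q.2 =
        q.1.1 ⟨_, hm w⟩ + n w • q.2 + (q.1.1 ⟨_, hm w'⟩ + n w' • q.2)
      rw [e1, q.1.2.1, e2, hn, add_smul]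
      abel⟩
  have hF : Function.Injective F := by
    intro q q' h
    have h1 : ∀ w, q.1.1 ⟨_, hm w⟩ + n w • q.2 = q'.1.1 ⟨_, hm w⟩ + n w • q'.2 := fun w =>
      congrFun (congrArg Subtype.val h) w
    refine Prod.ext (Subtype.ext (funext fun r => ?_)) ?_
    · have h2 := h1 ⟨r.1, hRW r.2⟩
      have h4 : n ⟨r.1, hRW r.2⟩ = 0 := (h0 _).1 r.2
      have e : (⟨_, hm ⟨r.1, hRW r.2⟩⟩ : R) = r := Subtype.ext (by simp [h4])
      rw [e, h4, zero_smul, zero_smul, add_zero, add_zero] at h2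
      exact h2
    · have h2 := h1 t
      have e : (⟨_, hm t⟩ : R) = 1 := Subtype.ext (by simp [ht])
      rw [e, ht, hom_one q.1.2.1, hom_one q'.1.2.1, one_smul, one_smul, zero_add, zero_add] at h2
      exact h2
  have hfin : Finite (Hc p R × ZMod p) := Finite.of_injective F hF
  refine ⟨Finite.of_injective (fun f : Hc p R => (f, (0 : ZMod p))) fun f f' h =>
    congrArg Prod.fst h, ?_⟩
  have h4 := (Nat.card_le_card_of_injective F hF).trans h3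
  rw [Nat.card_prod, Nat.card_zmod, pow_succ] at h4
  exact Nat.le_of_mul_le_mul_right h4 hp.out.pos

theorem eq_zero_of_comm [Group.FG Γ] {W R : Subgroup Γ} (hR : R.Normal)
    (hW : ∀ N : Subgroup Γ, N.Normal → POpen p N → ∀ w ∈ W, ∀ x ∈ N,
      w * x * w⁻¹ * x⁻¹ ∈ Phi p (Phi p N))
    (hRW : R ≤ W) (a b : R) (hab : ∀ f ∈ Hc p R, f a = 0 → f b = 0 → f = 0)
    {f : (⁅R, R⁆ : Subgroup Γ) → ZMod p} (hf : f ∈ Hc p ⁅R, R⁆)
    (h : f ⟨⁅a.1, b.1⁆, Subgroup.commutator_mem_commutator a.2 b.2⟩ = 0) : f = 0 := by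
  have hN : (⁅R, R⁆ : Subgroup Γ).Normal := inferInstance
  let c : R → R → (⁅R, R⁆ : Subgroup Γ) := fun x y =>
    ⟨⁅x.1, y.1⁆, Subgroup.commutator_mem_commutator x.2 y.2⟩
  have h1 : ∀ y, (fun x => f (c x y)) ∈ Hc p R := fun y => by
    refine ⟨fun x x' => ?_, ?_⟩
    · have hc := hN.conj_mem _ (c x' y).2 x.1
      have e1 : c (x * x') y = ⟨_, hc⟩ * c x y := by
        refine Subtype.ext ?_
        change ⁅x.1 * x'.1, y.1⁆ = x.1 * ⁅x'.1, y.1⁆ * x.1⁻¹ * ⁅x.1, y.1⁆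
        simp only [commutatorElement_def]
        group
      have e2 : f ⟨_, hc⟩ = f (c x' y) := Hc_conj hW hN hf (hRW x.2) _ _ rfl
      change f (c (x * x') y) = f (c x y) + f (c x' y)
      rw [e1, hf.1, e2, add_comm]
    · obtain ⟨i, hi⟩ := hf.2
      exact ⟨i, fun x hx => hi _ (Subgroup.commutator_le_left (V p Γ i) ⊤
        (Subgroup.commutator_mem_commutator hx (Subgroup.mem_top y.1)))⟩
  have h2 : ∀ x y, f (c x y) = -f (c y x) := fun x y => by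
    rw [← hom_inv hf.1]
    congr 1
    exact Subtype.ext (commutatorElement_inv _ _).symm
  have h3 : ∀ x, f (c x x) = 0 := fun x => by
    rw [← hom_one hf.1]
    congr 1
    exact Subtype.ext (commutatorElement_self _)
  have h4 : ∀ x, f (c x b) = 0 := congrFun (hab _ (h1 b) h (h3 b))
  have h5 : ∀ x, f (c x a) = 0 := congrFun (hab _ (h1 a) (h3 a) (by
    rw [h2, h4, neg_zero]))
  have h6 : ∀ y x, f (c x y) = 0 := fun y => congrFun (hab _ (h1 y) (by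
    rw [h2, h5, neg_zero]) (by
    rw [h2, h4, neg_zero]))
  have h7 : ⁅R, R⁆ ≤ (toMon hf.1).ker.map (⁅R, R⁆ : Subgroup Γ).subtype :=
    Subgroup.commutator_le.2 fun x hx y hy => ⟨c ⟨x, hx⟩ ⟨y, hy⟩, h6 _ _, rfl⟩
  funext z
  obtain ⟨z', hz', e⟩ := h7 z.2
  have e' : z' = z := Subtype.ext e
  subst e'
  exact hz'

theorem comm_of_gen [Group.FG Γ] (hres : ResiduallyP p Γ) (N : Subgroup Γ) (c : N)
    (h : ∀ f ∈ Hc p N, f c = 0 → f = 0) : ⁅N, N⁆ = ⊥ := by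
  refine eq_bot_iff.2 (Subgroup.commutator_le.2 fun x hx y hy => ?_)
  refine Subgroup.mem_bot.2 (eq_one_of_mem_V hres fun i => ?_)
  have key : ∀ z : N, ∃ m : ℤ, (z.1 : Γ ⧸ V p Γ i) = (c.1 : Γ ⧸ V p Γ i) ^ m := fun z => by
    obtain ⟨s, ⟨m, rfl⟩, hs⟩ := sup_eq_top_of_hom ((V p Γ i).comap N.subtype)
      ((V_popen (p := p) i).comap N.subtype) (Subgroup.zpowers c)
      (fun f hf h1 h2 => h f ⟨hf, i, h2⟩ (h1 c (Subgroup.mem_zpowers c))) z
    refine ⟨m, ?_⟩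
    have h1 : ((z.1 * (c.1 ^ m)⁻¹ : Γ) : Γ ⧸ V p Γ i) = 1 := (QuotientGroup.eq_one_iff _).2 hs
    rwa [QuotientGroup.mk_mul, QuotientGroup.mk_inv, QuotientGroup.mk_zpow,
      mul_inv_eq_one] at h1
  obtain ⟨m, hm⟩ := key ⟨x, hx⟩
  obtain ⟨m', hm'⟩ := key ⟨y, hy⟩
  rw [← QuotientGroup.eq_one_iff, commutatorElement_def, QuotientGroup.mk_mul,
    QuotientGroup.mk_mul, QuotientGroup.mk_mul, QuotientGroup.mk_inv, QuotientGroup.mk_inv, hm,
    hm']
  group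

end CaseIAux

open CaseIAux

theorem exists_deep [Group.FG Γ] (ρ : ℕ)
    (hb : ∀ L : Subgroup Γ, POpen p L → Nat.card (Hom ℤ L (ZMod p)) ≤ p ^ ρ) :
    ∃ j, ∀ N : Subgroup Γ, N.Normal → POpen p N → ∀ w ∈ V p Γ j, ∀ x ∈ N,
      w * x * w⁻¹ * x⁻¹ ∈ Phi p (Phi p N) := by
  refine ⟨(p ^ p ^ ρ * p ^ p ^ ρ).factorial, fun N hN hNo w hw x hx => ?_⟩
  have h1 := Phi_popen hNo
  have h2 := Phi_popen h1
  have hM : (Phi p (Phi p N)).Normal := Phi_normal _ (Phi_normal N hN)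
  have := h2.1
  have hN' : (N.map (QuotientGroup.mk' (Phi p (Phi p N)))).Normal :=
    hN.map _ (QuotientGroup.mk'_surjective _)
  have hc : Nat.card (N.map (QuotientGroup.mk' (Phi p (Phi p N)))) ≤ p ^ p ^ ρ * p ^ p ^ ρ := by
    rw [← Subgroup.relIndex_ker, QuotientGroup.ker_mk',
      ← Subgroup.relIndex_mul_relIndex _ _ _ (Phi_le (Phi p N)) (Phi_le N)]
    exact Nat.mul_le_mul (Phi_relIndex h1 (hb _ h1)).2 (Phi_relIndex hNo (hb _ hNo)).2
  obtain ⟨e, he⟩ := h2.2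
  have h3 := V_le_ker (p := p) (e := e) hc ((MulAut.toPerm _).comp
    (MulAut.conjNormal.comp (QuotientGroup.mk' (Phi p (Phi p N))))) (fun g => by
      rw [MonoidHom.comp_apply, MonoidHom.comp_apply, QuotientGroup.mk'_apply,
        (QuotientGroup.eq_one_iff _).2 (he g), map_one, map_one]) hw
  have h4 := congrArg Subtype.val (DFunLike.congr_fun (MonoidHom.mem_ker.1 h3) ⟨_, x, hx, rfl⟩)
  rw [← QuotientGroup.eq_one_iff, QuotientGroup.mk_mul, QuotientGroup.mk_inv, mul_inv_eq_one]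
  exact h4

theorem caseI [Group.FG Γ] (hres : ResiduallyP p Γ) (ψ : Γ → ℤ) (hψ : ψ ∈ Hom ℤ Γ ℤ)
    (hψ0 : ψ ≠ 0)
    (hdeep : ∃ j, ∀ N : Subgroup Γ, N.Normal → POpen p N → ∀ w ∈ V p Γ j, ∀ x ∈ N,
      w * x * w⁻¹ * x⁻¹ ∈ Phi p (Phi p N))
    (h3 : ∀ L : Subgroup Γ, POpen p L → Pow2 p L → Nat.card (Hom ℤ L (ZMod p)) ≤ p ^ 3) :
    VirtSolvable Γ := by
  obtain ⟨j, hW⟩ := hdeep
  have hWo : POpen p (V p Γ j) := V_popen j
  have hP : Pow2 p (V p Γ j) := fun c hc x y => by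
    obtain ⟨h1, h2⟩ := hW _ inferInstance hWo x.1 x.2 y.1 y.2
    exact h2 (fun z => c ⟨z.1, Phi_le _ z.2⟩) fun z z' => hc ⟨z.1, Phi_le _ z.2⟩
      ⟨z'.1, Phi_le _ z'.2⟩ z.2.2 z'.2.2
  have h4 := h3 _ hWo hP
  let A : AddSubgroup ℤ :=
    { carrier := {m | ∃ w ∈ V p Γ j, ψ w = m}
      add_mem' := fun ⟨w, hw, e⟩ ⟨w', hw', e'⟩ => ⟨w * w', mul_mem hw hw', by rw [hψ, e, e']⟩
      zero_mem' := ⟨1, one_mem _, hom_one hψ⟩
      neg_mem' := fun ⟨w, hw, e⟩ => ⟨w⁻¹, inv_mem hw, by rw [hom_inv hψ, e]⟩ }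
  obtain ⟨d, hd⟩ := Int.subgroup_cyclic A
  obtain ⟨t, ht, htd⟩ : d ∈ A := hd ▸ AddSubgroup.subset_closure rfl
  have hex : ∀ w : V p Γ j, ∃ m : ℤ, m • d = ψ w.1 := fun w =>
    AddSubgroup.mem_closure_singleton.1 (hd ▸ (⟨w.1, w.2, rfl⟩ : ψ w.1 ∈ A))
  choose n hn using hex
  have hd0 : d ≠ 0 := by
    intro h
    obtain ⟨g, hg⟩ := Function.ne_iff.1 hψ0
    obtain ⟨e, he⟩ := hWo.2
    have h5 := hn ⟨_, he g⟩
    rw [h, smul_zero, hom_pow hψ, nsmul_eq_mul] at h5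
    exact mul_ne_zero (Nat.cast_ne_zero.2 (pow_ne_zero e hp.out.ne_zero)) hg h5.symm
  have hnH : n ∈ Hom ℤ (V p Γ j) ℤ := fun w w' => by
    refine mul_right_cancel₀ hd0 ?_
    have e1 := hn w
    have e2 := hn w'
    have e3 := hn (w * w')
    rw [Subgroup.coe_mul, hψ] at e3
    rw [smul_eq_mul] at e1 e2 e3
    rw [add_mul, e1, e2, e3]
  have hnt : n ⟨t, ht⟩ = 1 := by
    refine mul_right_cancel₀ hd0 ?_
    have e1 := hn ⟨t, ht⟩
    rw [smul_eq_mul] at e1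
    rw [e1, one_mul, htd]
  have hR : (V p Γ j ⊓ (toMon hψ).ker).Normal := inferInstance
  have h0 : ∀ w : V p Γ j, w.1 ∈ V p Γ j ⊓ (toMon hψ).ker ↔ n w = 0 := fun w => by
    have e1 := hn w
    rw [smul_eq_mul] at e1
    constructor
    · intro h
      have h5 : ψ w.1 = 0 := h.2
      exact (mul_eq_zero.1 (e1.trans h5)).resolve_right hd0
    · intro h
      refine ⟨w.2, (?_ : ψ w.1 = 0)⟩
      rw [← e1, h, zero_mul]
  obtain ⟨hfin, hc⟩ := card_Hc hR hW inf_le_left ⟨t, ht⟩ n hnH hnt h0 h4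
  obtain ⟨g, hg⟩ := exists_sep 1 2 _ hfin hc
  have h5 := comm_of_gen hres _ _ fun f hf h => eq_zero_of_comm hR hW inf_le_left (g 0) (g 1)
    (fun f hf h1 h2 => hg f hf (Fin.forall_fin_two.2 ⟨h1, h2⟩)) hf h
  have h6 : ⁅V p Γ j, V p Γ j⁆ ≤ V p Γ j ⊓ (toMon hψ).ker :=
    Subgroup.commutator_le.2 fun x hx y hy => ⟨Subgroup.commutator_le_left _ _
      (Subgroup.commutator_mem_commutator hx hy), MonoidHom.mem_ker.2 (by
        rw [map_commutatorElement, commutatorElement_eq_one_iff_mul_comm, mul_comm])⟩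
  refine ⟨V p Γ j, inferInstance, ⟨3, ?_⟩⟩
  rw [← Subgroup.map_eq_bot_iff_of_injective _ (V p Γ j).subtype_injective, eq_bot_iff, ← h5]
  simp only [derivedSeries_succ, derivedSeries_zero, Subgroup.map_commutator,
    ← MonoidHom.range_eq_map, Subgroup.range_subtype]
  exact Subgroup.commutator_mono (Subgroup.commutator_mono h6 h6) (Subgroup.commutator_mono h6 h6)

end Pool.Agent.P.MP_50f9b9_al.RP
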