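import Pool.Agent.P.MP_50f9b9_al.RP.Base

/-! Koszul type diagram chases in the resolution.

Hints. `LI`, `tau_LI`, `Frame.mem_LI`, `Res3.mem_LI3`, `exists_of_tau_ne` are in `Strebel.lean`.
`LI_reg`: by `Frame.mem_LI` show `tau W (a x) = 0`; the integers `tau W (og (z ^ k) * a x)` do not
depend on `k` (apply `LI_map` with multiplication by `og (z ^ k)` and `tau_LI`); if they are not
zero, for each `k` some `y` in the support of `a x` has `z ^ k * y ∈ W` (use `zinv`-free direct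
argument as in `exists_of_tau_ne`), and the pigeonhole principle gives `z ^ (k - k') ∈ W`.
Write `y_g x = og g • x - x`. By `mem_LI_closure`, `LI ⊥ = ⊥`, `LI (closure {g})` is the range of
`y_g`, and `LI (closure {g, h})` is the sum of two ranges.
`kosz2`: write `M q - d3 v = y_n s - y_y t`, apply `d2`: `y_n (M py - d2 s) = y_y (M pn - d2 t)`,
so `M py - d2 s = y_y w` by `LI_reg`; apply `d1`: `y_y (M r0 - d1 w) = 0`, so `M r0 = d1 w` and
`eps` gives `M = 0`.
`no_Z3`: choose `p_i` with `d1 p_i = y_i r0`, `q_ij` with `d2 q_ij = y_i p_j - y_j p_i`, `v` with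
`d3 v = y_1 q_23 - y_2 q_13 + y_3 q_12`; by `mem_LI3`, `v` is a sum of three terms `y_i v_i`;
correct the `q_ij` by boundaries so that the alternating sum vanishes; `LI_reg` gives
`q_12 ∈ LI (closure {x, y})`, and `kosz2` with `M = 1` is a contradiction.
`torsion_free`: let `g` have order `n`, `N = ∑ i < n, og (g ^ i)`, `V = zpowers g` (infinite
index). `d1 x1 = y_g r0`, `d2 x2 = N x1`, `d3 x3 = y_g x2`; `mem_LI3` gives `x3 = y_g w3`; the
kernel of `y_g` on a module with a frame is the range of `N`; the kernel of `N` lies in `LI V`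
(the coefficient of `N * r` at one is `tau V r`); descend to `r0 - d1 w1 = N w0`, so `n ∣ 1`. -/

namespace Pool.Agent.P.MP_50f9b9_al.RP

variable {Γ : Type} [Group Γ]

theorem mem_LI_closure {P : Type} [AddCommGroup P] [Module (ZG Γ) P] (S : Set Γ) (x : P) :
    x ∈ LI (Subgroup.closure S) P ↔
      x ∈ AddSubgroup.closure {y : P | ∃ s ∈ S, ∃ w : P, y = og s • w - w} := by
  constructor
  · intro hx
    have key : ∀ v ∈ Subgroup.closure S, ∀ w : P,
        og v • w - w ∈ AddSubgroup.closure {y : P | ∃ s ∈ S, ∃ w : P, y = og s • w - w} := by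
      intro v hv
      induction hv using Subgroup.closure_induction with
      | mem s hs => exact fun w => AddSubgroup.subset_closure ⟨s, hs, w, rfl⟩
      | one => intro w; simp
      | mul a b _ _ ha hb =>
        intro w
        have := add_mem (ha (og b • w)) (hb w)
        rwa [sub_add_sub_cancel, smul_smul, ← og_mul] at this
      | inv a _ ha =>
        intro w
        have := neg_mem (ha (og a⁻¹ • w))
        rwa [smul_smul, ← og_mul, mul_inv_cancel, og_one, one_smul, neg_sub] at this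
    refine (AddSubgroup.closure_le _).mpr ?_ hx
    rintro _ ⟨v, hv, w, rfl⟩
    exact key v hv w
  · refine fun hx => AddSubgroup.closure_mono ?_ hx
    rintro _ ⟨s, hs, w, rfl⟩
    exact ⟨s, Subgroup.subset_closure hs, w, rfl⟩

namespace KoszAux

section
variable {P : Type} [AddCommGroup P] [Module (ZG Γ) P]

/-- The map `x ↦ g x - x`. -/
noncomputable def Y (g : Γ) : P →+ P := la P g - AddMonoidHom.id P

theorem Y_apply (g : Γ) (x : P) : Y g x = og g • x - x := rfl

theorem Y_mem {V : Subgroup Γ} {g : Γ} (hg : g ∈ V) (x : P) : Y g x ∈ LI V P :=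
  AddSubgroup.subset_closure ⟨g, hg, x, rfl⟩

theorem map_Y {Q : Type} [AddCommGroup Q] [Module (ZG Γ) Q] (f : P →ₗ[ZG Γ] Q) (g : Γ) (x : P) :
    f (Y g x) = Y g (f x) := by
  simp [Y_apply]

theorem Y_comm {g h : Γ} (hc : Commute g h) (x : P) : Y g (Y h x) = Y h (Y g x) := by
  simp only [Y_apply, smul_sub, smul_smul, ← og_mul, hc.eq]
  abel

theorem LI_bot {x : P} (hx : x ∈ LI (⊥ : Subgroup Γ) P) : x = 0 := by
  have : LI (⊥ : Subgroup Γ) P ≤ ⊥ := (AddSubgroup.closure_le _).mpr (by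
    rintro _ ⟨v, hv, w, rfl⟩
    rw [Subgroup.mem_bot.1 hv]
    simp)
  exact AddSubgroup.mem_bot.1 (this hx)

theorem LI_three {a b c : Γ} {x : P} (hx : x ∈ LI (Subgroup.closure {a, b, c}) P) :
    ∃ s t u, x = Y a s + Y b t + Y c u := by
  rw [mem_LI_closure] at hx
  induction hx using AddSubgroup.closure_induction with
  | mem y hy =>
    obtain ⟨s, hs, w, rfl⟩ := hy
    rcases hs with rfl | rfl | rfl
    · exact ⟨w, 0, 0, by simp [Y_apply]⟩
    · exact ⟨0, w, 0, by simp [Y_apply]⟩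
    · exact ⟨0, 0, w, by simp [Y_apply]⟩
  | zero => exact ⟨0, 0, 0, by simp⟩
  | add y z _ _ hy hz =>
    obtain ⟨s, t, u, rfl⟩ := hy
    obtain ⟨s', t', u', rfl⟩ := hz
    exact ⟨s + s', t + t', u + u', by simp only [map_add]; abel⟩
  | neg y _ hy =>
    obtain ⟨s, t, u, rfl⟩ := hy
    exact ⟨-s, -t, -u, by simp only [map_neg]; abel⟩

theorem LI_two {a b : Γ} {x : P} (hx : x ∈ LI (Subgroup.closure {a, b}) P) :
    ∃ s t, x = Y a s + Y b t := by
  obtain ⟨s, t, u, rfl⟩ := LI_three (a := a) (b := b) (c := b) (x := x) (by simpa using hx)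
  exact ⟨s, t + u, by rw [map_add, add_assoc]⟩

theorem LI_one {a : Γ} {x : P} (hx : x ∈ LI (Subgroup.closure {a}) P) : ∃ s, x = Y a s := by
  obtain ⟨s, t, rfl⟩ := LI_two (a := a) (b := a) (x := x) (by simpa using hx)
  exact ⟨s + t, by rw [map_add]⟩

end

theorem exists_left (V : Subgroup Γ) (r : ZG Γ) (g : Γ) (h : tau V (og g * r) ≠ 0) :
    ∃ y ∈ r.coeff.support, g * y ∈ V := by
  by_contra hc
  push Not at hc
  apply h
  rw [← r.sum_coeff_single, Finsupp.sum, Finset.mul_sum, map_sum]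
  refine Finset.sum_eq_zero fun y hy => ?_
  have : MonoidAlgebra.single y (r.coeff y) = r.coeff y • og y := by simp [og]
  rw [this, mul_smul_comm, map_zsmul, ← og_mul, tau_og_notMem _ (hc y hy), smul_zero]

theorem comm_closure {S : Set Γ} {z : Γ} (h : ∀ s ∈ S, Commute z s) :
    ∀ w ∈ Subgroup.closure S, Commute z w := by
  intro w hw
  induction hw using Subgroup.closure_induction with
  | mem s hs => exact h s hs
  | one => exact Commute.one_right z
  | mul a b _ _ ha hb => exact ha.mul_right hb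
  | inv a _ ha => exact ha.inv_right

theorem mem_pair {x y w : Γ} (hc : Commute x y) (hw : w ∈ Subgroup.closure {x, y}) :
    ∃ a b : ℤ, w = x ^ a * y ^ b := by
  induction hw using Subgroup.closure_induction with
  | mem s hs =>
    rcases hs with rfl | rfl
    · exact ⟨1, 0, by simp⟩
    · exact ⟨0, 1, by simp⟩
  | one => exact ⟨0, 0, by simp⟩
  | mul _ _ _ _ ha hb =>
    obtain ⟨a, b, rfl⟩ := ha
    obtain ⟨a', b', rfl⟩ := hb
    refine ⟨a + a', b + b', ?_⟩
    rw [zpow_add, zpow_add, mul_assoc, mul_assoc, ← mul_assoc (y ^ b),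
      ← (hc.zpow_zpow a' b).eq, mul_assoc]
  | inv _ _ ha =>
    obtain ⟨a, b, rfl⟩ := ha
    exact ⟨-a, -b, by rw [mul_inv_rev, (hc.zpow_zpow (-a) (-b)).eq, zpow_neg, zpow_neg]⟩

section
variable (V : Subgroup Γ) [Fintype V]

/-- The norm element of a finite subgroup. -/
noncomputable def Nm : ZG Γ := ∑ v : V, og (v : Γ)

variable {V}

theorem og_Nm {g : Γ} (hg : g ∈ V) : og g * Nm V = Nm V := by
  rw [Nm, Finset.mul_sum]
  exact Fintype.sum_equiv (Equiv.mulLeft (⟨g, hg⟩ : V)) _ _ fun v => by simp [og_mul]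

theorem Nm_og {g : Γ} (hg : g ∈ V) : Nm V * og g = Nm V := by
  rw [Nm, Finset.sum_mul]
  exact Fintype.sum_equiv (Equiv.mulRight (⟨g, hg⟩ : V)) _ _ fun v => by simp [og_mul]

theorem tau_Nm (r : ZG Γ) : tau ⊥ (Nm V * r) = tau V r := by
  classical
  have := hom_ext (f := (tau ⊥).comp (AddMonoidHom.mulLeft (Nm V))) (g := tau V) fun y => by
    simp only [AddMonoidHom.comp_apply, AddMonoidHom.coe_mulLeft, Nm, Finset.sum_mul, map_sum,
      ← og_mul]
    by_cases hy : y ∈ V
    · rw [tau_og_mem _ hy, Finset.sum_eq_single (⟨y, hy⟩⁻¹ : V)]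
      · exact tau_og_mem _ (by simp)
      · refine fun v _ hv => tau_og_notMem _ fun h => hv (Subtype.ext ?_)
        exact eq_inv_of_mul_eq_one_left (Subgroup.mem_bot.1 h)
      · simp
    · rw [tau_og_notMem _ hy]
      refine Finset.sum_eq_zero fun v _ => tau_og_notMem _ fun h => hy ?_
      rw [eq_inv_of_mul_eq_one_right (Subgroup.mem_bot.1 h)]
      exact V.inv_mem v.2
  exact DFunLike.congr_fun this r

theorem exists_Nm (r : ZG Γ) (hr : ∀ v ∈ V, og v * r = r) : ∃ s, r = Nm V * s := by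
  classical
  let ρ : Γ → Γ := fun y => ((y⁻¹ : Γ) : Γ ⧸ V).out⁻¹
  have h1 : ∀ y, y * (ρ y)⁻¹ ∈ V := fun y => by
    simpa [ρ] using (mk_inv_eq_iff V y _).mp rfl
  have h2 : ∀ (v : V) y, ρ ((v : Γ)⁻¹ * y) = ρ y := fun v y => by
    have : ((((v : Γ)⁻¹ * y)⁻¹ : Γ) : Γ ⧸ V) = ((y⁻¹ : Γ) : Γ ⧸ V) :=
      QuotientGroup.eq.mpr (by simp)
    simp only [ρ, this]
  let φ : ZG Γ →+ ZG Γ := ext fun y => if y = ρ y then og y else 0
  have h3 := hom_ext (f := ∑ v : V, (AddMonoidHom.mulLeft (og (v : Γ))).comp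
      (φ.comp (AddMonoidHom.mulLeft (og (v : Γ)⁻¹)))) (g := AddMonoidHom.id _) fun y => by
    simp only [AddMonoidHom.finsetSum_apply, AddMonoidHom.comp_apply, AddMonoidHom.coe_mulLeft,
      ← og_mul, φ, ext_og, h2, AddMonoidHom.id_apply]
    rw [Finset.sum_eq_single (⟨_, h1 y⟩ : V)]
    · rw [if_pos (by simp), ← og_mul, mul_inv_cancel_left]
    · intro v _ hv
      rw [if_neg, mul_zero]
      intro h
      exact hv (Subtype.ext (by change (v : Γ) = y * (ρ y)⁻¹; rw [← h]; simp))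
    · simp
  refine ⟨φ r, ?_⟩
  have h4 := DFunLike.congr_fun h3 r
  simp only [AddMonoidHom.finsetSum_apply, AddMonoidHom.comp_apply, AddMonoidHom.coe_mulLeft,
    AddMonoidHom.id_apply] at h4
  rw [Nm, Finset.sum_mul]
  refine h4.symm.trans (Finset.sum_congr rfl fun v _ => ?_)
  rw [hr _ (V.inv_mem v.2)]

variable {P : Type} [AddCommGroup P] [Module (ZG Γ) P]

theorem fix_Nm (F : Frame Γ P) (x : P) (hx : ∀ v ∈ V, og v • x = x) : ∃ w, x = Nm V • w := by
  choose s hs using fun i => exists_Nm (V := V) (F.j i x) fun v hv => by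
    rw [← smul_eq_mul, ← map_smul, hx v hv]
  refine ⟨∑ i, s i • F.e i, ?_⟩
  rw [Finset.smul_sum]
  refine (F.sum x).symm.trans (Finset.sum_congr rfl fun i _ => ?_)
  rw [smul_smul, ← hs]

theorem ker_Nm (F : Frame Γ P) (x : P) (hx : Nm V • x = 0) : x ∈ LI V P :=
  F.mem_LI V x fun a => by rw [← tau_Nm, ← smul_eq_mul, ← map_smul, hx, map_zero, map_zero]

end

theorem fix_closure {P : Type} [AddCommGroup P] [Module (ZG Γ) P] {g : Γ} {x : P}
    (h : Y g x = 0) : ∀ v ∈ Subgroup.closure {g}, og v • x = x := by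
  intro v hv
  induction hv using Subgroup.closure_induction with
  | mem s hs => rw [Set.mem_singleton_iff.1 hs]; exact sub_eq_zero.1 h
  | one => simp
  | mul a b _ _ ha hb => rw [og_mul, mul_smul, hb, ha]
  | inv a _ ha =>
    conv_lhs => rw [← ha]
    rw [smul_smul, ← og_mul, inv_mul_cancel, og_one, one_smul]

end KoszAux

open KoszAux

theorem LI_reg {P : Type} [AddCommGroup P] [Module (ZG Γ) P] (F : Frame Γ P) (W : Subgroup Γ)
    (z : Γ) (hz : ∀ w ∈ W, Commute z w) (hz' : ∀ k : ℕ, k ≠ 0 → z ^ k ∉ W) (x : P)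
    (hx : og z • x - x ∈ LI W P) : x ∈ LI W P := by
  refine F.mem_LI W x fun a => by_contra fun hne => ?_
  have h1 : ∀ k : ℕ, tau W (og (z ^ k) * a x) = tau W (a x) := fun k => by
    induction k with
    | zero => simp
    | succ k ih =>
      have h2 : la P (z ^ k) (og z • x - x) ∈ LI W P :=
        LI_map (V := W) (la P (z ^ k)) (fun v hv => ⟨v, hv, fun y => by
          simp only [la_apply, smul_smul, ← og_mul, ((hz v hv).pow_left k).eq]⟩) hx
      have h3 := tau_LI a h2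
      simp only [la_apply, smul_smul, ← og_mul, map_sub, map_smul, smul_eq_mul,
        ← pow_succ] at h3
      rw [sub_eq_zero.1 h3, ih]
  choose y hy hy' using fun k : ℕ => exists_left W (a x) (z ^ k) (by rw [h1]; exact hne)
  obtain ⟨k, k', hk, e⟩ := Set.Finite.exists_lt_map_eq_of_forall_mem
    (f := y) (t := ((a x).coeff.support : Set Γ)) hy (Finset.finite_toSet _)
  refine hz' (k' - k) (by omega) ?_
  have := W.mul_mem (hy' k') (W.inv_mem (hy' k))
  rwa [e, mul_inv_rev, mul_assoc, mul_inv_cancel_left, ← pow_sub _ hk.le] at this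

theorem kosz2 (R : Res3 Γ) (n y : Γ) (hc : Commute n y)
    (hind : ∀ a b : ℤ, n ^ a * y ^ b = 1 → a = 0 ∧ b = 0) (M : ℤ) (pn py : R.P1)
    (hn : R.d1 pn = og n • R.r0 - R.r0) (hy : R.d1 py = og y • R.r0 - R.r0) (q : R.P2)
    (hq : R.d2 q = (og n • py - py) - (og y • pn - pn)) (v : R.P3)
    (h : M • q - R.d3 v ∈ LI (Subgroup.closure {n, y}) R.P2) : M = 0 := by
  obtain ⟨s, t, e⟩ := LI_two h
  have e1 := congrArg R.d2 e
  have hq' : R.d2 q = Y n py - Y y pn := hq
  rw [map_sub, map_zsmul, R.d2_d3, sub_zero, hq', map_add, map_Y, map_Y] at e1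
  have e2 : Y n (M • py - R.d2 s) = Y y (M • pn + R.d2 t) := by
    rw [map_sub, map_add, map_zsmul, map_zsmul, sub_eq_iff_eq_add, add_assoc,
      add_comm (Y y (R.d2 t)), ← e1, smul_sub]
    abel
  have k1 : og n • (M • py - R.d2 s) - (M • py - R.d2 s) ∈ LI (Subgroup.closure {y}) R.P1 := by
    have := Y_mem (V := Subgroup.closure {y}) (Subgroup.subset_closure rfl) (M • pn + R.d2 t)
    rwa [← e2] at this
  obtain ⟨w, e3⟩ := LI_one (LI_reg R.F1 (Subgroup.closure {y}) n
    (comm_closure fun s hs => by rw [Set.mem_singleton_iff.1 hs]; exact hc)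
    (fun k hk hm => by
      obtain ⟨b, hb⟩ := Subgroup.mem_closure_singleton.1 hm
      have := (hind k (-b) (by rw [zpow_natCast, ← hb, zpow_neg, mul_inv_cancel])).1
      omega) (M • py - R.d2 s) k1)
  have e4 := congrArg R.d1 e3
  have hy' : R.d1 py = Y y R.r0 := hy
  rw [map_sub, map_zsmul, R.d1_d2, sub_zero, hy', map_Y] at e4
  have k2 : Y y (M • R.r0 - R.d1 w) ∈ LI (⊥ : Subgroup Γ) R.P0 := by
    rw [map_sub, map_zsmul, e4, sub_self]
    exact zero_mem _
  have e5 := LI_bot (LI_reg R.F0 ⊥ y (fun w hw => by rw [Subgroup.mem_bot.1 hw]; simp)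
    (fun k hk hm => by
      have := (hind 0 k (by simpa using Subgroup.mem_bot.1 hm)).2
      omega) (M • R.r0 - R.d1 w) k2)
  have e6 := congrArg R.eps e5
  simpa [R.eps_r0, R.eps_d1] using e6

theorem no_Z3 (R : Res3 Γ) (x y z : Γ) (hxy : Commute x y) (hxz : Commute x z)
    (hyz : Commute y z) (hind : ∀ a b c : ℤ, x ^ a * y ^ b * z ^ c = 1 → a = 0 ∧ b = 0 ∧ c = 0) :
    (Subgroup.closure {x, y, z}).FiniteIndex := by
  by_contra hV
  choose p hp using fun g : Γ => (R.ex0 (Y g R.r0)).mp (by simp [Y_apply, R.eps_smul])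
  have hq : ∀ g h : Γ, Commute g h → ∃ q, R.d2 q = Y g (p h) - Y h (p g) := fun g h hc =>
    (R.ex1 _).mp (by rw [map_sub, map_Y, map_Y, hp, hp, Y_comm hc, sub_self])
  obtain ⟨q1, h1⟩ := hq y z hyz
  obtain ⟨q2, h2⟩ := hq x z hxz
  obtain ⟨q3, h3⟩ := hq x y hxy
  obtain ⟨v, hv⟩ := (R.ex2 (Y x q1 - Y y q2 + Y z q3)).mp (by
    simp only [map_add, map_sub, map_Y, h1, h2, h3, Y_comm hxy, Y_comm hxz, Y_comm hyz]
    abel)
  have hx : x ∈ Subgroup.closure ({x, y, z} : Set Γ) := Subgroup.subset_closure (by simp)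
  have hy : y ∈ Subgroup.closure ({x, y, z} : Set Γ) := Subgroup.subset_closure (by simp)
  have hz : z ∈ Subgroup.closure ({x, y, z} : Set Γ) := Subgroup.subset_closure (by simp)
  obtain ⟨v1, v2, v3, e⟩ := LI_three (R.mem_LI3 _ hV v (by
    rw [hv]
    exact add_mem (sub_mem (Y_mem hx _) (Y_mem hy _)) (Y_mem hz _)))
  rw [e, map_add, map_add, map_Y, map_Y, map_Y] at hv
  have e2 : Y z (q3 - R.d3 v3) = Y x (R.d3 v1 - q1) + Y y (R.d3 v2 + q2) := by
    rw [map_sub, map_sub, map_add, eq_sub_of_add_eq' hv.symm]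
    abel
  have h4 := LI_reg R.F2 (Subgroup.closure {x, y}) z
    (comm_closure fun s hs => by
      rcases hs with rfl | rfl
      exacts [hxz.symm, hyz.symm])
    (fun k hk hm => by
      obtain ⟨a, b, hb⟩ := mem_pair hxy hm
      have := (hind a b (-k) (by rw [← hb, zpow_neg, zpow_natCast, mul_inv_cancel])).2.2
      omega) (q3 - R.d3 v3)
    (by
      rw [← Y_apply, e2]
      exact add_mem (Y_mem (Subgroup.subset_closure (by simp)) _)
        (Y_mem (Subgroup.subset_closure (by simp)) _))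
  exact one_ne_zero (kosz2 R x y hxy
    (fun a b h => by
      have := hind a b 0 (by simpa using h)
      exact ⟨this.1, this.2.1⟩) 1 (p x) (p y) (hp x) (hp y) q3 h3 v3 (by rwa [one_smul]))

theorem torsion_free (R : Res3 Γ) [Infinite Γ] (g : Γ) (n : ℕ) (hn : n ≠ 0) (h : g ^ n = 1) :
    g = 1 := by
  have hfin : Finite (Subgroup.closure ({g} : Set Γ)) := by
    rw [← Subgroup.zpowers_eq_closure]
    exact finite_zpowers.2 (isOfFinOrder_iff_pow_eq_one.2 ⟨n, Nat.pos_of_ne_zero hn, h⟩)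
  set V := Subgroup.closure ({g} : Set Γ) with hVdef
  have := Fintype.ofFinite V
  have hg : g ∈ V := Subgroup.subset_closure rfl
  have hV : ¬ V.FiniteIndex := fun hi => by
    have : Finite Γ := Finite.of_equiv _ (Subgroup.groupEquivQuotientProdSubgroup (s := V)).symm
    exact not_finite Γ
  obtain ⟨x1, h1⟩ := (R.ex0 (Y g R.r0)).mp (by simp [Y_apply, R.eps_smul])
  obtain ⟨x2, h2⟩ := (R.ex1 (Nm V • x1)).mp (by
    rw [map_smul, h1, Y_apply, smul_sub, smul_smul, Nm_og hg, sub_self])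
  obtain ⟨x3, h3⟩ := (R.ex2 (Y g x2)).mp (by
    rw [map_Y, h2, Y_apply, smul_smul, og_Nm hg, sub_self])
  obtain ⟨w3, e3⟩ := LI_one (R.mem_LI3 V hV x3 (by rw [h3]; exact Y_mem hg _))
  obtain ⟨w2, e2⟩ := fix_Nm (V := V) R.F2 (x2 - R.d3 w3) (fix_closure (by
    rw [map_sub, ← h3, e3, map_Y, sub_self]))
  have e2' := congrArg R.d2 e2
  rw [map_sub, R.d2_d3, sub_zero, h2, map_smul] at e2'
  obtain ⟨w1, e1⟩ := LI_one (ker_Nm (V := V) R.F1 (x1 - R.d2 w2) (by
    rw [smul_sub, e2', sub_self]))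
  have e1' := congrArg R.d1 e1
  rw [map_sub, R.d1_d2, sub_zero, h1, map_Y] at e1'
  obtain ⟨w0, e0⟩ := fix_Nm (V := V) R.F0 (R.r0 - R.d1 w1) (fix_closure (by
    rw [map_sub, e1', sub_self]))
  have e := congrArg R.eps e0
  rw [map_sub, R.eps_r0, R.eps_d1, sub_zero, Nm, Finset.sum_smul, map_sum] at e
  simp only [R.eps_smul, Finset.sum_const, Finset.card_univ, nsmul_eq_mul] at e
  have hc : Fintype.card V = 1 := by
    have : (Fintype.card V : ℤ) ∣ 1 := ⟨_, e⟩
    exact Nat.dvd_one.1 (by exact_mod_cast this)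
  have := Fintype.card_le_one_iff_subsingleton.1 hc.le
  exact congrArg Subtype.val (Subsingleton.elim (⟨g, hg⟩ : V) 1)

end Pool.Agent.P.MP_50f9b9_al.RP
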