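import Pool.Agent.P.MP_50f9b9_al.RP.Pres
import Pool.Agent.P.MP_50f9b9_al.RP.Kosz

/-! A subgroup of infinite index contains no product of the integers with a divisible group.

Hints. `fin_supp`: the homomorphism `shap ℤ B ℤ D` is divisible by arbitrarily large `M`, so it is
zero and `D = pr f` by `shap_eq_zero`. The function `f` takes finitely many values (induct over a
finite generating set: `f (s⁻¹ • x) = f x` unless `x` is in the support of `D s`). Take `M` larger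
than all differences of values: `f - m` is invariant modulo `M`, hence constant modulo `M`
(transitivity), so `f` is constant, equal to `c`, outside the support of `m`; use `f - c`.
`no_div`: let `B` be the closure, of infinite index. For `x : R.P2` let `br x` be the additive map
`b ↦ fun κ : Γ ⧸ B => tau B (b x * og κ.out)` from the dual module to `Perm (Γ ⧸ B) ℤ`; it is
equivariant for `ra`, has finitely supported values and vanishes for `x ∈ LI B`. Choose `pn`,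
`p k`, `q k` as in `kosz2` for the pair `n, y k`. With `N = ∑ i < v ^ k, og (y k ^ i)` choose `w`
with `d2 w = p 0 - N • p k`; then `q 0 - N • q k - (og n • w - w)` is a cycle, so
`q 0 - v ^ k • q k - d3 (u k) ∈ LI (closure {n, y k})`. `br (q 0)` is a cocycle of `dres R hR`
(`mem_dres_Z1`), and its derivation is principal modulo `v ^ k` (`PRes.toDer_cob0` for the cochain
given by `u k`). By `fin_supp` and `PRes.exists_ext` it extends to an equivariant `T` on the dual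
of `R.P3` with finitely supported values. Choose `r i : ZG Γ` representing `T (R.F3.j i)` and put
`u = ∑ i, r i • R.F3.e i`; then `q 0 - d3 u ∈ LI B` by `Frame.mem_LI`, hence in
`LI (closure {n, y k})` for some `k` (directed union), and `kosz2` gives `v ^ k = 0`. -/

namespace Pool.Agent.P.MP_50f9b9_al.RP

variable {Γ : Type} [Group Γ]

namespace DivAux

/-- The function on cosets attached to an element of the group ring. -/
noncomputable def ph (B : Subgroup Γ) : ZG Γ →+ Perm (Γ ⧸ B) ℤ :=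
  AddMonoidHom.mk' (fun r κ => tau B (r * og κ.out)) fun a b => funext fun κ => by
    change tau B ((a + b) * _) = tau B _ + tau B _
    rw [add_mul, map_add]

theorem ph_mk (B : Subgroup Γ) (r : ZG Γ) (g : Γ) : ph B r (g : Γ ⧸ B) = tau B (r * og g) := by
  obtain ⟨b, hb⟩ := QuotientGroup.mk_out_eq_mul B g
  change tau B (r * og (g : Γ ⧸ B).out) = _
  rw [hb, og_mul, ← mul_assoc, tau_right B b.2]

theorem ph_mul (B : Subgroup Γ) (r : ZG Γ) (g : Γ) : ph B (r * og g⁻¹) = g • ph B r := by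
  funext κ
  obtain ⟨h, rfl⟩ := QuotientGroup.mk_surjective κ
  change _ = ph B r ((g⁻¹ * h : Γ) : Γ ⧸ B)
  rw [ph_mk, ph_mk, og_mul, mul_assoc]

theorem fin_sub {X : Type} {a b : Perm X ℤ} (ha : (Function.support (a : X → ℤ)).Finite)
    (hb : (Function.support (b : X → ℤ)).Finite) :
    (Function.support ((a - b : Perm X ℤ) : X → ℤ)).Finite :=
  (ha.union hb).subset (Function.support_sub (f := a) (g := b))

theorem ph_fin (B : Subgroup Γ) (r : ZG Γ) : (Function.support (ph B r : Γ ⧸ B → ℤ)).Finite := by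
  induction r using zg_ind with
  | h0 =>
    rw [map_zero]
    exact Set.finite_empty.subset fun x hx => hx rfl
  | hsub a b ha hb => rw [map_sub]; exact fin_sub ha hb
  | hog g =>
    refine (Set.finite_singleton ((g⁻¹ : Γ) : Γ ⧸ B)).subset fun κ hκ => ?_
    by_contra hc
    refine hκ ?_
    change tau B (og g * og κ.out) = 0
    rw [← og_mul]
    exact tau_og_notMem _ fun h => hc ((mk_inv_eq_iff B g κ).mpr h).symm

theorem ph_surj (B : Subgroup Γ) (f : Perm (Γ ⧸ B) ℤ)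
    (hf : (Function.support (f : Γ ⧸ B → ℤ)).Finite) : ∃ r, ph B r = f := by
  classical
  refine ⟨∑ κ ∈ hf.toFinset, f κ • og κ.out⁻¹, funext fun c => ?_⟩
  change tau B (_ * og c.out) = _
  rw [Finset.sum_mul, map_sum]
  have e : ∀ κ : Γ ⧸ B, tau B (f κ • og κ.out⁻¹ * og c.out) = if κ = c then f κ else 0 := by
    intro κ
    rw [smul_mul_assoc, map_zsmul, ← og_mul]
    by_cases h : κ = c
    · rw [if_pos h, h, inv_mul_cancel, tau_og_mem _ B.one_mem, smul_eq_mul, mul_one]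
    · rw [if_neg h, tau_og_notMem, smul_zero]
      intro h'
      have := QuotientGroup.eq.mpr h'
      rw [QuotientGroup.out_eq', QuotientGroup.out_eq'] at this
      exact h this
  simp only [e]
  refine (Finset.sum_eq_single c (fun κ _ h => if_neg h) fun h => ?_).trans (if_pos rfl)
  refine (if_pos rfl).trans ?_
  by_contra h'
  exact h (hf.mem_toFinset.mpr h')

section
variable {P : Type} [AddCommGroup P] [Module (ZG Γ) P]

/-- The pairing of a chain with the dual module. -/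
noncomputable def br (B : Subgroup Γ) (x : P) : (P →ₗ[ZG Γ] ZG Γ) →+ Perm (Γ ⧸ B) ℤ :=
  AddMonoidHom.mk' (fun b => ph B (b x)) fun a b => by rw [LinearMap.add_apply, map_add]

theorem br_apply (B : Subgroup Γ) (x : P) (b : P →ₗ[ZG Γ] ZG Γ) : br B x b = ph B (b x) := rfl

theorem br_mem (B : Subgroup Γ) (x : P) : br B x ∈ Hm ℤ (ra (Γ := Γ) P) (Perm (Γ ⧸ B) ℤ) :=
  fun g b => ph_mul B (b x) g

theorem ph_LI {B : Subgroup Γ} {x : P} (hx : x ∈ LI B P) (b : P →ₗ[ZG Γ] ZG Γ) :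
    ph B (b x) = 0 := by
  funext κ
  exact tau_LI (rm b (og κ.out)) hx

theorem LI_mono {V W : Subgroup Γ} (h : V ≤ W) : LI V P ≤ LI W P :=
  AddSubgroup.closure_mono fun _ ⟨v, hv, x, e⟩ => ⟨v, h hv, x, e⟩

theorem LI_gen {V : Subgroup Γ} {v : Γ} (hv : v ∈ V) (x : P) : og v • x - x ∈ LI V P :=
  AddSubgroup.subset_closure ⟨v, hv, x, rfl⟩

theorem LI_dir {B : Subgroup Γ} (W : ℕ → Subgroup Γ) (hW : Monotone W)
    (hB : ∀ b ∈ B, ∃ k, b ∈ W k) {x : P} (hx : x ∈ LI B P) : ∃ k, x ∈ LI (W k) P := by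
  induction hx using AddSubgroup.closure_induction with
  | mem x hx =>
    obtain ⟨v, hv, z, rfl⟩ := hx
    obtain ⟨k, hk⟩ := hB v hv
    exact ⟨k, LI_gen hk z⟩
  | zero => exact ⟨0, zero_mem _⟩
  | add a b _ _ ha hb =>
    obtain ⟨k, hk⟩ := ha
    obtain ⟨l, hl⟩ := hb
    exact ⟨max k l, add_mem (LI_mono (hW (le_max_left _ _)) hk)
      (LI_mono (hW (le_max_right _ _)) hl)⟩
  | neg a _ ha =>
    obtain ⟨k, hk⟩ := ha
    exact ⟨k, neg_mem hk⟩

end

theorem og_pow (g : Γ) (i : ℕ) : og (g ^ i) = og g ^ i := by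
  induction i with
  | zero => simp
  | succ i ih => rw [pow_succ, og_mul, ih, pow_succ]

theorem og_comm {g h : Γ} (hc : Commute g h) : Commute (og g) (og h) := by
  change og g * og h = og h * og g
  rw [← og_mul, ← og_mul, hc.eq]

theorem step (R : Res3 Γ) {n y z : Γ} {M : ℕ} (hc : Commute n y) (hz : y ^ M = z) {pn py pz : R.P1}
    (hy : R.d1 py = og y • R.r0 - R.r0) (hz' : R.d1 pz = og z • R.r0 - R.r0) {qy qz : R.P2}
    (hqy : R.d2 qy = (og n • py - py) - (og y • pn - pn))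
    (hqz : R.d2 qz = (og n • pz - pz) - (og z • pn - pn)) :
    ∃ u, qz - (M : ℤ) • qy - R.d3 u ∈ LI (Subgroup.closure {n, y}) R.P2 := by
  set N : ZG Γ := ∑ i ∈ Finset.range M, og y ^ i with hN
  have h1 : N * og y = og z - 1 + N := by
    have := geom_sum_mul (og y) M
    rw [← hN, ← og_pow, hz, mul_sub, mul_one] at this
    rw [← this, sub_add_cancel]
  have h2 : N * og n = og n * N :=
    (Commute.sum_left _ _ _ fun i _ => (og_comm hc).symm.pow_left i).eq
  obtain ⟨w, hw⟩ := (R.ex1 (pz - N • py)).mp (by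
    rw [map_sub, map_smul, hy, hz', smul_sub, smul_smul, h1, add_smul, sub_smul, one_smul]
    abel)
  obtain ⟨u, hu⟩ := (R.ex2 (qz - N • qy - (og n • w - w))).mp (by
    simp only [map_sub, map_smul, hqy, hqz, hw, smul_sub, smul_smul, h1, h2, add_smul, sub_smul,
      one_smul]
    abel)
  refine ⟨u, ?_⟩
  have e : qz - (M : ℤ) • qy - R.d3 u =
      ∑ i ∈ Finset.range M, (og (y ^ i) • qy - qy) + (og n • w - w) := by
    rw [hu, Finset.sum_sub_distrib, ← Finset.sum_smul, Finset.sum_const, Finset.card_range,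
      natCast_zsmul]
    simp only [og_pow]
    rw [← hN]
    abel
  rw [e]
  exact add_mem (sum_mem fun i _ => LI_gen (pow_mem (Subgroup.subset_closure (by simp)) i) _)
    (LI_gen (Subgroup.subset_closure (by simp)) _)

end DivAux

open DivAux

theorem fin_supp [Group.FG Γ] (B : Subgroup Γ) (D : Der ℤ Γ (Perm (Γ ⧸ B) ℤ))
    (hD : ∀ g, (Function.support (D.1 g : Γ ⧸ B → ℤ)).Finite)
    (h : ∀ M₀ : ℕ, ∃ M : ℕ, M₀ < M ∧ ∃ m : Perm (Γ ⧸ B) ℤ,
      (Function.support (m : Γ ⧸ B → ℤ)).Finite ∧ ∀ g x, (M : ℤ) ∣ D.1 g x - (g • m - m) x) :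
    ∃ m : Perm (Γ ⧸ B) ℤ, (Function.support (m : Γ ⧸ B → ℤ)).Finite ∧ pr ℤ Γ _ m = D := by
  have e1 : ∀ x : B, (x : Γ)⁻¹ • ((1 : Γ) : Γ ⧸ B) = ((1 : Γ) : Γ ⧸ B) := fun x =>
    QuotientGroup.eq.mpr (by simp)
  obtain ⟨f, hf⟩ := (shap_eq_zero ℤ B ℤ D).mp (Subtype.ext (funext fun x => by
    obtain ⟨M, hM, m, -, hm⟩ := h (D.1 x ((1 : Γ) : Γ ⧸ B)).natAbs
    have h1 := hm x ((1 : Γ) : Γ ⧸ B)
    have h2 : (((x : Γ) • m - m : Perm (Γ ⧸ B) ℤ) : Γ ⧸ B → ℤ) ((1 : Γ) : Γ ⧸ B) = 0 := by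
      change m ((x : Γ)⁻¹ • _) - m _ = 0
      rw [e1, sub_self]
    rw [h2, sub_zero] at h1
    exact Int.eq_zero_of_dvd_of_natAbs_lt_natAbs h1 (by rw [Int.natAbs_natCast]; exact hM)))
  have hf' : ∀ (g : Γ) (x : Γ ⧸ B), D.1 g x = f (g⁻¹ • x) - f x := fun g x => by
    rw [← hf]; rfl
  obtain ⟨S, hS⟩ := (inferInstance : Group.FG Γ).out
  let E : Set (Γ ⧸ B) := ⋃ s ∈ (S : Set Γ),
    (Function.support (D.1 s : Γ ⧸ B → ℤ) ∪ Function.support (D.1 s⁻¹ : Γ ⧸ B → ℤ))
  have hE : E.Finite := S.finite_toSet.biUnion fun s _ => (hD s).union (hD s⁻¹)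
  have hV : (insert (f ((1 : Γ) : Γ ⧸ B)) ((f : Γ ⧸ B → ℤ) '' E)).Finite := (hE.image _).insert _
  have hstep : ∀ (s g : Γ), D.1 s ((s * g : Γ) : Γ ⧸ B) = 0 →
      f ((s * g : Γ) : Γ ⧸ B) = f (g : Γ ⧸ B) := fun s g h0 => by
    rw [hf', sub_eq_zero] at h0
    rw [← h0]
    change f ((s⁻¹ * (s * g) : Γ) : Γ ⧸ B) = _
    rw [inv_mul_cancel_left]
  have hval : ∀ g : Γ, f (g : Γ ⧸ B) ∈ insert (f ((1 : Γ) : Γ ⧸ B)) ((f : Γ ⧸ B → ℤ) '' E) := by
    intro g
    have hg : g ∈ Subgroup.closure (S : Set Γ) := hS ▸ Subgroup.mem_top g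
    induction hg using Subgroup.closure_induction_left with
    | one => exact Set.mem_insert _ _
    | mul_left s hs g _ ih =>
      by_cases h0 : D.1 s ((s * g : Γ) : Γ ⧸ B) = 0
      · rw [hstep s g h0]; exact ih
      · exact Or.inr ⟨_, Set.mem_biUnion hs (Or.inl h0), rfl⟩
    | inv_mul_cancel s hs g _ ih =>
      by_cases h0 : D.1 s⁻¹ ((s⁻¹ * g : Γ) : Γ ⧸ B) = 0
      · rw [hstep s⁻¹ g h0]; exact ih
      · exact Or.inr ⟨_, Set.mem_biUnion hs (Or.inr h0), rfl⟩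
  obtain ⟨a, ha⟩ := hV.bddAbove
  obtain ⟨b, hb⟩ := hV.bddBelow
  obtain ⟨M, hM, m, hm, hm'⟩ := h (a - b).natAbs
  have hc : ∃ c : ℤ, ∀ x, m x = 0 → f x = c := by
    by_cases h0 : ∃ x, m x = 0
    · obtain ⟨x0, h0⟩ := h0
      refine ⟨f x0, fun x hx => ?_⟩
      obtain ⟨g, rfl⟩ := QuotientGroup.mk_surjective x
      obtain ⟨g0, rfl⟩ := QuotientGroup.mk_surjective x0
      have h1 := hm' (g0 * g⁻¹) (g0 : Γ ⧸ B)
      have e : (g0 * g⁻¹)⁻¹ • (g0 : Γ ⧸ B) = (g : Γ ⧸ B) := by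
        change (((g0 * g⁻¹)⁻¹ * g0 : Γ) : Γ ⧸ B) = _
        simp
      have h2 : (((g0 * g⁻¹) • m - m : Perm (Γ ⧸ B) ℤ) : Γ ⧸ B → ℤ) (g0 : Γ ⧸ B) = 0 := by
        change m ((g0 * g⁻¹)⁻¹ • _) - m _ = 0
        rw [e, hx, h0, sub_self]
      rw [h2, sub_zero, hf', e] at h1
      have h3 := ha (hval g)
      have h4 := hb (hval g)
      have h5 := ha (hval g0)
      have h6 := hb (hval g0)
      exact sub_eq_zero.mp (Int.eq_zero_of_dvd_of_natAbs_lt_natAbs h1 (by
        rw [Int.natAbs_natCast]; omega))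
    · exact ⟨0, fun x hx => absurd ⟨x, hx⟩ h0⟩
  obtain ⟨c, hc⟩ := hc
  refine ⟨fun x => f x - c, hm.subset fun x hx h0 => hx (sub_eq_zero.mpr (hc x h0)),
    Subtype.ext (funext fun g => funext fun x => ?_)⟩
  rw [hf']
  change f (g⁻¹ • x) - c - (f x - c) = _
  ring

theorem no_div (R : Res3 Γ) (hR : R.Gp = ⊤) (n : Γ) (y : ℕ → Γ) (v : ℕ) (hv : 2 ≤ v)
    (hy : ∀ k, y (k + 1) ^ v = y k) (hc : ∀ k, Commute n (y k))
    (hind : ∀ a b : ℤ, n ^ a * y 0 ^ b = 1 → a = 0 ∧ b = 0) :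
    (Subgroup.closure (insert n (Set.range y))).FiniteIndex := by
  exfalso
  have := R.fg
  set B := Subgroup.closure (insert n (Set.range y)) with hBdef
  let W : ℕ → Subgroup Γ := fun k => Subgroup.closure {n, y k}
  have hnW : ∀ k, n ∈ W k := fun k => Subgroup.subset_closure (by simp)
  have hyW : ∀ k, y k ∈ W k := fun k => Subgroup.subset_closure (by simp)
  have hW : Monotone W := monotone_nat_of_le_succ fun k => (Subgroup.closure_le _).mpr (by
    rintro _ (rfl | rfl)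
    · exact hnW _
    · rw [← hy k]; exact pow_mem (hyW _) v)
  have hWB : ∀ k, W k ≤ B := fun k => Subgroup.closure_mono (by
    rintro _ (rfl | rfl)
    · exact Set.mem_insert _ _
    · exact Or.inr ⟨k, rfl⟩)
  have hBW : ∀ b ∈ B, ∃ k, b ∈ W k := fun b hb =>
    (Subgroup.mem_iSup_of_directed hW.directed_le).mp ((Subgroup.closure_le (⨆ k, W k)).mpr (by
      rintro _ (rfl | ⟨k, rfl⟩)
      · exact le_iSup W 0 (hnW 0)
      · exact le_iSup W k (hyW k)) hb)
  have hy0 : ∀ k, y k ^ v ^ k = y 0 := fun k => by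
    induction k with
    | zero => simp
    | succ k ih => rw [pow_succ', pow_mul, hy, ih]
  have hp : ∀ g : Γ, ∃ p, R.d1 p = og g • R.r0 - R.r0 := fun g =>
    (R.ex0 _).mp (by rw [map_sub, R.eps_smul, sub_self])
  choose p hp using hp
  have hq : ∀ k, ∃ q, R.d2 q = (og n • p (y k) - p (y k)) - (og (y k) • p n - p n) := fun k =>
    (R.ex1 _).mp (by
      simp only [map_sub, map_smul, hp, smul_sub, smul_smul, (og_comm (hc k)).eq]
      abel)
  choose q hq using hq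
  choose u hu using fun k => step R (hc k) (hy0 k) (hp (y k)) (hp (y 0)) (hq k) (hq 0)
  let S := dres R hR
  let c : S.Z1 ℤ (Perm (Γ ⧸ B) ℤ) := ⟨br B (q 0), (mem_dres_Z1 R hR _).mpr ⟨br_mem B _, fun b => by
    refine ph_LI (x := R.d2 (q 0)) ?_ b
    rw [hq]
    exact sub_mem (LI_gen (hWB 0 (hnW 0)) _) (LI_gen (hWB 0 (hyW 0)) _)⟩⟩
  obtain ⟨m, hm, hm'⟩ := fin_supp B (S.toDer ℤ _ c) (fun g => ph_fin B _) fun M₀ =>
    ⟨v ^ M₀, Nat.lt_pow_self (by omega), br B (u M₀) S.r0, ph_fin B _, fun g x => by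
      have h1 : br B (u M₀) (S.d (S.s g)) = g • br B (u M₀) S.r0 - br B (u M₀) S.r0 := by
        rw [S.d_s, map_sub]
        exact congrArg (· - _) (br_mem B (u M₀) g S.r0)
      have h2 := ph_LI (LI_mono (hWB M₀) (hu M₀)) (S.s g)
      simp only [map_sub, map_zsmul] at h2
      have h3 : ph B (S.s g (q 0)) x - ((v ^ M₀ : ℕ) : ℤ) * ph B (S.s g (q M₀)) x -
          ph B (S.s g (R.d3 (u M₀))) x = 0 := congrFun h2 x
      rw [← h1]
      refine ⟨ph B (S.s g (q M₀)) x, ?_⟩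
      change ph B (S.s g (q 0)) x - ph B (S.s g (R.d3 (u M₀))) x = _
      linarith⟩
  obtain ⟨T, hT, hT0⟩ := S.exists_ext ℤ _ c m hm'.symm
  have hT1 : ∀ b : R.P2 →ₗ[ZG Γ] ZG Γ, T.1 (b ∘ₗ R.d3) = ph B (b (q 0)) := fun b =>
    DFunLike.congr_fun (congrArg Subtype.val hT) b
  have hfin : ∀ a, ∃ r, ph B r = T.1 a := fun a => by
    obtain ⟨b, hb⟩ := S.exists_s a
    obtain ⟨r, hr⟩ := ph_surj B m hm
    refine ⟨b (q 0) + S.eps a • r, ?_⟩
    have h1 : T.1 (S.d b) = ph B (b (q 0)) := hT1 b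
    rw [map_add, map_zsmul, hr, ← h1, hb, map_sub, map_zsmul, hT0, sub_add_cancel]
  choose r hr using fun i => hfin (R.F3.j i)
  have hrm : ∀ i (s : ZG Γ), T.1 (rm (R.F3.j i) s) = ph B (r i * s) := fun i s => by
    induction s using zg_ind with
    | h0 =>
      rw [mul_zero, map_zero]
      exact (congrArg T.1 (map_zero (rmHom (R.F3.j i)))).trans (map_zero _)
    | hsub a b ha hb =>
      rw [mul_sub, map_sub, ← ha, ← hb, ← map_sub]
      exact congrArg T.1 (map_sub (rmHom (R.F3.j i)) a b)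
    | hog g =>
      have h1 := T.2 g⁻¹ (R.F3.j i)
      have h2 := ph_mul B (r i) g⁻¹
      rw [inv_inv] at h2
      rw [h2, hr, ← h1]
      change _ = T.1 (rm (R.F3.j i) (og g⁻¹⁻¹))
      rw [inv_inv]
  have hLI : q 0 - R.d3 (∑ i, r i • R.F3.e i) ∈ LI B R.P2 := R.F2.mem_LI B _ fun a => by
    have h1 : ph B (a (q 0)) = ph B (a (R.d3 (∑ i, r i • R.F3.e i))) := by
      rw [← hT1, ← R.F3.dual_sum (a ∘ₗ R.d3), map_sum, map_sum, map_sum, map_sum]
      refine Finset.sum_congr rfl fun i _ => ?_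
      rw [hrm, map_smul, map_smul, smul_eq_mul]
      rfl
    have h2 := congrFun h1 ((1 : Γ) : Γ ⧸ B)
    rw [ph_mk, ph_mk, og_one, mul_one, mul_one] at h2
    rw [map_sub, map_sub, h2, sub_self]
  obtain ⟨k, hk⟩ := LI_dir W hW hBW hLI
  have hM : ((v ^ k : ℕ) : ℤ) ≠ 0 := by exact_mod_cast pow_ne_zero k (by omega)
  refine hM (kosz2 R n (y k) (hc k) (fun a b hab => ?_) _ _ _ (hp n) (hp (y k)) _ (hq k)
    (∑ i, r i • R.F3.e i - u k) ?_)
  · have h1 : n ^ (a * ((v ^ k : ℕ) : ℤ)) * y 0 ^ b = 1 := by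
      have h2 : (n ^ a * y k ^ b) ^ v ^ k = 1 := by rw [hab, one_pow]
      rw [((hc k).zpow_zpow a b).mul_pow] at h2
      rw [zpow_mul, zpow_natCast, ← hy0 k, ← zpow_natCast (y k), ← zpow_mul, mul_comm _ b,
        zpow_mul, zpow_natCast]
      exact h2
    obtain ⟨h2, h3⟩ := hind _ _ h1
    exact ⟨(mul_eq_zero.mp h2).resolve_right hM, h3⟩
  · have := sub_mem hk (hu k)
    convert this using 1
    rw [map_sub]
    abel

end Pool.Agent.P.MP_50f9b9_al.RP
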