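import Pool.Agent.P.MP_50f9b9_al.RP.PGen

/-! Duality for finite elementary abelian groups and induction over unipotent modules. -/

namespace Pool.Agent.P.MP_50f9b9_al.RP

variable {p : ℕ} [hp : Fact p.Prime]

theorem card_Dl_aux (Q : Type) [AddCommGroup Q] [Finite Q] [Module (ZMod p) Q] :
    Nat.card (Dl p Q) = Nat.card Q := by
  have : Finite (Module.Dual (ZMod p) Q) :=
    Finite.of_injective (fun f : Module.Dual (ZMod p) Q => (f : Q → ZMod p)) DFunLike.coe_injective
  rw [Nat.card_congr (show Dl p Q ≃ Module.Dual (ZMod p) Q from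
    (AddMonoidHom.toZModLinearMapEquiv p).toEquiv),
    Module.natCard_eq_pow_finrank (K := ZMod p) (V := Module.Dual (ZMod p) Q),
    Subspace.dual_finrank_eq, ← Module.natCard_eq_pow_finrank (K := ZMod p)]

theorem card_Dl (Q : Type) [AddCommGroup Q] [Finite Q] (h : ∀ q : Q, p • q = 0) :
    Nat.card (Dl p Q) = Nat.card Q :=
  @card_Dl_aux p _ Q _ _ (AddCommGroup.zmodModule h)

theorem exists_Dl_ne_aux {Q : Type} [AddCommGroup Q] [Module (ZMod p) Q] {q : Q} (hq : q ≠ 0) :
    ∃ l : Dl p Q, l q ≠ 0 := by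
  obtain ⟨l, hl⟩ := Module.Projective.exists_dual_ne_zero (ZMod p) hq
  exact ⟨l.toAddMonoidHom, hl⟩

theorem exists_Dl_ne {Q : Type} [AddCommGroup Q] (h : ∀ q : Q, p • q = 0) {q : Q} (hq : q ≠ 0) :
    ∃ l : Dl p Q, l q ≠ 0 :=
  @exists_Dl_ne_aux p _ Q _ (AddCommGroup.zmodModule h) q hq

theorem exists_equiv_aux (T : Type) [AddCommGroup T] [Finite T] [Module (ZMod p) T] (e : ℕ)
    (he : Nat.card T = p ^ e) : Nonempty (T ≃+ (Fin e → ZMod p)) := by
  have h1 : Module.finrank (ZMod p) T = e := by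
    rw [Module.natCard_eq_pow_finrank (K := ZMod p), Nat.card_zmod] at he
    exact Nat.pow_right_injective hp.out.two_le he
  exact ⟨(LinearEquiv.ofFinrankEq (R := ZMod p) T (Fin e → ZMod p) (by simp [h1])).toAddEquiv⟩

omit hp in
theorem Dl.nsmul_eq_zero (Q : Type) [AddCommGroup Q] (f : Dl p Q) : p • f = 0 :=
  Dl.ext fun x => by
    change p • f x = 0
    simp

theorem exists_Dl_ext {A B : Type} [AddCommGroup A] [AddCommGroup B] (hB : ∀ q : B, p • q = 0)
    (i : A →+ B) (hi : Function.Injective i) (f : Dl p A) : ∃ f' : Dl p B, ∀ a, f' (i a) = f a := by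
  have hA : ∀ q : A, p • q = 0 := fun q => hi (by rw [map_nsmul, hB, map_zero])
  let := AddCommGroup.zmodModule hA
  let := AddCommGroup.zmodModule hB
  obtain ⟨s, hs⟩ := (i.toZModLinearMap p).exists_leftInverse_of_injective
    (LinearMap.ker_eq_bot.mpr hi)
  exact ⟨AddMonoidHom.comp f s.toAddMonoidHom, fun a => congrArg f (LinearMap.congr_fun hs a)⟩

/-- The functionals that vanish on the range of a map. -/
def Ann (p : ℕ) {U W : Type} [AddCommGroup U] [AddCommGroup W] (f : U →+ W) :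
    AddSubgroup (Dl p W) where
  carrier := {l | ∀ u, l (f u) = 0}
  add_mem' := fun ha hb u => by rw [Dl.add_apply, ha u, hb u, add_zero]
  zero_mem' := fun _ => rfl
  neg_mem' := fun {l} ha u => by
    change -l (f u) = 0
    rw [ha u, neg_zero]

theorem card_Ann {U W : Type} [AddCommGroup U] [AddCommGroup W] [Finite W]
    (hW : ∀ q : W, p • q = 0) (f : U →+ W) :
    Nat.card (Ann p f) * Nat.card f.range = Nat.card W := by
  have h1 := card_exact (C := Dl p f.range) (Ann p f).subtype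
    (AddMonoidHom.mk' (fun l => AddMonoidHom.comp l f.range.subtype) fun _ _ => rfl)
    Subtype.val_injective
    (fun l => let ⟨l', hl⟩ := exists_Dl_ext hW f.range.subtype Subtype.val_injective l
      ⟨l', Dl.ext hl⟩)
    fun l => ⟨fun h => ⟨⟨l, fun u => DFunLike.congr_fun h ⟨_, u, rfl⟩⟩, rfl⟩,
      fun ⟨l', h⟩ => Dl.ext fun ⟨_, u, hu⟩ => by subst hu; subst h; exact l'.2 u⟩
  rw [← card_Dl W hW, h1, card_Dl _ fun q : f.range => Subtype.ext (hW q.1)]

theorem mem_range_of_Ann {U W : Type} [AddCommGroup U] [AddCommGroup W]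
    (hW : ∀ q : W, p • q = 0) (f : U →+ W) (w : W) (h : ∀ l ∈ Ann p f, l w = 0) :
    w ∈ f.range := by
  by_contra hw
  have hq : ∀ q : W ⧸ f.range, p • q = 0 := fun q => by
    obtain ⟨q, rfl⟩ := QuotientAddGroup.mk_surjective q
    rw [← QuotientAddGroup.mk_nsmul, hW, QuotientAddGroup.mk_zero]
  have h0 : (w : W ⧸ f.range) ≠ 0 := fun e => hw ((QuotientAddGroup.eq_zero_iff _).mp e)
  obtain ⟨l, hl⟩ := exists_Dl_ne hq h0
  exact hl (h (AddMonoidHom.comp l (QuotientAddGroup.mk' _)) fun u => by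
    change l ((f u : W) : W ⧸ f.range) = 0
    rw [(QuotientAddGroup.eq_zero_iff _).mpr (show f u ∈ f.range from ⟨u, rfl⟩), map_zero])

variable {Γ : Type} [Group Γ]

theorem card_der_triv (T : Type) [AddCommGroup T] [DistribMulAction Γ T] [Finite T]
    (hT : ∀ q : T, p • q = 0) (ht : ∀ (g : Γ) (q : T), g • q = q) (e : ℕ)
    (he : Nat.card T = p ^ e) : Nat.card (Der ℤ Γ T) = Nat.card (Hom ℤ Γ (ZMod p)) ^ e := by
  obtain ⟨b⟩ := @exists_equiv_aux p _ T _ _ (AddCommGroup.zmodModule hT) e he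
  have h2 : Nat.card (Der ℤ Γ T) = Nat.card (Fin e → Hom ℤ Γ (ZMod p)) := Nat.card_congr
    { toFun := fun D i => ⟨fun g => b (D.1 g) i, fun g h => by
        beta_reduce
        rw [D.2, ht, map_add]; rfl⟩
      invFun := fun f => ⟨fun g => b.symm fun i => (f i).1 g, fun g h => by
        beta_reduce
        rw [ht, ← map_add]
        exact congrArg b.symm (funext fun i => (f i).2 g h)⟩
      left_inv := fun D => Subtype.ext (funext fun g => b.symm_apply_apply _)
      right_inv := fun f => funext fun i => Subtype.ext (funext fun g => by simp) }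
  rw [h2, Nat.card_fun, Nat.card_eq_fintype_card (α := Fin e), Fintype.card_fin]

/-- The action on the quotient by an invariant subgroup. -/
@[reducible] def quoAct {Q : Type} [AddCommGroup Q] [DistribMulAction Γ Q] (S : AddSubgroup Q)
    (hS : ∀ g : Γ, ∀ x ∈ S, g • x ∈ S) : DistribMulAction Γ (Q ⧸ S) where
  smul g := QuotientAddGroup.map S S (DistribSMul.toAddMonoidHom Q g) (hS g)
  one_smul x := by
    obtain ⟨x, rfl⟩ := QuotientAddGroup.mk_surjective x
    exact congrArg _ (one_smul Γ x)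
  mul_smul g h x := by
    obtain ⟨x, rfl⟩ := QuotientAddGroup.mk_surjective x
    exact congrArg _ (mul_smul g h x)
  smul_zero g := map_zero (QuotientAddGroup.map S S (DistribSMul.toAddMonoidHom Q g) (hS g))
  smul_add g := map_add (QuotientAddGroup.map S S (DistribSMul.toAddMonoidHom Q g) (hS g))

theorem exists_fix {N : Subgroup Γ} (hN : POpen p N) (Q : Type) [AddCommGroup Q]
    [DistribMulAction Γ Q] [Finite Q] (e : ℕ) (he : Nat.card Q = p ^ (e + 1))
    (ht : ∀ n ∈ N, ∀ q : Q, n • q = q) :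
    ∃ i : Tr (ZMod p) →+ Q, Function.Injective i ∧ ∀ (g : Γ) a, g • i a = i a := by
  obtain ⟨-, s, hs⟩ := hN
  have hG : IsPGroup p (MulAction.toPermHom Γ Q).range := by
    rintro ⟨_, g, rfl⟩
    exact ⟨s, Subtype.ext (Equiv.ext fun q => by
      rw [Subgroup.coe_pow, ← map_pow]; exact ht _ (hs g) q)⟩
  obtain ⟨v, hv, hv0⟩ := hG.exists_fixed_point_of_prime_dvd_card_of_fixed_point Q
    (he ▸ dvd_pow_self p e.succ_ne_zero) (a := 0) (by
      rintro ⟨_, g, rfl⟩; exact smul_zero g)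
  replace hv : ∀ g : Γ, g • v = v := fun g => hv ⟨_, g, rfl⟩
  obtain ⟨k, -, hk⟩ := (Nat.dvd_prime_pow hp.out).mp (he ▸ addOrderOf_dvd_natCard v)
  obtain _ | k := k
  · exact absurd (AddMonoid.addOrderOf_eq_one_iff.mp hk).symm hv0
  have h1 : addOrderOf (p ^ k • v) = p := by
    rw [addOrderOf_nsmul' v (pow_ne_zero k hp.out.ne_zero), hk, pow_succ, Nat.gcd_mul_right_left,
      Nat.mul_div_cancel_left _ (pow_pos hp.out.pos k)]
  let i : ZMod p →+ Q := ZMod.lift p ⟨zmultiplesHom Q (p ^ k • v), by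
    change (p : ℤ) • p ^ k • v = 0
    rw [natCast_zsmul, ← addOrderOf_dvd_iff_nsmul_eq_zero, h1]⟩
  have hi : ∀ z : ℤ, i (z : ZMod p) = z • p ^ k • v := fun z => ZMod.lift_coe p _ z
  refine ⟨i, (injective_iff_map_eq_zero i).mpr fun a ha => ?_, fun g a => ?_⟩
  · obtain ⟨z, rfl⟩ := ZMod.intCast_surjective a
    rw [hi, ← addOrderOf_dvd_iff_zsmul_eq_zero, h1] at ha
    exact (ZMod.intCast_zmod_eq_zero_iff_dvd z p).mpr ha
  · obtain ⟨z, rfl⟩ := ZMod.intCast_surjective (n := p) a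
    change g • i z = i z
    rw [hi, smul_comm g z, smul_comm g (p ^ k), hv]

theorem mult_pow {N : Subgroup Γ} (hN : POpen p N)
    (μ : ∀ (Q : Type) [AddCommGroup Q] [DistribMulAction Γ Q], ℕ)
    (h0 : ∀ (Q : Type) [AddCommGroup Q] [DistribMulAction Γ Q] [Subsingleton Q], μ Q = 1)
    (hμ : ∀ (B C : Type) [AddCommGroup B] [DistribMulAction Γ B] [AddCommGroup C]
      [DistribMulAction Γ C] [Finite B] (i : Tr (ZMod p) →+ B) (π : B →+ C),
      (∀ (g : Γ) a, i (g • a) = g • i a) → (∀ (g : Γ) b, π (g • b) = g • π b) →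
      Function.Injective i → Function.Surjective π → (∀ b, π b = 0 ↔ ∃ a, i a = b) →
      (∀ n ∈ N, ∀ q : B, n • q = q) → μ B = μ (Tr (ZMod p)) * μ C) (e : ℕ) :
    ∀ (Q : Type) [AddCommGroup Q] [DistribMulAction Γ Q] [Finite Q], Nat.card Q = p ^ e →
      (∀ n ∈ N, ∀ q : Q, n • q = q) → μ Q = μ (Tr (ZMod p)) ^ e := by
  induction e with
  | zero =>
    intro Q _ _ _ he _
    have : Subsingleton Q := Finite.card_le_one_iff_subsingleton.mp he.le
    exact h0 Q
  | succ e ih =>
    intro Q _ _ _ he ht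
    obtain ⟨i, hi, hi'⟩ := exists_fix hN Q e he ht
    let := quoAct (Γ := Γ) i.range (by rintro g _ ⟨a, rfl⟩; exact ⟨a, (hi' g a).symm⟩)
    have hex : ∀ b, QuotientAddGroup.mk' i.range b = 0 ↔ ∃ a, i a = b := fun b =>
      QuotientAddGroup.eq_zero_iff b
    have h1 := card_exact i _ hi (QuotientAddGroup.mk'_surjective _) hex
    rw [he, show Nat.card (Tr (ZMod p)) = p from Nat.card_zmod p, pow_succ'] at h1
    rw [hμ Q (Q ⧸ i.range) i _ (fun g a => (hi' g a).symm) (fun _ _ => rfl) hi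
      (QuotientAddGroup.mk'_surjective _) hex ht,
      ih (Q ⧸ i.range) (Nat.eq_of_mul_eq_mul_left hp.out.pos h1).symm fun n hn q => by
        obtain ⟨q, rfl⟩ := QuotientAddGroup.mk_surjective q
        exact congrArg _ (ht n hn q), pow_succ']

end Pool.Agent.P.MP_50f9b9_al.RP
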