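import Pool.Agent.P.MP_50f9b9_al.RP.PGen

/-! The intersection of the subgroups `Cn p φ j` when the quotients by `V p Γ j` are cyclic.

Hints. `Cyc` says that `Cn p φ j ⧸ V p Γ j` is cyclic; it is a finite `p`-group, and in a cyclic
`p`-group of any two elements one is a power of the other. `exists_sigma`: choose `j0` with
`a ∉ V p Γ j0` (`eq_one_of_mem_V`) and `σ = (V p Γ j0).index`; for `j ≥ j0` the element `c ^ σ`
lies in `V p Γ j0 ⊓ Cn p φ j`, and `a` is not a power of it modulo `V p Γ j ≤ V p Γ j0`.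
`commute_of_commute`: `(h a' h⁻¹ a'⁻¹) ^ σ = h a' ^ σ h⁻¹ (a' ^ σ)⁻¹ ∈ V p Γ j` for `j ≥ j0`.
`commutator_commute`: conjugations act on the cyclic quotient as power maps, which commute.
`exists_hom_int`: with `m` from `exists_idem` put `b x = x * ((φ ^ m) x)⁻¹`; then
`b (x * y) = (x * b y * x⁻¹) * b x`, so `x ↦ b x ^ σ` is a homomorphism from the centraliser `Z`
of `a` to the abelian group `Cn p φ j ⧸ V p Γ j` sending `a` to `a ^ σ`. Hence no power of `a`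
lies in the commutator subgroup of `Z`; `Z` is finitely generated, use the structure theorem as
in `exists_onto_int` (file `Main.lean`), or `exists_int_hom` below.
`end_finite`: with `ψ` from `exists_hom_int`, the preimage of the multiples of `ψ a` is the direct
product of `zpowers a` and `ker ψ`; if `ker ψ` is trivial then `Z` is abelian. -/

namespace Pool.Agent.P.MP_50f9b9_al.RP

variable {Γ : Type} [Group Γ] {p : ℕ} [hp : Fact p.Prime]

/-- The nilpotent parts are cyclic. -/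
def Cyc (p : ℕ) (φ : Monoid.End Γ) : Prop :=
  ∀ j, ∃ c ∈ Cn p φ j, ∀ x ∈ Cn p φ j, ∃ m : ℤ, x * (c ^ m)⁻¹ ∈ V p Γ j

/-- No torsion. -/
def TF (Γ : Type) [Group Γ] : Prop := ∀ (g : Γ) (n : ℕ), n ≠ 0 → g ^ n = 1 → g = 1

namespace End1Aux

theorem zpow_total {Q : Type} [Group Q] (hQ : IsPGroup p Q) (g : Q) (m n : ℤ) :
    (∃ k : ℤ, g ^ m = (g ^ n) ^ k) ∨ ∃ k : ℤ, g ^ n = (g ^ m) ^ k := by
  obtain ⟨e, he⟩ := hQ g
  have key : ∀ m n : ℤ, (Int.gcd m (p ^ e : ℕ) : ℤ) ∣ n → ∃ k : ℤ, g ^ n = (g ^ m) ^ k := by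
    rintro m n ⟨t, rfl⟩
    refine ⟨Int.gcdA m (p ^ e : ℕ) * t, ?_⟩
    rw [Int.gcd_eq_gcd_ab, zpow_mul, zpow_add, zpow_mul g ((p ^ e : ℕ) : ℤ), zpow_natCast, he,
      one_zpow, mul_one, ← zpow_mul, ← zpow_mul, mul_assoc]
  have hd : ∀ m : ℤ, ∃ i, Int.gcd m (p ^ e : ℕ) = p ^ i := fun m => by
    have h1 : Int.gcd m (p ^ e : ℕ) ∣ p ^ e := by
      exact_mod_cast Int.gcd_dvd_right m (p ^ e : ℕ)
    obtain ⟨i, -, hi⟩ := (Nat.dvd_prime_pow hp.out).mp h1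
    exact ⟨i, hi⟩
  obtain ⟨i, hi⟩ := hd m
  obtain ⟨i', hi'⟩ := hd n
  rcases le_total i i' with h | h
  · refine Or.inr (key m n (dvd_trans ?_ (Int.gcd_dvd_left n (p ^ e : ℕ))))
    rw [hi, hi']
    exact_mod_cast pow_dvd_pow p h
  · refine Or.inl (key n m (dvd_trans ?_ (Int.gcd_dvd_left m (p ^ e : ℕ))))
    rw [hi, hi']
    exact_mod_cast pow_dvd_pow p h

theorem mk_eq_iff {N : Subgroup Γ} [N.Normal] {x y : Γ} :
    (QuotientGroup.mk' N x = QuotientGroup.mk' N y) ↔ x * y⁻¹ ∈ N := by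
  rw [← mul_inv_eq_one, ← map_inv, ← map_mul, QuotientGroup.mk'_apply, QuotientGroup.eq_one_iff]

omit hp in
theorem cycq {φ : Monoid.End Γ} (hcyc : Cyc p φ) (j : ℕ) : ∃ c ∈ Cn p φ j, ∀ x ∈ Cn p φ j,
    ∃ m : ℤ, QuotientGroup.mk' (V p Γ j) x = QuotientGroup.mk' (V p Γ j) c ^ m := by
  obtain ⟨c, hc, h⟩ := hcyc j
  refine ⟨c, hc, fun x hx => ?_⟩
  obtain ⟨m, hm⟩ := h x hx
  exact ⟨m, by rw [← map_zpow]; exact mk_eq_iff.mpr hm⟩

omit hp in
theorem commq {φ : Monoid.End Γ} (hcyc : Cyc p φ) (j : ℕ) {x y : Γ} (hx : x ∈ Cn p φ j)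
    (hy : y ∈ Cn p φ j) :
    Commute (QuotientGroup.mk' (V p Γ j) x) (QuotientGroup.mk' (V p Γ j) y) := by
  obtain ⟨c, -, h⟩ := cycq hcyc j
  obtain ⟨m, hm⟩ := h x hx
  obtain ⟨n, hn⟩ := h y hy
  rw [hm, hn]
  exact Commute.zpow_zpow_self _ _ _

theorem eq_of_mk (hres : ResiduallyP p Γ) {x y : Γ} (j0 : ℕ)
    (h : ∀ j, j0 ≤ j → QuotientGroup.mk' (V p Γ j) x = QuotientGroup.mk' (V p Γ j) y) :
    x = y := by
  rw [← mul_inv_eq_one]
  exact eq_one_of_mem_V hres fun j =>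
    V_anti (le_max_left j j0) (mk_eq_iff.mp (h _ (le_max_right j j0)))

end End1Aux

open End1Aux

theorem exists_int_hom {L : Type} [Group L] [Group.FG L] (x : L)
    (hx : ∀ n : ℕ, n ≠ 0 → x ^ n ∉ commutator L) : ∃ f ∈ Hom ℤ L ℤ, f x ≠ 0 := by
  have hs : Function.Surjective (Abelianization.of : L →* Abelianization L) :=
    QuotientGroup.mk_surjective
  have : Group.FG (Abelianization L) := Group.fg_of_surjective hs
  obtain ⟨n, ι, _, q, hq, e, ⟨φ⟩⟩ :=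
    AddCommGroup.equiv_free_prod_directSum_zmod (Additive (Abelianization L))
  have : ∀ i, NeZero (q i ^ e i) := fun i => ⟨pow_ne_zero _ (hq i).ne_zero⟩
  have : Finite (DirectSum ι fun i => ZMod (q i ^ e i)) :=
    Finite.of_injective _ DFunLike.coe_injective
  by_contra hc
  push Not at hc
  have h1 : (φ (Additive.ofMul (Abelianization.of x))).1 = 0 := by
    ext i
    exact hc (fun y => (φ (Additive.ofMul (Abelianization.of y))).1 i) fun y z => by simp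
  apply hx (Nat.card (DirectSum ι fun i => ZMod (q i ^ e i))) Nat.card_pos.ne'
  rw [← Abelianization.ker_of, MonoidHom.mem_ker, map_pow]
  apply Additive.ofMul.injective
  apply φ.injective
  rw [ofMul_pow, map_nsmul, ofMul_one, map_zero]
  refine Prod.ext ?_ ?_
  · rw [Prod.smul_fst, h1, smul_zero, Prod.fst_zero]
  · rw [Prod.smul_snd, card_nsmul_eq_zero', Prod.snd_zero]

variable [Group.FG Γ] {φ : Monoid.End Γ}

theorem commute_of_mem (hres : ResiduallyP p Γ) (hcyc : Cyc p φ) {a a' : Γ}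
    (ha : ∀ j, a ∈ Cn p φ j) (ha' : ∀ j, a' ∈ Cn p φ j) : Commute a a' := by
  refine eq_of_mk hres 0 fun j _ => ?_
  rw [map_mul, map_mul]
  exact commq hcyc j (ha j) (ha' j)

theorem exists_sigma (hres : ResiduallyP p Γ) (hcyc : Cyc p φ) {a : Γ} (ha : ∀ j, a ∈ Cn p φ j)
    (ha1 : a ≠ 1) : ∃ σ j0 : ℕ, σ ≠ 0 ∧ ∀ j, j0 ≤ j → ∀ c ∈ Cn p φ j, ∃ m : ℤ,
      c ^ σ * (a ^ m)⁻¹ ∈ V p Γ j := by
  obtain ⟨j0, hj0⟩ : ∃ j0, a ∉ V p Γ j0 := by
    by_contra h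
    push Not at h
    exact ha1 (eq_one_of_mem_V hres h)
  refine ⟨(V p Γ j0).index, j0, Subgroup.FiniteIndex.index_ne_zero, fun j hj c hc => ?_⟩
  obtain ⟨g, -, h⟩ := cycq hcyc j
  obtain ⟨m, hm⟩ := h a (ha j)
  obtain ⟨n, hn⟩ := h _ (Subgroup.pow_mem _ hc (V p Γ j0).index)
  rcases zpow_total (V_popen j).isPGroup (QuotientGroup.mk' (V p Γ j) g) m n with
    ⟨k, hk⟩ | ⟨k, hk⟩
  · exfalso
    rw [← hm, ← hn, ← map_zpow] at hk
    have h1 := V_anti hj (mk_eq_iff.mp hk)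
    have h2 := (V p Γ j0).zpow_mem (Subgroup.pow_index_mem (V p Γ j0) c) k
    exact hj0 (by simpa using (V p Γ j0).mul_mem h1 h2)
  · rw [← hm, ← hn, ← map_zpow] at hk
    exact ⟨k, mk_eq_iff.mp hk⟩

theorem commute_of_commute (hres : ResiduallyP p Γ) (htf : TF Γ) (hcyc : Cyc p φ) {a a' h : Γ}
    (ha : ∀ j, a ∈ Cn p φ j) (ha1 : a ≠ 1) (ha' : ∀ j, a' ∈ Cn p φ j) (hh : Commute h a) :
    Commute h a' := by
  obtain ⟨σ, j0, hσ, hs⟩ := exists_sigma hres hcyc ha ha1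
  have h1 : Commute h (a' ^ σ) := by
    refine eq_of_mk hres j0 fun j hj => ?_
    obtain ⟨m, hm⟩ := hs j hj a' (ha' j)
    rw [map_mul, map_mul, mk_eq_iff.mpr hm, ← map_mul, ← map_mul, (hh.zpow_right m).eq]
  have h2 : Commute (h * a' * h⁻¹) a' := commute_of_mem hres hcyc
    (fun j => Subgroup.Normal.conj_mem inferInstance _ (ha' j) h) ha'
  have h3 : h * a' * h⁻¹ * a'⁻¹ = 1 := htf _ σ hσ (by
    rw [h2.inv_right.mul_pow, conj_pow, h1.eq, inv_pow]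
    simp)
  rw [mul_inv_eq_one, mul_inv_eq_iff_eq_mul] at h3
  exact h3

theorem commutator_commute (hres : ResiduallyP p Γ) (hcyc : Cyc p φ) {a : Γ}
    (ha : ∀ j, a ∈ Cn p φ j) (g h : Γ) : Commute (g * h * g⁻¹ * h⁻¹) a := by
  refine eq_of_mk hres 0 fun j _ => ?_
  obtain ⟨c, hc, hcy⟩ := cycq hcyc j
  set π := QuotientGroup.mk' (V p Γ j)
  have h1 : ∀ g : Γ, ∃ m : ℤ, ∀ k : ℤ, π g * π c ^ k * (π g)⁻¹ = π c ^ (m * k) := fun g => by
    obtain ⟨m, hm⟩ := hcy _ (Subgroup.Normal.conj_mem inferInstance _ hc g)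
    refine ⟨m, fun k => ?_⟩
    rw [map_mul, map_mul, map_inv] at hm
    rw [← conj_zpow, hm, zpow_mul]
  obtain ⟨mg, hg⟩ := h1 g
  obtain ⟨mh, hh⟩ := h1 h
  obtain ⟨k, hk⟩ := hcy _ (Subgroup.Normal.conj_mem inferInstance _ (ha j) (h * g)⁻¹)
  have h2 : π g * (π h * π c ^ k * (π h)⁻¹) * (π g)⁻¹ =
      π h * (π g * π c ^ k * (π g)⁻¹) * (π h)⁻¹ := by
    rw [hg, hh, hg, hh, mul_left_comm]
  rw [← hk] at h2
  simp only [map_mul, map_inv, mul_inv_rev, inv_inv] at h2 ⊢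
  calc _ = π g * (π h * ((π g)⁻¹ * (π h)⁻¹ * π a * (π h * π g)) * (π h)⁻¹) * (π g)⁻¹ *
        (π g * π h * (π g)⁻¹ * (π h)⁻¹) := by group
    _ = _ := by rw [h2]; group

theorem exists_hom_int (hres : ResiduallyP p Γ) (htf : TF Γ) (hcyc : Cyc p φ) {a : Γ}
    (ha : ∀ j, a ∈ Cn p φ j) (ha1 : a ≠ 1) (Z : Subgroup Γ) [Z.FiniteIndex] (haZ : a ∈ Z)
    (hZ : ∀ z ∈ Z, Commute z a) : ∃ f ∈ Hom ℤ Z ℤ, f ⟨a, haZ⟩ ≠ 0 := by
  obtain ⟨σ, j0, hσ, hs⟩ := exists_sigma hres hcyc ha ha1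
  refine exists_int_hom (⟨a, haZ⟩ : Z) fun n hn hmem => ha1 ?_
  refine htf a (σ * n) (mul_ne_zero hσ hn) (eq_of_mk hres j0 fun j hj => ?_)
  obtain ⟨m, -, hb, hv⟩ := exists_idem (p := p) φ j
  set π := QuotientGroup.mk' (V p Γ j)
  have hc : ∀ x y : Γ, Commute (π (x * ((φ ^ m) x)⁻¹) ^ σ) (π (y * ((φ ^ m) y)⁻¹) ^ σ) :=
    fun x y => (commq hcyc j (hb x) (hb y)).pow_pow σ σ
  let β : Z →* Γ ⧸ V p Γ j := MonoidHom.mk' (fun x => π (x.1 * ((φ ^ m) x.1)⁻¹) ^ σ)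
    fun x y => by
      have e1 : (x * y).1 * ((φ ^ m) (x * y).1)⁻¹ =
          (x.1 * (y.1 * ((φ ^ m) y.1)⁻¹) * x.1⁻¹) * (x.1 * ((φ ^ m) x.1)⁻¹) := by
        rw [Subgroup.coe_mul, map_mul]
        group
      obtain ⟨k, hk⟩ := hs j hj _ (hb y.1)
      have e2 : π (x.1 * (y.1 * ((φ ^ m) y.1)⁻¹) * x.1⁻¹) ^ σ = π (y.1 * ((φ ^ m) y.1)⁻¹) ^ σ := by
        have e3 := mk_eq_iff.mpr hk
        rw [← map_pow, conj_pow, map_mul, map_mul, ← map_pow]
        change π _ * π _ * π _ = π _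
        change π _ = π _ at e3
        rw [e3, ← map_mul, ← map_mul, ((hZ x.1 x.2).zpow_right k).eq, mul_inv_cancel_right]
      rw [e1, map_mul, (commq hcyc j (Subgroup.Normal.conj_mem inferInstance _ (hb y.1) x.1)
        (hb x.1)).mul_pow, e2, (hc _ _).eq]
  have hk : commutator Z ≤ β.ker := by
    rw [commutator_def, Subgroup.commutator_le]
    intro x _ y _
    rw [MonoidHom.mem_ker, map_commutatorElement, commutatorElement_eq_one_iff_commute]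
    exact hc _ _
  have h1 := hk hmem
  rw [MonoidHom.mem_ker, map_pow] at h1
  have h2 : π ((φ ^ m) a) = 1 := (QuotientGroup.eq_one_iff _).mpr (hv a (ha j))
  change (π (a * ((φ ^ m) a)⁻¹) ^ σ) ^ n = 1 at h1
  rw [map_mul, map_inv, h2, inv_one, mul_one, ← pow_mul] at h1
  rw [map_pow, h1, map_one]

theorem end_finite (hres : ResiduallyP p Γ) (htf : TF Γ) (hcyc : Cyc p φ) {a : Γ}
    (ha : ∀ j, a ∈ Cn p φ j) (ha1 : a ≠ 1) [(Subgroup.centralizer {a}).FiniteIndex] :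
    VirtSolvable Γ ∨ VirtProduct Γ := by
  set Z := Subgroup.centralizer ({a} : Set Γ) with hZdef
  have hZ : ∀ z ∈ Z, Commute z a := fun z hz => Subgroup.mem_centralizer_singleton_iff.mp hz
  have haZ : a ∈ Z := Subgroup.mem_centralizer_singleton_iff.mpr rfl
  obtain ⟨f, hf, hfa⟩ := exists_hom_int hres htf hcyc ha ha1 Z haZ hZ
  by_cases hK : Nontrivial (toMon hf).ker
  · right
    let F : Multiplicative ℤ × (toMon hf).ker →* Z :=
      MonoidHom.noncommCoprod (zpowersHom Z ⟨a, haZ⟩) (toMon hf).ker.subtype fun n k => by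
        have : Commute (⟨a, haZ⟩ : Z) k.1 := Subtype.ext (hZ _ k.1.2).symm.eq
        exact this.zpow_left _
    have hF : ∀ n k, F (n, k) = (⟨a, haZ⟩ : Z) ^ n.toAdd * k.1 := fun _ _ => rfl
    have hinj : Function.Injective F := by
      rw [injective_iff_map_eq_one]
      rintro ⟨n, k⟩ h
      have h1 := congrArg f h
      have hk : f k.1 = 0 := k.2
      rw [hF, hf, hom_zpow hf, hk, hom_one hf, add_zero, smul_eq_mul] at h1
      have hn : n.toAdd = 0 := (mul_eq_zero.mp h1).resolve_right hfa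
      rw [hF, hn, zpow_zero, one_mul] at h
      exact Prod.ext hn (Subtype.ext h)
    have : NeZero (f ⟨a, haZ⟩).natAbs := ⟨Int.natAbs_ne_zero.mpr hfa⟩
    have hg : (fun z => ((f z : ℤ) : ZMod (f ⟨a, haZ⟩).natAbs)) ∈
        Hom ℤ Z (ZMod (f ⟨a, haZ⟩).natAbs) := fun x y => by
      beta_reduce
      rw [hf, Int.cast_add]
    have hfi : F.range.FiniteIndex := by
      refine Subgroup.finiteIndex_of_le (H := (toMon hg).ker) fun z hz => ?_
      have h1 : ((f z : ℤ) : ZMod (f ⟨a, haZ⟩).natAbs) = 0 := hz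
      obtain ⟨t, ht⟩ := Int.natAbs_dvd.mp ((ZMod.intCast_zmod_eq_zero_iff_dvd _ _).mp h1)
      refine ⟨(Multiplicative.ofAdd t, ⟨((⟨a, haZ⟩ : Z) ^ t)⁻¹ * z, ?_⟩), ?_⟩
      · change f _ = 0
        rw [hf, hom_inv hf, hom_zpow hf, ht, smul_eq_mul]
        ring
      · rw [hF]
        simp
    refine ⟨F.range.map Z.subtype, ⟨?_⟩, Multiplicative ℤ, (toMon hf).ker, inferInstance,
      inferInstance, inferInstance, hK, ⟨?_⟩⟩
    · rw [Subgroup.index_map_subtype]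
      exact mul_ne_zero hfi.1 Subgroup.FiniteIndex.index_ne_zero
    · exact ((MonoidHom.ofInjective hinj).trans
        (F.range.equivMapOfInjective Z.subtype Z.subtype_injective)).symm
  · left
    have hb : (toMon hf).ker = ⊥ := by
      rw [Subgroup.nontrivial_iff_ne_bot] at hK
      exact not_not.mp hK
    exact ⟨Z, inferInstance, Group.isSolvable_of_isSolvable_injective
      ((MonoidHom.ker_eq_bot_iff _).mp hb)⟩

end Pool.Agent.P.MP_50f9b9_al.RP
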