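import Pool.Agent.P.MP_50f9b9_al.RP.End1

/-! The case of a centraliser of infinite index.

Hints. Let `Z` be the centraliser of `a`; it contains all commutators (`commutator_commute`), so
it is normal with finitely generated abelian quotient, and since the index is infinite there is
`t` with `t ^ k ∉ Z` for all `k ≠ 0` (`CommGroup.finite_of_fg_torsion`). If the indices of the
`Cn p φ j` are bounded by `B`, then `Wk Γ B` lies in all of them (`Wk_le`) and is abelian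
(`commute_of_mem`), so `Γ` is virtually solvable. Otherwise choose `j` such that `L = Cn p φ j`
has `finrank (Hom ℝ L ℝ) > finrank (Hom ℝ Γ ℝ)`; `exists_hom_ne` then gives `n ∈ L ⊓ Z` and
`f ∈ Hom ℤ L ℤ` with `f n ≠ 0` (the map `f ↦ fun x => f (x ^ D)`, `D = L.index`, embeds the real
homomorphisms vanishing on `L ⊓ Z` into `Hom ℝ Γ ℝ`; then `exists_int_hom`). `f` vanishes on every
`a'` lying in all `Cn p φ i`: `a'' = t ^ D * a * (t ^ D)⁻¹ * a⁻¹ ≠ 1` has `f a'' = 0`; use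
`exists_sigma` for `a''`, and `popen_ker`, `POpen.trans`, `POpen.V_le` for `f` modulo `p ^ e`.
Let `a1 = t * a * t⁻¹`. If `a, a1` are independent, `hZ3` applies to `a, a1, n` and the closure is
an abelian subgroup of finite index. Otherwise `a ^ u = a1 ^ v` with coprime nonzero integers
`u, v`, not both of absolute value one (else `t ^ 2 ∈ Z`); exchanging `t` and `t⁻¹` assume
`2 ≤ |v|`. With `a_k = t ^ k * a * (t ^ k)⁻¹` we get `a ^ u ^ k = a_k ^ v ^ k`, so by Bezout `a`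
is a `v ^ k`-th power of an element of all `Cn p φ i`; roots are unique in this torsion free
abelian group, which gives a sequence `y` for `hdiv` with exponent `v ^ 2`. -/

namespace Pool.Agent.P.MP_50f9b9_al.RP

variable {Γ : Type} [Group Γ] {p : ℕ} [hp : Fact p.Prime]

namespace End2Aux

theorem normal_of {Z : Subgroup Γ} (hZ : ∀ g h : Γ, g * h * g⁻¹ * h⁻¹ ∈ Z) : Z.Normal :=
  ⟨fun z hz g => by simpa using Z.mul_mem (hZ g z) hz⟩

theorem mk_comm {Z : Subgroup Γ} [Z.Normal] (hZ : ∀ g h : Γ, g * h * g⁻¹ * h⁻¹ ∈ Z)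
    (x y : Γ ⧸ Z) : x * y = y * x := by
  obtain ⟨x, rfl⟩ := QuotientGroup.mk_surjective x
  obtain ⟨y, rfl⟩ := QuotientGroup.mk_surjective y
  have := (QuotientGroup.eq_one_iff _).mpr (hZ x y)
  rw [QuotientGroup.mk_mul, QuotientGroup.mk_mul, QuotientGroup.mk_mul, QuotientGroup.mk_inv,
    QuotientGroup.mk_inv, mul_inv_eq_one, mul_inv_eq_iff_eq_mul] at this
  exact this

theorem fin_hom (L : Type) [Group L] [h : Group.FG L] : Module.Finite ℝ (Hom ℝ L ℝ) := by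
  obtain ⟨S, hS⟩ := h.out
  let ev : Hom ℝ L ℝ →ₗ[ℝ] (S → ℝ) :=
    { toFun := fun f s => f.1 s, map_add' := fun _ _ => rfl, map_smul' := fun _ _ => rfl }
  refine Module.Finite.of_injective ev fun f g hfg => ?_
  have := MonoidHom.eq_of_eqOn_dense hS (f := toMon f.2) (g := toMon g.2) fun s hs =>
    congrArg Multiplicative.ofAdd (congrFun hfg ⟨s, hs⟩)
  exact Subtype.ext (funext fun x => Multiplicative.ofAdd.injective (DFunLike.congr_fun this x))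

theorem virt_of_comm (S : Set Γ) (h : ∀ x ∈ S, ∀ y ∈ S, x * y = y * x)
    (hS : (Subgroup.closure S).FiniteIndex) : VirtSolvable Γ := by
  have := Subgroup.isMulCommutative_closure h
  exact ⟨_, hS, Group.isSolvable_of_comm fun a b => mul_comm' a b⟩

theorem tfz (htf : TF Γ) {g : Γ} {m : ℤ} (hm : m ≠ 0) (h : g ^ m = 1) : g = 1 :=
  htf g m.natAbs (Int.natAbs_ne_zero.mpr hm) (pow_natAbs_eq_one.mpr h)

theorem root (htf : TF Γ) {x y : Γ} (hc : Commute x y) {k : ℕ} (hk : k ≠ 0)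
    (h : x ^ k = y ^ k) : x = y := by
  rw [← mul_inv_eq_one]
  refine htf _ k hk ?_
  rw [hc.inv_right.mul_pow, inv_pow, h, mul_inv_cancel]

theorem exists_t [Group.FG Γ] {Z : Subgroup Γ} (hZ : ∀ g h : Γ, g * h * g⁻¹ * h⁻¹ ∈ Z)
    (hi : ¬ Z.FiniteIndex) : ∃ t : Γ, ∀ k : ℕ, k ≠ 0 → t ^ k ∉ Z := by
  have := normal_of hZ
  by_contra hc
  push Not at hc
  apply hi
  let : CommGroup (Γ ⧸ Z) := { (inferInstance : Group (Γ ⧸ Z)) with mul_comm := mk_comm hZ }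
  have hfg : Group.FG (Γ ⧸ Z) := Group.fg_of_surjective (QuotientGroup.mk'_surjective Z)
  have : Finite (Γ ⧸ Z) := CommGroup.finite_of_fg_isMulTorsion _ fun x => by
    obtain ⟨x, rfl⟩ := QuotientGroup.mk_surjective x
    obtain ⟨k, hk, hx⟩ := hc x
    refine isOfFinOrder_iff_pow_eq_one.mpr ⟨k, Nat.pos_of_ne_zero hk, ?_⟩
    exact (QuotientGroup.mk_pow Z x k).symm.trans ((QuotientGroup.eq_one_iff _).mpr hx)
  exact Subgroup.finiteIndex_of_finite_quotient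

theorem vanish [Group.FG Γ] {φ : Monoid.End Γ} (hres : ResiduallyP p Γ) (hcyc : Cyc p φ) {j : ℕ}
    {f : Cn p φ j → ℤ} (hf : f ∈ Hom ℤ (Cn p φ j) ℤ) {c : Γ} (hc : ∀ i, c ∈ Cn p φ i)
    (hc1 : c ≠ 1) (hfc : f ⟨c, hc j⟩ = 0) {x : Γ} (hx : ∀ i, x ∈ Cn p φ i) :
    f ⟨x, hx j⟩ = 0 := by
  obtain ⟨σ, j0, hσ, h⟩ := exists_sigma hres hcyc hc hc1
  have : NeZero p := ⟨hp.out.ne_zero⟩
  have key : ∀ e : ℕ, ((p ^ e : ℕ) : ℤ) ∣ σ * f ⟨x, hx j⟩ := fun e => by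
    have hg : (fun y => ((f y : ℤ) : ZMod (p ^ e))) ∈ Hom ℤ (Cn p φ j) (ZMod (p ^ e)) :=
      fun y z => by beta_reduce; rw [hf y z, Int.cast_add]
    obtain ⟨j1, hj1⟩ := ((Cn_popen φ j).trans (popen_ker hg)).V_le
    obtain ⟨m, hm⟩ := h (max j0 j1) (le_max_left _ _) x (hx _)
    obtain ⟨y, hy, hy'⟩ := hj1 (V_anti (le_max_right _ _) hm)
    have e1 : y = (⟨x, hx j⟩ : Cn p φ j) ^ σ * ((⟨c, hc j⟩ : Cn p φ j) ^ m)⁻¹ :=
      Subtype.ext hy'
    have e2 : ((f y : ℤ) : ZMod (p ^ e)) = 0 := hy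
    rw [e1, hf, hom_inv hf, hom_pow hf, hom_zpow hf, hfc] at e2
    simpa using (ZMod.intCast_zmod_eq_zero_iff_dvd _ _).mp e2
  by_contra h0
  have h1 : (σ : ℤ) * f ⟨x, hx j⟩ ≠ 0 := mul_ne_zero (Int.natCast_ne_zero.mpr hσ) h0
  generalize (σ : ℤ) * f ⟨x, hx j⟩ = z at key h1
  have h2 := Nat.le_of_dvd (Int.natAbs_pos.mpr h1) (Int.natCast_dvd.mp (key z.natAbs))
  exact absurd (Nat.lt_pow_self hp.out.one_lt) (not_lt.mpr h2)

theorem exists_root (A : Subgroup Γ) [hA : A.Normal] (hcm : ∀ x ∈ A, ∀ y ∈ A, Commute x y)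
    {a t : Γ} (ha : a ∈ A) {u v : ℤ} (huv : IsCoprime u v)
    (h : a ^ u * (t * a * t⁻¹) ^ v = 1) (k : ℕ) : ∃ b ∈ A, b ^ (-v) ^ k = a := by
  have h1 : ∀ k : ℕ, (t ^ k * a * (t ^ k)⁻¹) ^ u = (t ^ (k + 1) * a * (t ^ (k + 1))⁻¹) ^ (-v) :=
    fun k => by
    have e : t ^ (k + 1) * a * (t ^ (k + 1))⁻¹ = t ^ k * (t * a * t⁻¹) * (t ^ k)⁻¹ := by
      rw [pow_succ]; group
    rw [e, conj_zpow, conj_zpow, zpow_neg, eq_inv_of_mul_eq_one_left h]
  have h2 : ∀ k : ℕ, a ^ u ^ k = (t ^ k * a * (t ^ k)⁻¹) ^ (-v) ^ k := fun k => by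
    induction k with
    | zero => simp
    | succ k ih =>
      rw [pow_succ u, zpow_mul, ih, ← zpow_mul, mul_comm, zpow_mul, h1, ← zpow_mul, ← pow_succ']
  obtain ⟨α, β, hαβ⟩ : IsCoprime (u ^ k) ((-v) ^ k) := huv.neg_right.pow
  have hk : t ^ k * a * (t ^ k)⁻¹ ∈ A := hA.conj_mem _ ha _
  refine ⟨(t ^ k * a * (t ^ k)⁻¹) ^ α * a ^ β, A.mul_mem (A.zpow_mem hk _) (A.zpow_mem ha _), ?_⟩
  rw [(hcm _ (A.zpow_mem hk _) _ (A.zpow_mem ha _)).mul_zpow, ← zpow_mul, mul_comm α, zpow_mul,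
    ← h2, ← zpow_mul, ← zpow_mul, ← zpow_add, mul_comm _ α, hαβ, zpow_one]

theorem dep_case (htf : TF Γ)
    (hdiv : ∀ (n : Γ) (y : ℕ → Γ) (v : ℕ), 2 ≤ v → (∀ k, y (k + 1) ^ v = y k) →
      (∀ k, Commute n (y k)) → (∀ a b : ℤ, n ^ a * y 0 ^ b = 1 → a = 0 ∧ b = 0) →
      (Subgroup.closure (insert n (Set.range y))).FiniteIndex)
    (A : Subgroup Γ) [hA : A.Normal] (hcm : ∀ x ∈ A, ∀ y ∈ A, Commute x y) {n : Γ}
    (hn : ∀ x ∈ A, Commute n x) (hn' : ∀ x ∈ A, ∀ c : ℤ, x * n ^ c = 1 → c = 0)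
    {a t : Γ} (ha : a ∈ A) (ha1 : a ≠ 1) {u v : ℤ} (huv : IsCoprime u v) (hv : 2 ≤ v.natAbs)
    (h : a ^ u * (t * a * t⁻¹) ^ v = 1) : VirtSolvable Γ := by
  have hN : 2 ≤ v.natAbs ^ 2 := by nlinarith
  have h1 : ∀ k : ℕ, ∃ b ∈ A, b ^ (v.natAbs ^ 2) ^ k = a := fun k => by
    obtain ⟨b, hb, hb'⟩ := exists_root A hcm ha huv h (2 * k)
    refine ⟨b, hb, ?_⟩
    rw [← hb', ← zpow_natCast, pow_mul, neg_sq]
    push_cast
    rw [sq_abs]
  choose y hy hy' using h1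
  generalize v.natAbs ^ 2 = N at hN hy'
  have h0 : y 0 = a := by simpa using hy' 0
  refine virt_of_comm _ ?_ (hdiv n y N hN (fun k => ?_) (fun k => hn _ (hy k)) fun c d hcd => ?_)
  · rintro x (rfl | ⟨i, rfl⟩) z (rfl | ⟨l, rfl⟩)
    · rfl
    · exact hn _ (hy l)
    · exact (hn _ (hy i)).symm
    · exact hcm _ (hy i) _ (hy l)
  · refine root htf (hcm _ (A.pow_mem (hy _) _) _ (hy k)) (k := N ^ k) (by positivity) ?_
    rw [← pow_mul, ← pow_succ', hy', hy']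
  · rw [h0] at hcd
    have hc : c = 0 := hn' _ (A.zpow_mem ha d) c (by
      rw [← ((hn a ha).zpow_zpow c d).eq, hcd])
    rw [hc, zpow_zero, one_mul] at hcd
    exact ⟨hc, by_contra fun hd => ha1 (tfz htf hd hcd)⟩

end End2Aux

open End2Aux

theorem exists_hom_ne [Group.FG Γ] (L Z : Subgroup Γ) [L.Normal] [L.FiniteIndex]
    (hZ : ∀ g h : Γ, g * h * g⁻¹ * h⁻¹ ∈ Z)
    (h : Module.finrank ℝ (Hom ℝ Γ ℝ) < Module.finrank ℝ (Hom ℝ L ℝ)) :
    ∃ f ∈ Hom ℤ L ℤ, ∃ n : L, (n : Γ) ∈ Z ∧ f n ≠ 0 := by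
  by_contra hc
  push Not at hc
  have := normal_of hZ
  have h0 : ∀ f ∈ Hom ℝ L ℝ, ∀ n : L, (n : Γ) ∈ Z → f n = 0 := fun f hf n hn => by
    by_contra h1
    obtain ⟨g, hg, hg'⟩ := exists_int_hom n fun k hk hx => h1 (by
      have e : f (n ^ k) = 0 := Abelianization.commutator_subset_ker (toMon hf) hx
      rw [hom_pow hf, nsmul_eq_mul] at e
      exact (mul_eq_zero.mp e).resolve_left (Nat.cast_ne_zero.mpr hk))
    exact hg' (hc g hg n hn)
  let q : Γ → L := fun x => ⟨x ^ L.index, L.pow_index_mem x⟩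
  have hq : ∀ x y, ((q (x * y) * (q x * q y)⁻¹ : L) : Γ) ∈ Z := fun x y => by
    change (x * y) ^ L.index * (x ^ L.index * y ^ L.index)⁻¹ ∈ Z
    rw [← QuotientGroup.eq_one_iff]
    simp only [QuotientGroup.mk_mul, QuotientGroup.mk_inv, QuotientGroup.mk_pow]
    rw [Commute.mul_pow (mk_comm hZ _ _), mul_inv_cancel]
  let T : Hom ℝ L ℝ →ₗ[ℝ] Hom ℝ Γ ℝ :=
    { toFun := fun f => ⟨fun x => f.1 (q x), fun x y => by
        have e := h0 f.1 f.2 _ (hq x y)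
        rw [f.2, hom_inv f.2, f.2] at e
        beta_reduce
        linarith⟩
      map_add' := fun _ _ => rfl
      map_smul' := fun _ _ => rfl }
  have hT : Function.Injective T := (injective_iff_map_eq_zero _).mpr fun f hf =>
    Subtype.ext (funext fun x => by
      have e : f.1 (x ^ L.index) = 0 := congrFun (congrArg Subtype.val hf) (x : Γ)
      rw [hom_pow f.2, nsmul_eq_mul] at e
      exact (mul_eq_zero.mp e).resolve_left
        (Nat.cast_ne_zero.mpr Subgroup.FiniteIndex.index_ne_zero))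
  have := fin_hom Γ
  exact absurd (LinearMap.finrank_le_finrank_of_injective hT) (not_le.mpr h)

theorem end_infinite [Group.FG Γ] {φ : Monoid.End Γ} (hres : ResiduallyP p Γ) (htf : TF Γ)
    (hcyc : Cyc p φ) (hgr : ∀ j, (Cn p φ j).index ≤ Module.finrank ℝ (Hom ℝ (Cn p φ j) ℝ))
    (hZ3 : ∀ x y z : Γ, Commute x y → Commute x z → Commute y z →
      (∀ a b c : ℤ, x ^ a * y ^ b * z ^ c = 1 → a = 0 ∧ b = 0 ∧ c = 0) →
      (Subgroup.closure {x, y, z}).FiniteIndex)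
    (hdiv : ∀ (n : Γ) (y : ℕ → Γ) (v : ℕ), 2 ≤ v → (∀ k, y (k + 1) ^ v = y k) →
      (∀ k, Commute n (y k)) → (∀ a b : ℤ, n ^ a * y 0 ^ b = 1 → a = 0 ∧ b = 0) →
      (Subgroup.closure (insert n (Set.range y))).FiniteIndex)
    {a : Γ} (ha : ∀ j, a ∈ Cn p φ j) (ha1 : a ≠ 1)
    (hZ : ¬ (Subgroup.centralizer {a}).FiniteIndex) : VirtSolvable Γ := by
  have hcom : ∀ g h : Γ, g * h * g⁻¹ * h⁻¹ ∈ Subgroup.centralizer {a} := fun g h =>
    Subgroup.mem_centralizer_singleton_iff.mpr (commutator_commute hres hcyc ha g h)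
  obtain ⟨t, ht⟩ := exists_t hcom hZ
  by_cases hb : ∀ j, (Cn p φ j).index ≤ Module.finrank ℝ (Hom ℝ Γ ℝ)
  · exact ⟨Wk Γ (Module.finrank ℝ (Hom ℝ Γ ℝ)), inferInstance,
      Group.isSolvable_of_comm fun x y => Subtype.ext (commute_of_mem hres hcyc
        (fun j => Wk_le _ (hb j) x.2) fun j => Wk_le _ (hb j) y.2)⟩
  push Not at hb
  obtain ⟨j, hj⟩ := hb
  obtain ⟨f, hf, n, hn, hfn⟩ := exists_hom_ne (Cn p φ j) _ hcom (hj.trans_le (hgr j))
  let A : Subgroup Γ := ⨅ i, Cn p φ i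
  have hA : A.Normal := Subgroup.normal_iInf_normal fun _ => inferInstance
  have hm : ∀ {x}, x ∈ A ↔ ∀ i, x ∈ Cn p φ i := Subgroup.mem_iInf
  have haA : a ∈ A := hm.mpr ha
  have hcm : ∀ x ∈ A, ∀ y ∈ A, Commute x y := fun x hx y hy =>
    commute_of_mem hres hcyc (hm.mp hx) (hm.mp hy)
  have hnA : ∀ x ∈ A, Commute (n : Γ) x := fun x hx =>
    commute_of_commute hres htf hcyc ha ha1 (hm.mp hx)
      (Subgroup.mem_centralizer_singleton_iff.mp hn)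
  have hf0 : ∀ x (hx : x ∈ A), f ⟨x, hm.mp hx j⟩ = 0 := fun x hx => by
    let s : Cn p φ j := ⟨t ^ (Cn p φ j).index, (Cn p φ j).pow_index_mem t⟩
    have hc : (s : Γ) * a * (s : Γ)⁻¹ * a⁻¹ ∈ A :=
      A.mul_mem (hA.conj_mem _ haA _) (A.inv_mem haA)
    refine vanish hres hcyc hf (hm.mp hc) (fun e => ?_) ?_ (hm.mp hx)
    · rw [mul_inv_eq_one, mul_inv_eq_iff_eq_mul] at e
      exact ht _ Subgroup.FiniteIndex.index_ne_zero
        (Subgroup.mem_centralizer_singleton_iff.mpr e)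
    · change f (s * ⟨a, ha j⟩ * s⁻¹ * (⟨a, ha j⟩ : Cn p φ j)⁻¹) = 0
      rw [hf, hf, hf, hom_inv hf, hom_inv hf]
      ring
  have hn' : ∀ x ∈ A, ∀ c : ℤ, x * (n : Γ) ^ c = 1 → c = 0 := fun x hx c hc => by
    have e : (⟨x, hm.mp hx j⟩ : Cn p φ j) * n ^ c = 1 := Subtype.ext hc
    have e2 := congrArg f e
    rw [hf, hf0 x hx, hom_zpow hf, hom_one hf, zero_add, smul_eq_mul] at e2
    exact (mul_eq_zero.mp e2).resolve_right hfn
  have ha' : t * a * t⁻¹ ∈ A := hA.conj_mem _ haA _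
  by_cases hi : ∀ u v : ℤ, a ^ u * (t * a * t⁻¹) ^ v = 1 → u = 0 ∧ v = 0
  · refine virt_of_comm _ ?_ (hZ3 a (t * a * t⁻¹) n (hcm _ haA _ ha') (hnA _ haA).symm
      (hnA _ ha').symm fun u v c h => ?_)
    · rintro x (rfl | rfl | rfl) z (rfl | rfl | rfl)
      all_goals first
        | rfl
        | exact hcm _ haA _ ha'
        | exact hcm _ ha' _ haA
        | exact hnA _ haA
        | exact hnA _ ha'
        | exact (hnA _ haA).symm
        | exact (hnA _ ha').symm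
    · have hc := hn' _ (A.mul_mem (A.zpow_mem haA u) (A.zpow_mem ha' v)) c h
      rw [hc, zpow_zero, mul_one] at h
      exact ⟨(hi u v h).1, (hi u v h).2, hc⟩
  obtain ⟨u0, v0, h0, hne⟩ : ∃ u v : ℤ, a ^ u * (t * a * t⁻¹) ^ v = 1 ∧ ¬ (u = 0 ∧ v = 0) := by
    simpa only [not_forall, exists_prop] using hi
  have hg : 0 < Int.gcd u0 v0 := Nat.pos_of_ne_zero fun e => hne (Int.gcd_eq_zero_iff.mp e)
  obtain ⟨u, v, huv, hu, hv⟩ := Int.exists_gcd_one hg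
  have hcop : IsCoprime u v := Int.isCoprime_iff_gcd_eq_one.mpr huv
  have h1 : a ^ u * (t * a * t⁻¹) ^ v = 1 := by
    refine htf _ _ hg.ne' ?_
    rw [(hcm _ (A.zpow_mem haA u) _ (A.zpow_mem ha' v)).mul_pow, ← zpow_natCast, ← zpow_natCast,
      ← zpow_mul, ← zpow_mul, ← hu, ← hv, h0]
  by_cases h2 : 2 ≤ v.natAbs
  · exact dep_case htf hdiv A hcm hnA hn' haA ha1 hcop h2 h1
  have h3 : a ^ v * (t⁻¹ * a * t⁻¹⁻¹) ^ u = 1 := by
    rw [conj_zpow] at h1 ⊢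
    rw [eq_inv_of_mul_eq_one_left h1]
    group
  by_cases h4 : 2 ≤ u.natAbs
  · exact dep_case htf hdiv A hcm hnA hn' haA ha1 hcop.symm h4 h3
  exfalso
  have hu0 : u ≠ 0 := fun e => by
    rw [e, zpow_zero, mul_one] at h3
    refine ha1 (tfz htf (fun e' => ?_) h3)
    rw [e, e'] at huv
    simp at huv
  have hv0 : v ≠ 0 := fun e => by
    rw [e, zpow_zero, mul_one] at h1
    exact ha1 (tfz htf hu0 h1)
  have h5 : t * a * t⁻¹ = a ∨ t * a * t⁻¹ = a⁻¹ := by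
    have hu1 : u = 1 ∨ u = -1 := by omega
    have hv1 : v = 1 ∨ v = -1 := by omega
    rcases hu1 with rfl | rfl <;> rcases hv1 with rfl | rfl <;>
      simp only [zpow_one, zpow_neg] at h1
    · exact Or.inr (eq_inv_of_mul_eq_one_right h1)
    · exact Or.inl (mul_inv_eq_one.mp h1).symm
    · exact Or.inl (inv_mul_eq_one.mp h1).symm
    · exact Or.inr (mul_inv_eq_one.mp h1).symm
  refine ht 2 two_ne_zero (Subgroup.mem_centralizer_singleton_iff.mpr ?_)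
  rw [← mul_inv_eq_iff_eq_mul]
  have e : t ^ 2 * a * (t ^ 2)⁻¹ = t * (t * a * t⁻¹) * t⁻¹ := by rw [sq]; group
  rcases h5 with h5 | h5
  · rw [e, h5, h5]
  · rw [e, h5, ← conj_inv, h5, inv_inv]

end Pool.Agent.P.MP_50f9b9_al.RP
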