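import Pool.Agent.P.MP_50f9b9_al.RP.Base

/-! Restriction of the resolution to a subgroup of finite index.

Hint. Give each `R.Pi` the module structure `Module.compHom` along the ring map `ZG L → ZG G`
induced by `j` (so `og l` acts as `og (j l)`). Let `π : ZG G →+ ZG L` be `ext` of the function that
sends `j l` to `og l` and the other elements to zero; `π (og (j l) * r) = og l * π r` and the same
on the right. With `κ` running over representatives of `G ⧸ j.range`, every `r : ZG G` is the sum
of `ι (π (r * og κ)) * og κ⁻¹`. Frames: elements `og κ⁻¹ • e i`, coordinates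
`x ↦ π (j i x * og κ)` (reindex by `Fintype.equivFin`). The map `a ↦ π ∘ a` is an additive
bijection from the `ZG G`-linear forms to the `ZG L`-linear forms (inverse:
`b ↦ fun x => ∑ κ, og κ * ι (b (og κ⁻¹ • x))`), natural for composition with the boundaries and
for right multiplication by `og (j l)`; transport `co2`, `deg`, `u`, `deg_ker` along it. -/

namespace Pool.Agent.P.MP_50f9b9_al.RP

namespace RestrictAux

variable {G L : Type} [Group G] [Group L]

/-- The induced ring map. -/
noncomputable def io (j : L →* G) : ZG L →+* ZG G := MonoidAlgebra.mapDomainRingHom ℤ j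

theorem io_og (j : L →* G) (l : L) : io j (og l) = og (j l) := by
  simp [io, og]

open Classical in
/-- The projection. -/
noncomputable def pr (j : L →* G) : ZG G →+ ZG L :=
  ext fun g => if h : g ∈ j.range then og h.choose else 0

theorem pr_mem {j : L →* G} (hj : Function.Injective j) (l : L) : pr j (og (j l)) = og l := by
  have h : j l ∈ j.range := ⟨l, rfl⟩
  rw [pr, ext_og, dif_pos h, hj h.choose_spec]

theorem pr_not {j : L →* G} {g : G} (h : g ∉ j.range) : pr j (og g) = 0 := by
  rw [pr, ext_og, dif_neg h]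

theorem pr_left {j : L →* G} (hj : Function.Injective j) (s : ZG L) (r : ZG G) :
    pr j (io j s * r) = s * pr j r := by
  have h1 : ∀ l g, pr j (io j (og l) * og g) = og l * pr j (og g) := fun l g => by
    rw [io_og, ← og_mul]
    by_cases hg : g ∈ j.range
    · obtain ⟨m, rfl⟩ := hg
      rw [← map_mul, pr_mem hj, pr_mem hj, og_mul]
    · rw [pr_not hg, pr_not (mt (j.range.mul_mem_cancel_left ⟨l, rfl⟩).mp hg), mul_zero]
  have h2 : ∀ l, pr j (io j (og l) * r) = og l * pr j r := fun l =>
    DFunLike.congr_fun (hom_ext (f := (pr j).comp (AddMonoidHom.mulLeft (io j (og l))))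
      (g := (AddMonoidHom.mulLeft (og l)).comp (pr j)) (h1 l)) r
  exact DFunLike.congr_fun (hom_ext
    (f := (pr j).comp ((AddMonoidHom.mulRight r).comp (io j).toAddMonoidHom))
    (g := AddMonoidHom.mulRight (pr j r)) h2) s

theorem pr_right {j : L →* G} (hj : Function.Injective j) (s : ZG L) (r : ZG G) :
    pr j (r * io j s) = pr j r * s := by
  have h1 : ∀ l g, pr j (og g * io j (og l)) = pr j (og g) * og l := fun l g => by
    rw [io_og, ← og_mul]
    by_cases hg : g ∈ j.range
    · obtain ⟨m, rfl⟩ := hg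
      rw [← map_mul, pr_mem hj, pr_mem hj, og_mul]
    · rw [pr_not hg, pr_not (mt (j.range.mul_mem_cancel_right ⟨l, rfl⟩).mp hg), zero_mul]
  have h2 : ∀ l, pr j (r * io j (og l)) = pr j r * og l := fun l =>
    DFunLike.congr_fun (hom_ext (f := (pr j).comp (AddMonoidHom.mulRight (io j (og l))))
      (g := (AddMonoidHom.mulRight (og l)).comp (pr j)) (h1 l)) r
  exact DFunLike.congr_fun (hom_ext
    (f := (pr j).comp ((AddMonoidHom.mulLeft r).comp (io j).toAddMonoidHom))
    (g := AddMonoidHom.mulLeft (pr j r)) h2) s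

theorem tau_pr {j : L →* G} (hj : Function.Injective j) (r : ZG G) :
    tau ⊥ (pr j r) = tau ⊥ r := by
  refine DFunLike.congr_fun (hom_ext (f := (tau ⊥).comp (pr j)) (g := tau ⊥) fun g => ?_) r
  rw [AddMonoidHom.comp_apply]
  by_cases hg : g ∈ j.range
  · obtain ⟨m, rfl⟩ := hg
    rw [pr_mem hj]
    by_cases hm : m = 1
    · rw [hm, map_one, tau_og_mem _ (one_mem _), tau_og_mem _ (one_mem _)]
    · rw [tau_og_notMem _ (mt Subgroup.mem_bot.mp hm),
        tau_og_notMem _ (mt (fun h => hj ((Subgroup.mem_bot.mp h).trans j.map_one.symm)) hm)]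
  · rw [pr_not hg, map_zero, tau_og_notMem]
    intro h
    exact hg (Subgroup.mem_bot.mp h ▸ one_mem _)

theorem eq_zero {j : L →* G} (hj : Function.Injective j) (r : ZG G)
    (h : ∀ g, pr j (og g * r) = 0) : r = 0 := by
  refine AddSubgroup.mem_bot.mp (mem_right ⊥ ⊥ (fun g w hw => ?_) r fun g => ?_)
  · rw [Subgroup.mem_bot.mp hw]
    simp
  · rw [← tau_pr hj, h, map_zero]

theorem expand {j : L →* G} (hj : Function.Injective j) [Fintype (G ⧸ j.range)] (r : ZG G) :
    ∑ κ : G ⧸ j.range, io j (pr j (r * og κ.out)) * og κ.out⁻¹ = r := by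
  classical
  have := hom_ext (f := ∑ κ : G ⧸ j.range, (AddMonoidHom.mulRight (og κ.out⁻¹)).comp
      ((io j).toAddMonoidHom.comp ((pr j).comp (AddMonoidHom.mulRight (og κ.out)))))
    (g := AddMonoidHom.id _) fun g => by
      rw [AddMonoidHom.finsetSum_apply, Finset.sum_eq_single ((g⁻¹ : G) : G ⧸ j.range)]
      · obtain ⟨l, hl⟩ := (mk_inv_eq_iff j.range g _).mp rfl
        change io j (pr j (og g * og _)) * og _ = og g
        rw [← og_mul, ← hl, pr_mem hj, io_og, hl, ← og_mul, mul_inv_cancel_right]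
      · intro κ _ hκ
        change io j (pr j (og g * og _)) * og _ = 0
        rw [← og_mul, pr_not (mt (mk_inv_eq_iff j.range g κ).mpr hκ.symm), map_zero, zero_mul]
      · intro h
        exact absurd (Finset.mem_univ _) h
  simpa [AddMonoidHom.finsetSum_apply] using DFunLike.congr_fun this r

/-- The restricted module. -/
def Rs (_j : L →* G) (P : Type) : Type := P

section
variable (j : L →* G) {P Q : Type} [AddCommGroup P] [Module (ZG G) P] [AddCommGroup Q]
  [Module (ZG G) Q]

instance : AddCommGroup (Rs j P) := inferInstanceAs (AddCommGroup P)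

noncomputable instance : Module (ZG L) (Rs j P) := Module.compHom P (io j)

/-- The restricted map. -/
noncomputable def rmap (d : P →ₗ[ZG G] Q) : Rs j P →ₗ[ZG L] Rs j Q where
  toFun := d
  map_add' := d.map_add
  map_smul' s x := d.map_smul (io j s) x

variable {j}

/-- The restricted form. -/
noncomputable def Phi (hj : Function.Injective j) :
    (P →ₗ[ZG G] ZG G) →+ (Rs j P →ₗ[ZG L] ZG L) :=
  AddMonoidHom.mk' (fun a =>
    { toFun := fun x => pr j (a x)
      map_add' := fun x y => (congrArg (pr j) (a.map_add x y)).trans (map_add _ _ _)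
      map_smul' := fun s x => (congrArg (pr j) (a.map_smul (io j s) x)).trans (pr_left hj s _) })
    fun _ _ => LinearMap.ext fun _ => map_add (pr j) _ _

theorem Phi_comp (hj : Function.Injective j) (a : Q →ₗ[ZG G] ZG G) (d : P →ₗ[ZG G] Q) :
    Phi hj a ∘ₗ rmap j d = Phi hj (a ∘ₗ d) := rfl

theorem Phi_rm (hj : Function.Injective j) (a : P →ₗ[ZG G] ZG G) (s : ZG L) :
    rm (Phi hj a) s = Phi hj (rm a (io j s)) :=
  LinearMap.ext fun x => (pr_right hj s (a x)).symm

theorem Phi_inj (hj : Function.Injective j) : Function.Injective (Phi (P := P) hj) :=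
  (injective_iff_map_eq_zero _).mpr fun a ha => LinearMap.ext fun x => eq_zero hj _ fun g =>
    (congrArg (pr j) (a.map_smul (og g) x)).symm.trans (LinearMap.congr_fun ha (og g • x))

/-- The restricted frame. -/
noncomputable def frame (hj : Function.Injective j) [Fintype (G ⧸ j.range)] (F : Frame G P) :
    Frame L (Rs j P) where
  m := Fintype.card (Fin F.m × (G ⧸ j.range))
  e k := (og ((Fintype.equivFin _).symm k : Fin F.m × (G ⧸ j.range)).2.out⁻¹ •
    F.e ((Fintype.equivFin _).symm k : Fin F.m × (G ⧸ j.range)).1 : P)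
  j k := Phi hj (rm (F.j ((Fintype.equivFin _).symm k : Fin F.m × (G ⧸ j.range)).1)
    (og ((Fintype.equivFin _).symm k : Fin F.m × (G ⧸ j.range)).2.out))
  sum x := by
    have h := Equiv.sum_comp (Fintype.equivFin (Fin F.m × (G ⧸ j.range))).symm
      (fun k => (io j (pr j (F.j k.1 x * og k.2.out)) • og k.2.out⁻¹ • F.e k.1 : P))
    refine h.trans ?_
    rw [Fintype.sum_prod_type]
    refine Eq.trans (Finset.sum_congr rfl fun i _ => ?_) (F.sum x)
    simp only [smul_smul]
    rw [← Finset.sum_smul, expand hj]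

theorem Phi_surj (hj : Function.Injective j) [Fintype (G ⧸ j.range)] (F : Frame G P) :
    Function.Surjective (Phi (P := P) hj) := fun b => by
  rw [← (frame hj F).dual_sum b]
  refine (Phi (P := P) hj).range.sum_mem fun k _ => ?_
  exact ⟨_, (Phi_rm hj _ _).symm⟩

end

end RestrictAux

open RestrictAux in
theorem exists_restrict {G L : Type} [Group G] [Group L] (R : Res3 G) (j : L →* G)
    (hj : Function.Injective j) [j.range.FiniteIndex] (hp : ∀ l, j l ∈ R.Gp) :
    ∃ R' : Res3 L, R'.Gp = ⊤ := by
  have : Fintype (G ⧸ j.range) := Fintype.ofFinite _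
  let E : (R.P3 →ₗ[ZG G] ZG G) ≃+ (Rs j R.P3 →ₗ[ZG L] ZG L) :=
    AddEquiv.ofBijective (Phi hj) ⟨Phi_inj hj, Phi_surj hj R.F3⟩
  have hE : ∀ a, E.symm (Phi hj a) = a := E.symm_apply_apply
  let R' : Res3 L :=
    { P0 := ModuleCat.of (ZG L) (Rs j R.P0)
      P1 := ModuleCat.of (ZG L) (Rs j R.P1)
      P2 := ModuleCat.of (ZG L) (Rs j R.P2)
      P3 := ModuleCat.of (ZG L) (Rs j R.P3)
      F0 := frame (P := R.P0) hj R.F0
      F1 := frame (P := R.P1) hj R.F1
      F2 := frame (P := R.P2) hj R.F2
      F3 := frame (P := R.P3) hj R.F3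
      d1 := rmap (P := R.P1) (Q := R.P0) j R.d1
      d2 := rmap (P := R.P2) (Q := R.P1) j R.d2
      d3 := rmap (P := R.P3) (Q := R.P2) j R.d3
      eps := R.eps
      eps_smul := fun l x => by
        have := R.eps_smul (j l) x
        rw [← io_og] at this
        exact this
      r0 := R.r0
      eps_r0 := R.eps_r0
      ex0 := R.ex0
      ex1 := R.ex1
      ex2 := R.ex2
      ex3 := R.ex3
      co2 := fun a ha => by
        obtain ⟨a, rfl⟩ := Phi_surj hj R.F2 a
        obtain ⟨b, hb⟩ := R.co2 a (Phi_inj hj (ha.trans (map_zero _).symm))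
        exact ⟨Phi (P := R.P1) hj b, (Phi_comp hj b R.d2).trans (congrArg _ hb)⟩
      deg := R.deg.comp E.symm.toAddMonoidHom
      u := Phi (P := R.P3) hj R.u
      deg_u := (congrArg R.deg (hE _)).trans R.deg_u
      deg_ker := fun a => by
        obtain ⟨a, rfl⟩ := Phi_surj hj R.F3 a
        refine Iff.trans (by rw [← hE a]; exact Iff.rfl) ((R.deg_ker (E.symm (Phi hj a))).trans ?_)
        rw [hE]
        constructor
        · rintro ⟨b, hb⟩
          exact ⟨Phi (P := R.P2) hj b, (Phi_comp hj b R.d3).trans (congrArg _ hb)⟩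
        · rintro ⟨b, hb⟩
          obtain ⟨b, rfl⟩ := Phi_surj hj R.F2 b
          exact ⟨b, Phi_inj hj hb⟩ }
  refine ⟨R', (Subgroup.eq_top_iff' _).mpr fun l => Units.ext ?_⟩
  change R.deg (E.symm (rm (Phi hj R.u) (og l))) = 1
  rw [Phi_rm, hE, io_og, R.deg_rm_og (hp l), R.deg_u]

end Pool.Agent.P.MP_50f9b9_al.RP
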