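import Pool.Agent.P.MP_50f9b9_al.RP.PDI

/-! Groups whose commutators lie in the second Frattini term have rank at most three. -/

namespace Pool.Agent.P.MP_50f9b9_al.RP

/-- The extension of the homomorphisms to `ZMod p` by the constants. -/
def Aff (p : ℕ) (Γ : Type) [Group Γ] : Type := Hom ℤ Γ (ZMod p) × ZMod p

variable {Γ : Type} [Group Γ] {p : ℕ} [hp : Fact p.Prime]

instance : AddCommGroup (Aff p Γ) := inferInstanceAs (AddCommGroup (Hom ℤ Γ (ZMod p) × ZMod p))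

instance [Group.FG Γ] : Finite (Aff p Γ) := inferInstanceAs (Finite (Hom ℤ Γ (ZMod p) × ZMod p))

instance : DistribMulAction Γ (Aff p Γ) where
  smul g v := (v.1, v.2 + v.1.1 g)
  one_smul v := Prod.ext rfl (by
    change v.2 + v.1.1 1 = v.2
    rw [hom_one v.1.2, add_zero])
  mul_smul g h v := Prod.ext rfl (by
    change v.2 + v.1.1 (g * h) = v.2 + v.1.1 h + v.1.1 g
    rw [v.1.2]; ring)
  smul_zero g := Prod.ext rfl (add_zero _)
  smul_add g v u := Prod.ext rfl (by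
    change v.2 + u.2 + (v.1.1 g + u.1.1 g) = v.2 + v.1.1 g + (u.2 + u.1.1 g)
    ring)

theorem hom_nsmul (f : Hom ℤ Γ (ZMod p)) : p • f = 0 := Subtype.ext (funext fun x => by
  change p • f.1 x = 0
  simp)

theorem three (R : Res3 Γ) (hR : R.Gp = ⊤) (h : Pow2 p Γ) :
    Nat.card (Hom ℤ Γ (ZMod p)) ≤ p ^ 3 := by
  have := R.fg
  obtain ⟨k, hk⟩ := exists_card_hom (p := p) Γ
  obtain ⟨g, hg⟩ := exists_sep (1 : Γ) k (Hom ℤ Γ (ZMod p)) inferInstance hk.le
  let ev : Γ →* Multiplicative (Hom ℤ Γ (ZMod p) → ZMod p) :=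
    MonoidHom.mk' (fun x => Multiplicative.ofAdd fun f => f.1 x) fun x y =>
      funext fun f => f.2 x y
  have hN : POpen p ev.ker := ⟨inferInstance, 1, fun x => funext fun f => by
    change f.1 _ = 0
    rw [hom_pow f.2, pow_one]; simp⟩
  have h1 := pdi R hR hN (Aff p Γ) (fun q => Prod.ext (hom_nsmul q.1) (by
    change p • q.2 = 0
    simp)) fun n hn q => Prod.ext rfl (by
      change q.2 + q.1.1 n = q.2
      rw [show q.1.1 n = 0 from congrFun hn q.1, add_zero])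
  have h2 : (p ^ k) ^ k ≤ Nat.card (Der ℤ Γ (Dl p (Aff p Γ))) := by
    rw [← hk, ← card_der_triv (Tr (Dl p (Hom ℤ Γ (ZMod p)))) (Dl.nsmul_eq_zero _)
      (fun _ _ => rfl) k ((card_Dl _ hom_nsmul).trans hk)]
    exact Nat.card_le_card_of_injective (fun D => ⟨fun x => AddMonoidHom.comp (D.1 x)
      (AddMonoidHom.fst _ (ZMod p)), fun x y => by beta_reduce; rw [D.2]; rfl⟩)
      fun D D' e => Subtype.ext (funext fun x => Dl.ext fun f =>
        DFunLike.congr_fun (congrFun (Subtype.ext_iff.mp e) x) (f, 0))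
  have hB : ∀ D : Der ℤ Γ (Aff p Γ), ∀ x y, (D.1 (x * y)).1 = (D.1 x).1 + (D.1 y).1 :=
    fun D x y => congrArg Prod.fst (D.2 x y)
  have hc : ∀ D : Der ℤ Γ (Aff p Γ), ∀ x y,
      (D.1 (x * y)).2 = (D.1 x).2 + ((D.1 y).2 + (D.1 y).1.1 x) :=
    fun D x y => congrArg Prod.snd (D.2 x y)
  have hsym : ∀ D : Der ℤ Γ (Aff p Γ), ∀ x y, (D.1 x).1.1 y = (D.1 y).1.1 x := fun D x y => by
    have e1 := h (fun x => (D.1 x).2) (fun x y hx _ => by
      rw [hc, hx _ (D.1 y).1.2, add_zero]) x y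
    have e2 := hc D (x * y * x⁻¹ * y⁻¹) (y * x)
    have e3 : ∀ f ∈ Hom ℤ Γ (ZMod p), f (x * y * x⁻¹ * y⁻¹) = 0 := fun f hf => by
      rw [hf, hf, hf, hom_inv hf, hom_inv hf]; ring
    rw [e1, e3 _ (D.1 (y * x)).1.2, show x * y * x⁻¹ * y⁻¹ * (y * x) = x * y by group, hc,
      hc] at e2
    linear_combination -e2
  let Ψ : Der ℤ Γ (Aff p Γ) →+ (Sym2 (Fin k) → ZMod p) := AddMonoidHom.mk'
    (fun D => Sym2.lift ⟨fun i j => (D.1 (g i)).1.1 (g j), fun i j => hsym D _ _⟩)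
    fun D D' => funext fun s => Sym2.inductionOn s fun _ _ => rfl
  have h3 : ∀ D : Ψ.ker, ∀ x, (D.1.1 x).1 = 0 := fun D x => by
    have e1 : ∀ i, (D.1.1 (g i)).1.1 = 0 := fun i =>
      hg _ (D.1.1 (g i)).1.2 fun j => congrFun D.2 s(i, j)
    exact Subtype.ext (hg _ (D.1.1 x).1.2 fun i => by rw [hsym, e1]; rfl)
  have h4 : Nat.card Ψ.ker ≤ p ^ k := hk ▸ Nat.card_le_card_of_injective
    (fun D => (⟨fun x => (D.1.1 x).2, fun x y => by
      beta_reduce
      rw [hc, h3]; simp⟩ : Hom ℤ Γ (ZMod p)))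
    fun D D' e => Subtype.ext (Subtype.ext (funext fun x =>
      Prod.ext ((h3 D x).trans (h3 D' x).symm) (congrFun (Subtype.ext_iff.mp e) x)))
  have h5 : Nat.card Ψ.range ≤ p ^ (k + 1).choose 2 := by
    refine (Nat.card_le_card_of_injective _ Subtype.val_injective).trans_eq ?_
    rw [Nat.card_fun, Nat.card_zmod, Nat.card_eq_fintype_card, Sym2.card, Fintype.card_fin]
  rw [← h1, ← card_ker_mul Ψ] at h2
  have h6 := h2.trans (Nat.mul_le_mul h4 h5)
  rw [← pow_mul, ← pow_add, Nat.pow_le_pow_iff_right hp.out.one_lt, Nat.choose_two_right] at h6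
  rw [hk]
  refine Nat.pow_le_pow_right hp.out.pos ?_
  have h7 := Nat.div_mul_le_self ((k + 1) * (k + 1 - 1)) 2
  rw [Nat.add_sub_cancel] at h6 h7
  nlinarith

end Pool.Agent.P.MP_50f9b9_al.RP
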