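import Pool.Agent.P.MP_50f9b9_al.RP.Unit
import Pool.Agent.P.MP_50f9b9_al.RP.Three
import Pool.Agent.P.MP_50f9b9_al.RP.Betti
import Pool.Agent.P.MP_50f9b9_al.RP.End2
import Pool.Agent.P.MP_50f9b9_al.RP.CaseI
import Pool.Agent.P.MP_50f9b9_al.RP.Div
import Pool.Agent.P.MP_50f9b9_al.RP.Restrict

/-! The nested case for virtually residually `p` groups. -/

namespace Pool.Agent.P.MP_50f9b9_al.RP

variable {Γ : Type} [Group Γ] {p : ℕ} [hp : Fact p.Prime]

theorem finiteIndex_map {L : Type} [Group L] (j : L →* Γ) (hj : Function.Injective j)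
    [h : j.range.FiniteIndex] (S : Subgroup L) [hS : S.FiniteIndex] : (S.map j).FiniteIndex :=
  ⟨by rw [Subgroup.index_map_of_injective _ hj]; exact mul_ne_zero hS.1 h.1⟩

theorem virt_of_injective {L : Type} [Group L] (j : L →* Γ) (hj : Function.Injective j)
    [j.range.FiniteIndex] (h : VirtSolvable L ∨ VirtProduct L) :
    VirtSolvable Γ ∨ VirtProduct Γ := by
  rcases h with ⟨S, _, hS⟩ | ⟨S, _, A, B, _, _, hA, hB, ⟨e⟩⟩
  · exact Or.inl ⟨S.map j, finiteIndex_map j hj S, Group.isSolvable_of_surjective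
      (f := (S.equivMapOfInjective j hj).toMonoidHom) (S.equivMapOfInjective j hj).surjective⟩
  · exact Or.inr ⟨S.map j, finiteIndex_map j hj S, A, B, _, _, hA, hB,
      ⟨(S.equivMapOfInjective j hj).symm.trans e⟩⟩

theorem restrict_sub (R : Res3 Γ) (hR : R.Gp = ⊤) (L : Subgroup Γ) [L.FiniteIndex] :
    ∃ R' : Res3 L, R'.Gp = ⊤ := by
  have : L.subtype.range.FiniteIndex := by rwa [Subgroup.range_subtype]
  exact exists_restrict R L.subtype L.subtype_injective fun _ => hR ▸ Subgroup.mem_top _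

/-- The restriction of an endomorphism to an invariant subgroup. -/
def resEnd (φ : Monoid.End Γ) (L : Subgroup Γ) (h : ∀ x ∈ L, φ x ∈ L) : Monoid.End L :=
  (φ.comp L.subtype).codRestrict L fun x => h x x.2

theorem resEnd_pow (φ : Monoid.End Γ) (L : Subgroup Γ) (h : ∀ x ∈ L, φ x ∈ L) (n : ℕ) (x : L) :
    ((resEnd φ L h ^ n) x : Γ) = (φ ^ n) x := by
  induction n generalizing x with
  | zero => rfl
  | succ n ih => rw [pow_succ, pow_succ, end_mul_apply, end_mul_apply, ih]; rfl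

theorem resEnd_inj {φ : Monoid.End Γ} (hφ : Function.Injective φ) (L : Subgroup Γ)
    (h : ∀ x ∈ L, φ x ∈ L) : Function.Injective (resEnd φ L h) := fun _ _ e =>
  Subtype.ext (hφ (congrArg Subtype.val e))

theorem index_resEnd {φ : Monoid.End Γ} (hφ : Function.Injective φ) (L : Subgroup Γ)
    [hL : L.FiniteIndex] (h : ∀ x ∈ L, φ x ∈ L) : (resEnd φ L h).range.index = φ.range.index := by
  have hle : L.map φ ≤ L := by rintro _ ⟨x, hx, rfl⟩; exact h x hx
  have e1 := Subgroup.relIndex_mul_index hle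
  rw [Subgroup.index_map_of_injective _ hφ, mul_comm] at e1
  rw [← Nat.eq_of_mul_eq_mul_left (Nat.pos_of_ne_zero hL.1) e1, Subgroup.relIndex]
  congr 1
  ext x
  exact ⟨fun ⟨y, hy⟩ => ⟨y, y.2, congrArg Subtype.val hy⟩,
    fun ⟨y, hy, e⟩ => ⟨⟨y, hy⟩, Subtype.ext e⟩⟩

theorem card_kill_le (R : Res3 Γ) (hR : R.Gp = ⊤) (ϕ : Γ →* Γ) [hϕ : ϕ.range.FiniteIndex]
    (h6 : p ^ 6 ≤ Nat.card (Hom ℤ Γ (ZMod p))) : Nat.card (Kill p ϕ) ≤ p := by
  have := R.fg
  by_contra hc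
  let K : ℕ → Subgroup Γ := fun i => ϕ.range ⊔ V p Γ (i + p)
  have hK : Antitone K := fun i j hij => sup_le_sup_left (V_anti (Nat.add_le_add_right hij p)) _
  have hKo : ∀ i, POpen p (K i) := fun i => (V_popen _).mono le_sup_right
  have hb : BddAbove (Set.range fun i => (K i).index) := ⟨ϕ.range.index, by
    rintro _ ⟨i, rfl⟩
    exact Nat.le_of_dvd (Nat.pos_of_ne_zero hϕ.1) (Subgroup.index_dvd_of_le le_sup_left)⟩
  obtain ⟨i, hi⟩ := Nat.sSup_mem (Set.range_nonempty fun i => (K i).index) hb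
  have hst : ∀ j, K i ≤ K j := fun j => by
    have := (hKo (max i j)).1
    have h2 : (K (max i j)).index ≤ (K i).index := (le_csSup hb ⟨_, rfl⟩).trans_eq hi.symm
    refine le_trans ?_ (hK (le_max_right i j))
    exact ((hK (le_max_left i j)).eq_or_lt.resolve_right fun h =>
      (Subgroup.index_strictAnti h).not_ge h2).ge
  have hdec : ∀ j, ∀ x ∈ K j, ∃ y, ∃ v ∈ V p Γ (j + p), ϕ y * v = x := fun j x hx => by
    obtain ⟨_, ⟨y, rfl⟩, v, hv, e⟩ := Subgroup.mem_sup_of_normal_right.mp hx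
    exact ⟨y, v, hv, e⟩
  obtain ⟨r, hr⟩ := exists_card_hom (p := p) Γ
  rw [hr, Nat.pow_le_pow_iff_right hp.out.one_lt] at h6
  obtain ⟨r, rfl⟩ : ∃ s, r = s + 3 := ⟨r - 3, by omega⟩
  have h1 := ki2 R hR (K i) (hKo i) r hr (Kill p ϕ) (kill_le ϕ) (fun f hf x hx => by
    obtain ⟨y, v, hv, rfl⟩ := hdec i x hx
    have h2 : V p Γ p ≤ (toMon hf.1).ker := sInf_le ⟨(popen_ker' hf.1).1.1, by
      rw [Subgroup.index_ker]
      exact (Nat.card_le_card_of_injective _ Subtype.val_injective).trans_eq (by simp),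
      fun g => by
        change f _ = 0
        rw [hom_pow hf.1, nsmul_eq_mul]
        simp [hp.out.ne_zero]⟩
    rw [hf.1, hf.2, zero_add]
    exact h2 (V_anti (Nat.le_add_left p i) hv)) (not_le.mp hc)
  have := (hKo i).1
  have h2 : Nat.card (Hom ℤ (K i) (ZMod p)) ≤ Nat.card (Hom ℤ Γ (ZMod p)) :=
    Nat.card_le_card_of_injective
      (homComp (ZMod p) (ϕ.codRestrict (K i) fun x => Subgroup.mem_sup_left ⟨x, rfl⟩))
      ((injective_iff_map_eq_zero _).mpr fun f hf => Subtype.ext (funext fun x => by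
        obtain ⟨j, hj⟩ := ((hKo i).trans (popen_ker' f.2)).V_le
        obtain ⟨y, v, hv, e⟩ := hdec j x (hst j x.2)
        obtain ⟨v', hv', rfl⟩ := hj (V_anti (Nat.le_add_right j p) hv)
        have e1 : x = ⟨ϕ y, Subgroup.mem_sup_left ⟨y, rfl⟩⟩ * v' := Subtype.ext e.symm
        rw [e1, f.2, show f.1 v' = 0 from hv', add_zero]
        exact congrFun (Subtype.ext_iff.mp hf) y))
  have h3 := h1.trans h2
  rw [hr, Nat.pow_le_pow_iff_right hp.out.one_lt] at h3
  omega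

theorem finiteIndex_range_pow (φ : Monoid.End Γ) (hφ : Function.Injective φ)
    [h : φ.range.FiniteIndex] (n : ℕ) : (φ ^ n).range.FiniteIndex :=
  ⟨by rw [index_range_pow φ hφ]; exact pow_ne_zero _ h.1⟩

theorem cyc (R : Res3 Γ) (hR : R.Gp = ⊤) (φ : Monoid.End Γ) (hφ : Function.Injective φ)
    [hd : φ.range.FiniteIndex]
    (h6 : ∀ L : Subgroup Γ, POpen p L → p ^ 6 ≤ Nat.card (Hom ℤ L (ZMod p))) : Cyc p φ := by
  have := R.fg
  intro j
  obtain ⟨R', hR'⟩ := restrict_sub R hR (Cn p φ j)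
  obtain ⟨m, -, -, hm⟩ := exists_idem (p := p) φ j
  let ψ := resEnd φ (Cn p φ j) fun _ => Cn_map φ j
  have : ψ.range.FiniteIndex := ⟨by rw [index_resEnd hφ]; exact hd.1⟩
  have := finiteIndex_range_pow ψ (resEnd_inj hφ _ _) m
  obtain ⟨c, hc⟩ := exists_sep (1 : Cn p φ j) 1 (Kill p (ψ ^ m :)) inferInstance
    (by rw [pow_one]; exact card_kill_le R' hR' _ (h6 _ (Cn_popen φ j)))
  refine ⟨c 0, (c 0).2, fun x hx => ?_⟩
  obtain ⟨_, ⟨n, rfl⟩, hs⟩ := sup_eq_top_of_hom ((V p Γ j).subgroupOf (Cn p φ j))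
    ((V_popen j).comap _) (Subgroup.zpowers (c 0)) (fun f hf h1 h2 => hc f
      ⟨hf, fun y => h2 _ (Subgroup.mem_subgroupOf.mpr (resEnd_pow φ _ _ m y ▸ hm _ y.2))⟩
      fun i => by rw [Subsingleton.elim i 0]; exact h1 _ (Subgroup.mem_zpowers _)) ⟨x, hx⟩
  exact ⟨n, hs⟩

theorem growth (R : Res3 Γ) (hR : R.Gp = ⊤) (φ : Monoid.End Γ) (hφ : Function.Injective φ)
    [φ.range.FiniteIndex] (hpd : p ∣ φ.range.index)
    (h6 : p ^ 6 ≤ Nat.card (Hom ℤ Γ (ZMod p))) (j : ℕ) :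
    2 * (Cn p φ j).index ≤ Module.finrank ℝ (Hom ℝ (Cn p φ j) ℝ) := by
  have := R.fg
  obtain ⟨m, hm, hm', -⟩ := exists_idem (p := p) φ j
  have := finiteIndex_range_pow φ hφ m
  obtain ⟨r, hr⟩ := exists_card_hom (p := p) Γ
  have h7 := h6
  rw [hr, Nat.pow_le_pow_iff_right hp.out.one_lt] at h7
  obtain ⟨r, rfl⟩ : ∃ s, r = s + 3 := ⟨r - 3, by omega⟩
  refine le_finrank_of_card _ p hp.out.two_le _ fun k _ => ?_
  have h1 := unit_bound R hR (φ ^ m) (pow_injective_end φ hφ m)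
    (by rw [index_range_pow φ hφ]; exact hpd.trans (dvd_pow_self _ (by omega)))
    (fun n => by
      rw [← pow_mul]
      have := finiteIndex_range_pow φ hφ (m * n)
      exact card_kill_le R hR _ h6) (Cn p φ j) (Cn_popen φ j) hm' r hr k
  refine Nat.le_of_mul_le_mul_right (le_trans ?_ h1) (pow_pos hp.out.pos k)
  rw [← pow_succ]
  refine Nat.pow_le_pow_right (pow_pos hp.out.pos k) ?_
  have := Nat.pos_of_ne_zero (Cn_popen (p := p) φ j).1.1
  nlinarith

theorem caseII (R : Res3 Γ) (hR : R.Gp = ⊤) (hres : ResiduallyP p Γ) (φ : Monoid.End Γ)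
    (hφ : Function.Injective φ) [hd : φ.range.FiniteIndex] (hpd : p ∣ φ.range.index)
    (h6 : ∀ L : Subgroup Γ, POpen p L → p ^ 6 ≤ Nat.card (Hom ℤ L (ZMod p))) :
    VirtSolvable Γ ∨ VirtProduct Γ := by
  have := R.fg
  rcases finite_or_infinite Γ with _ | _
  · exact Or.inl ⟨⊥, inferInstance, inferInstance⟩
  have hg := growth R hR φ hφ hpd ((h6 ⊤ popen_top).trans_eq (card_hom_congr _ Subgroup.topEquiv))
  obtain ⟨a, ha1, ha⟩ := not_residual R φ hφ
    (hp.out.two_le.trans (Nat.le_of_dvd (Nat.pos_of_ne_zero hd.1) hpd)) (Cn p φ) (Cn_anti φ) hg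
  by_cases hZ : (Subgroup.centralizer {a}).FiniteIndex
  · exact end_finite hres (torsion_free R) (cyc R hR φ hφ h6) ha ha1
  · exact Or.inl (end_infinite hres (torsion_free R) (cyc R hR φ hφ h6)
      (fun j => le_trans (by omega) (hg j)) (no_Z3 R) (no_div R hR) ha ha1 hZ)

theorem core (R : Res3 Γ) (hR : R.Gp = ⊤) (hres : ResiduallyP p Γ) (φ : Monoid.End Γ)
    (hφ : Function.Injective φ) [hd : φ.range.FiniteIndex] (hpd : p ∣ φ.range.index)
    (ψ : Γ → ℤ) (hψ : ψ ∈ Hom ℤ Γ ℤ) (hψ0 : ψ ≠ 0) : VirtSolvable Γ ∨ VirtProduct Γ := by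
  have := R.fg
  by_cases hb : ∀ L : Subgroup Γ, POpen p L → Nat.card (Hom ℤ L (ZMod p)) ≤ p ^ 7
  · refine Or.inl (caseI hres ψ hψ hψ0 (exists_deep 7 hb) fun L hL h => ?_)
    have := hL.1
    obtain ⟨R', hR'⟩ := restrict_sub R hR L
    exact three R' hR' h
  push Not at hb
  obtain ⟨L, hL, hb⟩ := hb
  have := hL.1
  obtain ⟨r, hr⟩ := exists_card_hom (p := p) L
  rw [hr, Nat.pow_lt_pow_iff_right hp.out.one_lt] at hb
  obtain ⟨r, rfl⟩ : ∃ s, r = s + 3 := ⟨r - 3, by omega⟩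
  obtain ⟨RL, hRL⟩ := restrict_sub R hR L
  obtain ⟨j, hj⟩ := hL.V_le
  obtain ⟨R', hR'⟩ := restrict_sub R hR (V p Γ j)
  have : (V p Γ j).subtype.range.FiniteIndex := by rw [Subgroup.range_subtype]; infer_instance
  have : (resEnd φ (V p Γ j) fun _ => V_map φ j).range.FiniteIndex :=
    ⟨by rw [index_resEnd hφ]; exact hd.1⟩
  refine virt_of_injective (V p Γ j).subtype (V p Γ j).subtype_injective (caseII R' hR'
    (hres.of_injective _ (V p Γ j).subtype_injective) (resEnd φ (V p Γ j) fun _ => V_map φ j)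
    (resEnd_inj hφ _ _) (by rwa [index_resEnd hφ]) fun K hK => ?_)
  have h1 := ki1 RL hRL _ (((V_popen j).trans hK).comap L.subtype) r hr
  rw [card_hom_congr _ (K.equivMapOfInjective _ (V p Γ j).subtype_injective),
    ← card_hom_congr _ (Subgroup.subgroupOfEquivOfLe ((Subgroup.map_subtype_le K).trans hj))]
  exact (Nat.pow_le_pow_right hp.out.pos (by omega)).trans h1

theorem main (G : Type) [Group G] (hG : IsPD3 G) (H K : Subgroup G) [H.FiniteIndex] (hKH : K ≤ H)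
    (e : H ≃* K) (p : ℕ) (hp : p.Prime) (hpd : p ∣ K.relIndex H) (W : Subgroup G)
    [W.FiniteIndex] (hW : ResiduallyP p W) : VirtSolvable G ∨ VirtProduct G := by
  have : Fact p.Prime := ⟨hp⟩
  obtain ⟨RN⟩ := nonempty_resN hG
  obtain ⟨R⟩ := RN.nonempty_res3
  have := R.fg
  obtain ⟨W', _, f, hf⟩ := final G hG H K (hKH.lt_of_ne fun h => by
    rw [h, Subgroup.relIndex_self, Nat.dvd_one] at hpd
    exact hp.ne_one hpd) e
  let φ : Monoid.End H := (Subgroup.inclusion hKH).comp e.toMonoidHom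
  have hφ : Function.Injective φ := (Subgroup.inclusion_injective hKH).comp e.injective
  have hd : φ.range.FiniteIndex := R.strebel H φ hφ
  have hr : φ.range = K.subgroupOf H := by
    ext x
    exact ⟨fun ⟨y, hy⟩ => hy ▸ (e y).2, fun hx => ⟨e.symm ⟨x, hx⟩, Subtype.ext
      (congrArg Subtype.val (e.apply_symm_apply ⟨x, hx⟩) :)⟩⟩
  let S := (R.Gp ⊓ W ⊓ W').subgroupOf H
  let Γ := Wk H S.index
  have hΓ : Γ ≤ S := Wk_le S le_rfl
  let j : Γ →* G := H.subtype.comp Γ.subtype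
  have hj : Function.Injective j := H.subtype_injective.comp Γ.subtype_injective
  have : H.subtype.range.FiniteIndex := by rwa [Subgroup.range_subtype]
  have hjf : j.range.FiniteIndex := by
    rw [MonoidHom.range_comp, Subgroup.range_subtype]
    exact finiteIndex_map _ H.subtype_injective Γ
  obtain ⟨R', hR'⟩ := exists_restrict R j hj fun l => (hΓ l.2).1.1
  have : (resEnd φ Γ (Wk_inv _ φ)).range.FiniteIndex := ⟨by rw [index_resEnd hφ]; exact hd.1⟩
  refine virt_of_injective j hj (core R' hR'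
    (hW.of_injective (j.codRestrict W fun l => (hΓ l.2).1.2) fun _ _ h =>
      hj (Subtype.ext_iff.mp h :)) (resEnd φ Γ (Wk_inv _ φ)) (resEnd_inj hφ _ _)
    (by rw [index_resEnd hφ, hr]; exact hpd)
    (fun x => (f (j.codRestrict W' (fun l => (hΓ l.2).2) x)).toAdd)
    (fun x y => by beta_reduce; rw [map_mul, map_mul, toAdd_mul]) fun h0 => ?_)
  obtain ⟨x, hx⟩ := hf (Multiplicative.ofAdd 1)
  obtain ⟨n, hn, -, y, hy⟩ := Subgroup.exists_pow_mem_of_index_ne_zero hjf.1 (x : G)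
  have h1 : (f (j.codRestrict W' (fun l => (hΓ l.2).2) y)).toAdd = 0 := congrFun h0 y
  rw [show j.codRestrict W' (fun l => (hΓ l.2).2) y = x ^ n from Subtype.ext hy, map_pow, hx] at h1
  simp at h1
  omega

end Pool.Agent.P.MP_50f9b9_al.RP
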