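import Pool.Agent.P.MP_50f9b9_al.RP.PDI

/-! The growth inequality for the first Betti number modulo `p` of open subgroups. -/

namespace Pool.Agent.P.MP_50f9b9_al.RP

variable {Γ : Type} [Group Γ] {p : ℕ} [hp : Fact p.Prime]

theorem card_fix_eq {A B : Type} [AddCommGroup A] [AddCommGroup B] [DistribMulAction Γ A]
    [DistribMulAction Γ B] (e : A →+ B) (he : ∀ (g : Γ) a, e (g • a) = g • e a)
    (hb : Function.Bijective e) : Nat.card (Fix Γ A) = Nat.card (Fix Γ B) :=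
  Nat.card_congr (Equiv.ofBijective (fun a => ⟨e a.1, fun g => by rw [← he, a.2 g]⟩)
    ⟨fun _ _ h => Subtype.ext (hb.1 (Subtype.ext_iff.mp h :)), fun b => by
      obtain ⟨a, ha⟩ := hb.2 b.1
      exact ⟨⟨a, fun g => hb.1 (by rw [he, ha, b.2 g])⟩, Subtype.ext ha⟩⟩)

open Classical in
/-- The point masses. -/
noncomputable def dlt {X : Type} (A : Type) [AddCommGroup A] (x : X) : A →+ Perm X A :=
  AddMonoidHom.single (fun _ : X => A) x

theorem smul_dlt {X A : Type} [MulAction Γ X] [AddCommGroup A] (g : Γ) (x : X) (a : A) :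
    g • dlt A x a = dlt A (g • x) a := by
  classical
  funext y
  change Pi.single (M := fun _ => A) x a (g⁻¹ • y) = Pi.single (M := fun _ => A) (g • x) a y
  simp only [Pi.single_apply, inv_smul_eq_iff]

theorem sum_dlt {X A : Type} [Fintype X] [AddCommGroup A] (f : Perm X A) :
    ∑ x, dlt A x (f x) = f := by
  classical
  exact Finset.univ_sum_single f

theorem sum_dlt_mul {X A : Type} [Fintype X] [CommRing A] (y : X) (t : A) (c : X → A) :
    ∑ x, dlt A y t x * c x = t * c y := by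
  classical
  change ∑ x, Pi.single (M := fun _ => A) y t x * c x = _
  simp [Pi.single_apply]

theorem sum_dlt_one {X A : Type} [Fintype X] [CommRing A] (y : X) (t : A) :
    ∑ x, dlt A y t x = t := by
  simpa using sum_dlt_mul y t fun _ => 1

theorem perm_triv (K : Subgroup Γ) (A : Type) [AddCommGroup A] (n : Γ) (hn : n ∈ K.normalCore)
    (f : Perm (Γ ⧸ K) A) : n • f = f := by
  funext x
  obtain ⟨x, rfl⟩ := QuotientGroup.mk_surjective x
  refine congrArg f (QuotientGroup.eq.mpr ?_)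
  simpa [mul_assoc] using hn x⁻¹

theorem perm_nsmul {X : Type} (f : Perm X (ZMod p)) : p • f = 0 := funext fun x => by
  change p • f x = 0
  simp

theorem ki (R : Res3 Γ) (hR : R.Gp = ⊤) (K : Subgroup Γ) (hK : POpen p K) (r : ℕ)
    (hr : Nat.card (Hom ℤ Γ (ZMod p)) = p ^ (r + 3)) (U : Type) [AddCommGroup U]
    [DistribMulAction Γ U] (π : Perm (Γ ⧸ K) (ZMod p) →+ U)
    (hπ : ∀ (g : Γ) f, π (g • f) = g • π f) (hπ' : Function.Surjective π) :
    Nat.card (Fix Γ U) ^ r * p ≤ Nat.card (Hom ℤ K (ZMod p)) := by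
  have := R.fg
  have := hK.1
  have := Fintype.ofFinite (Γ ⧸ K)
  let M := Perm (Γ ⧸ K) (ZMod p)
  let w : {S : AddSubgroup M // ∀ g : Γ, ∀ x ∈ S, g • x ∈ S} → ℕ := fun S =>
    Nat.card (@Fix Γ _ (M ⧸ S.1) _ (quoAct S.1 S.2))
  have : Nonempty {S : AddSubgroup M // ∀ g : Γ, ∀ x ∈ S, g • x ∈ S} := ⟨⟨⊤, fun _ _ _ => trivial⟩⟩
  obtain ⟨S, hS⟩ := Finite.exists_max w
  have hW : ∀ (C : Type) [AddCommGroup C] [DistribMulAction Γ C] (q : M →+ C),
      (∀ (g : Γ) f, q (g • f) = g • q f) → Function.Surjective q → Nat.card (Fix Γ C) ≤ w S :=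
    fun C _ _ q hq hq' => by
    have hk : ∀ g : Γ, ∀ x ∈ q.ker, g • x ∈ q.ker := fun g x hx => by
      rw [AddMonoidHom.mem_ker, hq, AddMonoidHom.mem_ker.mp hx, smul_zero]
    let := quoAct (Γ := Γ) q.ker hk
    rw [← card_fix_eq (QuotientAddGroup.quotientKerEquivOfSurjective q hq').toAddMonoidHom
      (fun g a => by
        obtain ⟨a, rfl⟩ := QuotientAddGroup.mk_surjective a
        exact hq g a) (QuotientAddGroup.quotientKerEquivOfSurjective q hq').bijective]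
    exact hS ⟨_, hk⟩
  let := quoAct (Γ := Γ) S.1 S.2
  let Q := M ⧸ S.1
  have hQ : ∀ q : Q, p • q = 0 := fun q => by
    obtain ⟨q, rfl⟩ := QuotientAddGroup.mk_surjective q
    rw [← QuotientAddGroup.mk_nsmul, perm_nsmul, QuotientAddGroup.mk_zero]
  have hw : Nat.card (Fix Γ Q) = w S := rfl
  obtain ⟨e, he⟩ := exists_card_eq_pow (Tr (Fix Γ Q)) fun q => Subtype.ext (hQ _)
  have hw' : w S = p ^ e := he
  have h1 : Nat.card (Der ℤ Γ (Tr (Fix Γ Q))) = w S ^ (r + 3) := by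
    rw [card_der_triv (Tr (Fix Γ Q)) (fun q => Subtype.ext (hQ _)) (fun _ _ => rfl) e he, hr, hw',
      ← pow_mul, ← pow_mul, mul_comm]
  have h2 : w S ^ (r + 3) * Nat.card Q ≤ Nat.card (Der ℤ Γ Q) * (w S * w S) := by
    let := quoAct (Γ := Γ) (Fix Γ Q) fun g x hx => by rwa [hx g]
    have h3 := card_der_le (Γ := Γ) (A := Tr (Fix Γ Q)) (Fix Γ Q).subtype
      (QuotientAddGroup.mk' (Fix Γ Q)) (fun g a => (a.2 g).symm) (fun _ _ => rfl)
      Subtype.val_injective fun b => (QuotientAddGroup.eq_zero_iff b).trans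
        ⟨fun h => ⟨⟨b, h⟩, rfl⟩, fun ⟨c, hc⟩ => hc ▸ c.2⟩
    rw [h1] at h3
    refine h3.trans (Nat.mul_le_mul_left _ (Nat.mul_le_mul le_rfl ?_))
    exact (AddSubgroup.card_le_of_le inf_le_left).trans (hW _
      ((QuotientAddGroup.mk' (Fix Γ Q)).comp (QuotientAddGroup.mk' S.1)) (fun _ _ => rfl)
      ((QuotientAddGroup.mk'_surjective _).comp (QuotientAddGroup.mk'_surjective _)))
  have h4 : Nat.card (Der ℤ Γ (Dl p Q)) * Nat.card M ≤
      Nat.card (Der ℤ Γ M) * (Nat.card Q * w S) := by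
    let i : Dl p Q →+ M := AddMonoidHom.mk' (fun l x => l ((dlt (ZMod p) x 1 : M) : Q))
      fun _ _ => rfl
    have hi : ∀ (g : Γ) a, i (g • a) = g • i a := fun g a => funext fun x => by
      change a ((g⁻¹ • dlt (ZMod p) x 1 : M) : Q) = _
      rw [smul_dlt]; rfl
    have hi' : Function.Injective i := (injective_iff_map_eq_zero i).mpr fun l hl =>
      Dl.ext fun q => by
      obtain ⟨f, rfl⟩ := QuotientAddGroup.mk_surjective q
      rw [← sum_dlt f, ← QuotientAddGroup.mk'_apply, map_sum, map_sum]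
      refine Finset.sum_eq_zero fun x _ => ?_
      have e1 : f x = (f x).val • (1 : ZMod p) := by simp
      rw [e1, map_nsmul, map_nsmul, map_nsmul]
      exact smul_eq_zero_of_right _ (congrFun hl x)
    let := quoAct (Γ := Γ) i.range (by rintro g _ ⟨a, rfl⟩; exact ⟨g • a, hi g a⟩)
    have h3 := card_der_le (Γ := Γ) i (QuotientAddGroup.mk' i.range) hi (fun _ _ => rfl) hi'
      fun b => QuotientAddGroup.eq_zero_iff b
    rw [card_Dl Q hQ] at h3
    refine h3.trans (Nat.mul_le_mul_left _ (Nat.mul_le_mul le_rfl ?_))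
    exact (AddSubgroup.card_le_of_le inf_le_left).trans (hW _ (QuotientAddGroup.mk' i.range)
      (fun _ _ => rfl) (QuotientAddGroup.mk'_surjective _))
  rw [← pdi R hR hK.normalCore Q hQ fun n hn q => by
    obtain ⟨q, rfl⟩ := QuotientAddGroup.mk_surjective q
    exact congrArg _ (perm_triv K _ n hn q)] at h4
  have h5 : Nat.card (Der ℤ Γ M) * _ = _ * Nat.card M := card_shap ℤ K (ZMod p)
  rw [Nat.card_zmod] at h5
  have hpos : 0 < w S ^ 3 * (Nat.card Q * Nat.card M) :=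
    mul_pos (pow_pos Nat.card_pos 3) (mul_pos Nat.card_pos Nat.card_pos)
  refine (Nat.mul_le_mul_right p (Nat.pow_le_pow_left (hW U π hπ hπ') r)).trans
    (Nat.le_of_mul_le_mul_right ?_ hpos)
  calc _ = (w S ^ (r + 3) * Nat.card Q) * Nat.card M * p := by ring
    _ ≤ (Nat.card (Der ℤ Γ Q) * (w S * w S)) * Nat.card M * p := by gcongr
    _ = (Nat.card (Der ℤ Γ Q) * Nat.card M) * (w S * w S) * p := by ring
    _ ≤ (Nat.card (Der ℤ Γ M) * (Nat.card Q * w S)) * (w S * w S) * p := by gcongr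
    _ = (Nat.card (Der ℤ Γ M) * p) * (w S ^ 3 * Nat.card Q) := by ring
    _ = _ := by rw [h5]; ring

theorem ki1 (R : Res3 Γ) (hR : R.Gp = ⊤) (K : Subgroup Γ) (hK : POpen p K) (r : ℕ)
    (hr : Nat.card (Hom ℤ Γ (ZMod p)) = p ^ (r + 3)) :
    p ^ (r + 1) ≤ Nat.card (Hom ℤ K (ZMod p)) := by
  classical
  have := hK.1
  have := Fintype.ofFinite (Γ ⧸ K)
  have h := ki R hR K hK r hr (Tr (ZMod p))
    (AddMonoidHom.mk' (fun f => (∑ x, f x : ZMod p)) fun _ _ => Finset.sum_add_distrib)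
    (fun g f => Equiv.sum_comp (MulAction.toPerm g⁻¹) f)
    fun a => ⟨dlt (ZMod p) ((1 : Γ) : Γ ⧸ K) a, sum_dlt_one (A := ZMod p) _ _⟩
  have h1 : Nat.card (Fix Γ (Tr (ZMod p))) = p :=
    (Nat.card_congr (Equiv.subtypeUnivEquiv fun _ _ => rfl)).trans (Nat.card_zmod p)
  rwa [h1, ← pow_succ] at h

/-- A three dimensional unipotent module attached to two homomorphisms. -/
def Uni (_ : Hom ℤ Γ (ZMod p) × Hom ℤ Γ (ZMod p)) : Type := ZMod p × ZMod p × ZMod p

instance (f : Hom ℤ Γ (ZMod p) × Hom ℤ Γ (ZMod p)) : AddCommGroup (Uni f) :=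
  inferInstanceAs (AddCommGroup (ZMod p × ZMod p × ZMod p))

instance (f : Hom ℤ Γ (ZMod p) × Hom ℤ Γ (ZMod p)) : DistribMulAction Γ (Uni f) where
  smul g v := (v.1, v.2.1 + v.1 * f.1.1 g, v.2.2 + v.1 * f.2.1 g)
  one_smul v := by
    change (v.1, v.2.1 + v.1 * f.1.1 1, v.2.2 + v.1 * f.2.1 1) = v
    simp [hom_one f.1.2, hom_one f.2.2]
  mul_smul g h v := by
    change (v.1, v.2.1 + v.1 * f.1.1 (g * h), v.2.2 + v.1 * f.2.1 (g * h)) =
      (v.1, v.2.1 + v.1 * f.1.1 h + v.1 * f.1.1 g, v.2.2 + v.1 * f.2.1 h + v.1 * f.2.1 g)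
    rw [f.1.2, f.2.2]
    ext <;> simp only <;> ring
  smul_zero g := by
    change ((0, 0 + 0 * f.1.1 g, 0 + 0 * f.2.1 g) : ZMod p × ZMod p × ZMod p) = 0
    simp
  smul_add g v u := by
    change (v.1 + u.1, v.2.1 + u.2.1 + (v.1 + u.1) * f.1.1 g,
      v.2.2 + u.2.2 + (v.1 + u.1) * f.2.1 g) = (v.1 + u.1,
        v.2.1 + v.1 * f.1.1 g + (u.2.1 + u.1 * f.1.1 g),
        v.2.2 + v.1 * f.2.1 g + (u.2.2 + u.1 * f.2.1 g))
    ext <;> simp only <;> ring

theorem ki2 (R : Res3 Γ) (hR : R.Gp = ⊤) (K : Subgroup Γ) (hK : POpen p K) (r : ℕ)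
    (hr : Nat.card (Hom ℤ Γ (ZMod p)) = p ^ (r + 3)) (T : Submodule ℤ (Γ → ZMod p))
    (hT : T ≤ Hom ℤ Γ (ZMod p)) (hTK : ∀ f ∈ T, ∀ x ∈ K, f x = 0) (h : p < Nat.card T) :
    p ^ (2 * r + 1) ≤ Nat.card (Hom ℤ K (ZMod p)) := by
  classical
  have := hK.1
  have := Fintype.ofFinite (Γ ⧸ K)
  obtain ⟨f, hf, f', hf', a, b, ha, ha', hb, hb'⟩ := exists_two T hT h
  let F : Hom ℤ Γ (ZMod p) × Hom ℤ Γ (ZMod p) := (⟨f, hT hf⟩, ⟨f', hT hf'⟩)
  have hout : ∀ f ∈ T, ∀ g : Γ, f (g : Γ ⧸ K).out = f g := fun f hf g => by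
    obtain ⟨k, hk⟩ := QuotientGroup.mk_out_eq_mul K g
    rw [hk, hT hf, hTK f hf _ k.2, add_zero]
  have hsm : ∀ f ∈ T, ∀ (g : Γ) (x : Γ ⧸ K), f (g • x).out = f g + f x.out := fun f hf g x => by
    conv_lhs => rw [← QuotientGroup.out_eq' x]
    rw [← hT hf]
    exact hout f hf (g * x.out)
  let π : Perm (Γ ⧸ K) (ZMod p) →+ Uni F := AddMonoidHom.mk'
    (fun u => (∑ x, u x, ∑ x, u x * f x.out, ∑ x, u x * f' x.out)) fun u v => by
      change (∑ x, (u x + v x), ∑ x, (u x + v x) * f x.out, ∑ x, (u x + v x) * f' x.out) = _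
      simp only [add_mul, Finset.sum_add_distrib]
      rfl
  have hπ : ∀ (g : Γ) (t : ZMod p), π (dlt (ZMod p) (g : Γ ⧸ K) t) = (t, t * f g, t * f' g) :=
    fun g t => by
    refine Prod.ext (sum_dlt_one _ _) (Prod.ext ((sum_dlt_mul _ _ _).trans ?_)
      ((sum_dlt_mul _ _ _).trans ?_))
    · rw [hout f hf]
    · rw [hout f' hf']
  have h1 := ki R hR K hK r hr (Uni F) π (fun g u => by
      have e : ∀ c : Γ ⧸ K → ZMod p, ∑ x, u (g⁻¹ • x) * c x = ∑ x, u x * c (g • x) := fun c => by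
        rw [← Equiv.sum_comp (MulAction.toPerm g)]
        simp
      change (∑ x, u (g⁻¹ • x), ∑ x, u (g⁻¹ • x) * f x.out, ∑ x, u (g⁻¹ • x) * f' x.out) =
        (∑ x, u x, ∑ x, u x * f x.out + (∑ x, u x) * f g, ∑ x, u x * f' x.out + (∑ x, u x) * f' g)
      rw [e, e, show ∑ x, u (g⁻¹ • x) = _ from Equiv.sum_comp (MulAction.toPerm g⁻¹) u]
      simp only [hsm f hf, hsm f' hf', mul_add, Finset.sum_add_distrib, Finset.sum_mul, add_comm])
    fun v => ⟨dlt _ ((1 : Γ) : Γ ⧸ K) (v.1 - v.2.1 - v.2.2) + dlt _ (a : Γ ⧸ K) v.2.1 +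
      dlt _ (b : Γ ⧸ K) v.2.2, by
      rw [map_add, map_add, hπ, hπ, hπ, ha, ha', hb, hb', hom_one (hT hf), hom_one (hT hf')]
      refine Prod.ext ?_ (Prod.ext ?_ ?_)
      · change v.1 - v.2.1 - v.2.2 + v.2.1 + v.2.2 = v.1
        ring
      · change _ * 0 + v.2.1 * 1 + _ * 0 = v.2.1
        ring
      · change _ * 0 + _ * 0 + v.2.2 * 1 = v.2.2
        ring⟩
  have h2 : p ^ 2 ≤ Nat.card (Fix Γ (Uni F)) := by
    have : Finite (Uni F) := inferInstanceAs (Finite (ZMod p × ZMod p × ZMod p))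
    have := Nat.card_le_card_of_injective (α := ZMod p × ZMod p) (β := Fix Γ (Uni F))
      (fun v => ⟨(0, v), fun g => by
        change ((0, v.1 + 0 * f g, v.2 + 0 * f' g) : ZMod p × ZMod p × ZMod p) = (0, v)
        simp⟩) fun _ _ e => congrArg Prod.snd (Subtype.ext_iff.mp e :)
    rwa [Nat.card_prod, Nat.card_zmod, ← sq] at this
  rw [pow_succ, pow_mul]
  exact (Nat.mul_le_mul_right p (Nat.pow_le_pow_left h2 r)).trans h1

end Pool.Agent.P.MP_50f9b9_al.RP
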