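import Mathlib

/-! Approximation of nullities of integer matrices by moments.

Hint. The real symmetric matrix `M = Aᵀ * A` has eigenvalues in `[0, K]` (row sum bound, look at
the largest coordinate of an eigenvector). Its nullity equals that of `A` and is the number of
zero eigenvalues. The trace of `(K - M) ^ n` is the sum of `(K - λ) ^ n`, at least
`K ^ n * nullity`. For `B`: the product of the nonzero eigenvalues is, up to sign, the trailing
coefficient of the characteristic polynomial, a nonzero integer, so it is at least one; hence the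
number `c` of eigenvalues in `(0, η)` satisfies `1 ≤ η ^ c * K ^ card J`, that is
`c ≤ card J * log K / log (1 / η)`; and the trace is at most
`K ^ n * (nullity + c) + card J * (K - η) ^ n`. Choose `η` and then `n`. The case `K = 0` has
`A = 0` and `B = 0`. -/

namespace Pool.Agent.P.MP_50f9b9_al.RP

open Matrix

namespace LuckMAux

theorem trace_pow {I : Type} [Fintype I] [DecidableEq I] (M : Matrix I I ℝ) (hM : M.IsHermitian)
    (k : ℝ) (n : ℕ) :
    ((k • (1 : Matrix I I ℝ) - M) ^ n).trace = ∑ i, (k - hM.eigenvalues i) ^ n := by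
  set φ := Unitary.conjStarAlgAut ℝ (Matrix I I ℝ) hM.eigenvectorUnitary with hφ
  have h1 : M = φ (diagonal (RCLike.ofReal ∘ hM.eigenvalues)) := hM.spectral_theorem
  have h2 : (k • (1 : Matrix I I ℝ) - M) ^ n =
      φ (diagonal (fun i => (k - hM.eigenvalues i) ^ n)) := by
    have h3 : diagonal (fun i => (k - hM.eigenvalues i) ^ n) =
        (k • (1 : Matrix I I ℝ) - diagonal (RCLike.ofReal ∘ hM.eigenvalues)) ^ n := by
      have : k • (1 : Matrix I I ℝ) - diagonal (RCLike.ofReal ∘ hM.eigenvalues) =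
          diagonal (fun i => k - hM.eigenvalues i) := by
        ext i j
        by_cases h : i = j
        · subst h; simp
        · simp [h]
      rw [this, diagonal_pow]
      rfl
    rw [h3, map_pow, map_sub, map_smul, map_one, ← h1]
  rw [h2, hφ, Unitary.conjStarAlgAut_apply, trace_mul_comm, ← mul_assoc]
  simp

theorem eig_le {I : Type} [Fintype I] [DecidableEq I] (M : Matrix I I ℝ) (hM : M.IsHermitian)
    (k : ℝ) (hk : ∀ i, ∑ j, |M i j| ≤ k) (i : I) : hM.eigenvalues i ≤ k := by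
  set v : I → ℝ := ⇑(hM.eigenvectorBasis i) with hv
  have hv0 : v ≠ 0 := (WithLp.ofLp_eq_zero 2).ne.2 <| hM.eigenvectorBasis.orthonormal.ne_zero i
  have hm : M *ᵥ v = hM.eigenvalues i • v := hM.mulVec_eigenvectorBasis i
  obtain ⟨j, -, hj⟩ := Finset.exists_max_image Finset.univ (fun j => |v j|) ⟨i, Finset.mem_univ _⟩
  have hpos : 0 < |v j| := by
    obtain ⟨l, hl⟩ := Function.ne_iff.mp hv0
    exact lt_of_lt_of_le (abs_pos.mpr hl) (hj l (Finset.mem_univ _))
  have h1 : |hM.eigenvalues i| * |v j| ≤ k * |v j| := by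
    have e : hM.eigenvalues i * v j = ∑ l, M j l * v l := by
      have := congrFun hm j
      simp only [mulVec, dotProduct, Pi.smul_apply, smul_eq_mul] at this
      exact this.symm
    rw [← abs_mul, e]
    calc |∑ l, M j l * v l| ≤ ∑ l, |M j l * v l| := Finset.abs_sum_le_sum_abs _ _
      _ ≤ ∑ l, |M j l| * |v j| := by
          refine Finset.sum_le_sum fun l _ => ?_
          rw [abs_mul]
          exact mul_le_mul_of_nonneg_left (hj l (Finset.mem_univ _)) (abs_nonneg _)
      _ = (∑ l, |M j l|) * |v j| := by rw [Finset.sum_mul]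
      _ ≤ k * |v j| := mul_le_mul_of_nonneg_right (hk j) hpos.le
  exact (le_abs_self _).trans (le_of_mul_le_mul_right h1 hpos)

open Polynomial in
theorem prod_ge {I : Type} [Fintype I] [DecidableEq I] (Z : Matrix I I ℤ)
    (hM : (Z.map (Int.cast : ℤ → ℝ)).IsHermitian) :
    1 ≤ ∏ i ∈ Finset.univ.filter (fun i => hM.eigenvalues i ≠ 0), |hM.eigenvalues i| := by
  classical
  have h1 : (Z.map (Int.cast : ℤ → ℝ)).charpoly = Z.charpoly.map (Int.castRingHom ℝ) :=
    Matrix.charpoly_map Z (Int.castRingHom ℝ)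
  have h2 := hM.charpoly_eq
  set s := Finset.univ.filter (fun i => hM.eigenvalues i ≠ 0) with hs
  set t := Finset.univ.filter (fun i => ¬ hM.eigenvalues i ≠ 0) with ht
  have h3 : (Z.map (Int.cast : ℤ → ℝ)).charpoly =
      X ^ t.card * ∏ i ∈ s, (X - C (hM.eigenvalues i)) := by
    rw [h2, ← Finset.prod_filter_mul_prod_filter_not Finset.univ (fun i => hM.eigenvalues i ≠ 0),
      mul_comm]
    congr 1
    rw [← Finset.prod_const]
    refine Finset.prod_congr rfl fun i hi => ?_
    have : hM.eigenvalues i = 0 := by simpa using (Finset.mem_filter.mp hi).2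
    simp [this]
  have h4 : ((Z.charpoly.coeff t.card : ℤ) : ℝ) = ∏ i ∈ s, (-hM.eigenvalues i) := by
    have e := congrArg (fun p => p.coeff (0 + t.card)) (h1.symm.trans h3)
    simp only [coeff_X_pow_mul, coeff_map] at e
    rw [zero_add] at e
    rw [coeff_zero_eq_eval_zero, eval_prod] at e
    simpa using e
  have h5 : ∏ i ∈ s, (-hM.eigenvalues i) ≠ 0 :=
    Finset.prod_ne_zero_iff.mpr fun i hi => neg_ne_zero.mpr (Finset.mem_filter.mp hi).2
  have h6 : Z.charpoly.coeff t.card ≠ 0 := by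
    intro h
    rw [h] at h4
    exact h5 (by simpa using h4.symm)
  have h7 : (1 : ℝ) ≤ |((Z.charpoly.coeff t.card : ℤ) : ℝ)| := by
    exact_mod_cast Int.one_le_abs h6
  rw [h4, Finset.abs_prod] at h7
  simpa using h7

theorem spec {I I' : Type} [Fintype I] [DecidableEq I] [Fintype I'] (K : ℕ) (A : Matrix I' I ℤ)
    (hA : ∀ i, ∑ j, |(Aᵀ * A) i j| ≤ K) :
    ∃ l : I → ℝ, (∀ i, 0 ≤ l i ∧ l i ≤ K) ∧
      Module.finrank ℝ (LinearMap.ker (A.map (Int.cast : ℤ → ℝ)).mulVecLin) =
        (Finset.univ.filter (fun i => l i = 0)).card ∧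
      (∀ n : ℕ, (((((K : ℤ) • (1 : Matrix I I ℤ) - Aᵀ * A) ^ n).trace : ℤ) : ℝ) =
        ∑ i, ((K : ℝ) - l i) ^ n) ∧
      1 ≤ ∏ i ∈ Finset.univ.filter (fun i => l i ≠ 0), l i := by
  classical
  set R := A.map (Int.cast : ℤ → ℝ) with hR
  have hRM : (Aᵀ * A).map (Int.cast : ℤ → ℝ) = Rᵀ * R := by
    ext i j
    simp [hR, Matrix.mul_apply]
  have hP : ((Aᵀ * A).map (Int.cast : ℤ → ℝ)).PosSemidef := by
    rw [hRM]
    have := Matrix.posSemidef_conjTranspose_mul_self R
    rwa [conjTranspose_eq_transpose_of_trivial] at this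
  have hM := hP.1
  have h0 : ∀ i, 0 ≤ hM.eigenvalues i := fun i => hP.eigenvalues_nonneg i
  refine ⟨hM.eigenvalues, fun i => ⟨h0 i, ?_⟩, ?_, fun n => ?_, ?_⟩
  · refine eig_le _ hM K (fun i => ?_) i
    have := hA i
    simp only [Matrix.map_apply]
    exact_mod_cast this
  · have e1 := hM.rank_eq_card_non_zero_eigs
    have e2 : ((Aᵀ * A).map (Int.cast : ℤ → ℝ)).rank = R.rank := by
      rw [hRM, Matrix.rank_transpose_mul_self]
    have e3 := LinearMap.finrank_range_add_finrank_ker R.mulVecLin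
    have e4 : R.rank = Module.finrank ℝ (LinearMap.range R.mulVecLin) := rfl
    have e5 : Fintype.card {i // hM.eigenvalues i ≠ 0} =
        (Finset.univ.filter (fun i => ¬ hM.eigenvalues i = 0)).card := by
      rw [Fintype.card_subtype]
    have e6 := Finset.card_filter_add_card_filter_not (s := Finset.univ)
      (fun i => hM.eigenvalues i = 0)
    rw [Module.finrank_fintype_fun_eq_card] at e3
    rw [Finset.card_univ] at e6
    omega
  · rw [← trace_pow _ hM]
    have e : (((K : ℤ) • (1 : Matrix I I ℤ) - Aᵀ * A) ^ n).map (Int.cast : ℤ → ℝ) =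
        ((K : ℝ) • (1 : Matrix I I ℝ) - (Aᵀ * A).map (Int.cast : ℤ → ℝ)) ^ n := by
      have e1 := map_pow (RingHom.mapMatrix (m := I) (Int.castRingHom ℝ))
        ((K : ℤ) • (1 : Matrix I I ℤ) - Aᵀ * A) n
      simp only [RingHom.mapMatrix_apply, Int.coe_castRingHom] at e1
      rw [e1]
      congr 1
      ext i j
      simp only [Matrix.map_apply, Matrix.sub_apply, Matrix.smul_apply, Matrix.one_apply,
        smul_eq_mul, Int.cast_sub, Int.cast_mul, Int.cast_natCast]
      split_ifs <;> simp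
    rw [← e]
    simp [Matrix.trace]
  · have := prod_ge _ hM
    refine this.trans (le_of_eq ?_)
    exact Finset.prod_congr rfl fun i _ => abs_of_nonneg (h0 i)

theorem small_count {J : Type} [Fintype J] (k L : ℝ) (hk : 1 ≤ k) (l : J → ℝ)
    (hl : ∀ i, 0 ≤ l i ∧ l i ≤ k)
    (hp : 1 ≤ ∏ i ∈ Finset.univ.filter (fun i => l i ≠ 0), l i) :
    ((Finset.univ.filter (fun i => l i ≠ 0 ∧ l i < Real.exp (-L))).card : ℝ) * L ≤
      Fintype.card J * Real.log k := by
  classical
  have hlog : 0 ≤ Real.log k := Real.log_nonneg hk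
  have h1 : 0 ≤ ∑ i ∈ Finset.univ.filter (fun i => l i ≠ 0), Real.log (l i) := by
    rw [← Real.log_prod (fun i hi => (Finset.mem_filter.mp hi).2)]
    exact Real.log_nonneg hp
  have h2 : ∑ i ∈ Finset.univ.filter (fun i => l i ≠ 0), Real.log (l i) ≤
      ∑ i, (Real.log k - if l i ≠ 0 ∧ l i < Real.exp (-L) then L else 0) := by
    rw [Finset.sum_filter]
    refine Finset.sum_le_sum fun i _ => ?_
    by_cases h : l i ≠ 0
    · have hpos : 0 < l i := lt_of_le_of_ne (hl i).1 (Ne.symm h)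
      by_cases h' : l i < Real.exp (-L)
      · rw [if_pos h, if_pos ⟨h, h'⟩]
        have := Real.log_le_log hpos h'.le
        rw [Real.log_exp] at this
        linarith
      · rw [if_pos h, if_neg (fun hh => h' hh.2)]
        have := Real.log_le_log hpos (hl i).2
        linarith
    · rw [if_neg h, if_neg (fun hh => h hh.1)]
      linarith
  rw [Finset.sum_sub_distrib, ← Finset.sum_filter, Finset.sum_const, Finset.sum_const,
    Finset.card_univ, nsmul_eq_mul, nsmul_eq_mul] at h2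
  linarith

theorem lower {I : Type} [Fintype I] (k : ℝ) (l : I → ℝ) (hl : ∀ i, 0 ≤ l i ∧ l i ≤ k) (n : ℕ) :
    ((Finset.univ.filter (fun i => l i = 0)).card : ℝ) * k ^ n ≤ ∑ i, (k - l i) ^ n := by
  classical
  rw [← nsmul_eq_mul, ← Finset.sum_const, Finset.sum_filter]
  refine Finset.sum_le_sum fun i _ => ?_
  by_cases h : l i = 0
  · simp [h]
  · rw [if_neg h]
    exact pow_nonneg (sub_nonneg.mpr (hl i).2) n

theorem upper {J : Type} [Fintype J] (k η : ℝ) (hη : η ≤ k) (l : J → ℝ)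
    (hl : ∀ i, 0 ≤ l i ∧ l i ≤ k) (n : ℕ) :
    ∑ i, (k - l i) ^ n ≤ ((Finset.univ.filter (fun i => l i = 0)).card : ℝ) * k ^ n +
      ((Finset.univ.filter (fun i => l i ≠ 0 ∧ l i < η)).card : ℝ) * k ^ n +
      Fintype.card J * (k - η) ^ n := by
  classical
  rw [← nsmul_eq_mul, ← nsmul_eq_mul, ← nsmul_eq_mul, ← Finset.sum_const, ← Finset.sum_const,
    ← Finset.card_univ, ← Finset.sum_const, Finset.sum_filter, Finset.sum_filter,
    ← Finset.sum_add_distrib, ← Finset.sum_add_distrib]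
  refine Finset.sum_le_sum fun i _ => ?_
  have h0 : 0 ≤ (k - η) ^ n := pow_nonneg (sub_nonneg.mpr hη) n
  have hk : 0 ≤ k := (hl i).1.trans (hl i).2
  have h1 : (k - l i) ^ n ≤ k ^ n :=
    pow_le_pow_left₀ (sub_nonneg.mpr (hl i).2) (by linarith [(hl i).1]) n
  by_cases h : l i = 0
  · rw [if_pos h, if_neg (fun hh => hh.1 h)]
    linarith
  · by_cases h' : l i < η
    · rw [if_neg h, if_pos ⟨h, h'⟩]
      linarith
    · rw [if_neg h, if_neg (fun hh => h' hh.2)]
      have : (k - l i) ^ n ≤ (k - η) ^ n :=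
        pow_le_pow_left₀ (sub_nonneg.mpr (hl i).2) (by linarith [not_lt.mp h']) n
      linarith

end LuckMAux

theorem luck_matrix (K : ℕ) (ε : ℝ) (hε : 0 < ε) : ∃ n : ℕ, ∀ (I I' J J' : Type) [Fintype I]
    [DecidableEq I] [Fintype I'] [Fintype J] [DecidableEq J] [Fintype J'] [Nonempty I]
    [Nonempty J] (A : Matrix I' I ℤ) (B : Matrix J' J ℤ),
    (∀ i, ∑ j, |(Aᵀ * A) i j| ≤ K) → (∀ i, ∑ j, |(Bᵀ * B) i j| ≤ K) →
    (((K : ℤ) • (1 : Matrix I I ℤ) - Aᵀ * A) ^ n).trace * Fintype.card J =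
      (((K : ℤ) • (1 : Matrix J J ℤ) - Bᵀ * B) ^ n).trace * Fintype.card I →
    (Module.finrank ℝ (LinearMap.ker (A.map (Int.cast : ℤ → ℝ)).mulVecLin) : ℝ) /
        Fintype.card I ≤
      (Module.finrank ℝ (LinearMap.ker (B.map (Int.cast : ℤ → ℝ)).mulVecLin) : ℝ) /
        Fintype.card J + ε := by
  classical
  rcases Nat.eq_zero_or_pos K with hK | hK
  · refine ⟨0, fun I I' J J' _ _ _ _ _ _ _ _ A B hA hB _ => ?_⟩
    obtain ⟨a, -, ha2, -, -⟩ := LuckMAux.spec K A hA
    obtain ⟨b, hb1, hb2, -, -⟩ := LuckMAux.spec K B hB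
    have hI : (0 : ℝ) < Fintype.card I := by exact_mod_cast Fintype.card_pos
    have hJ : (0 : ℝ) < Fintype.card J := by exact_mod_cast Fintype.card_pos
    have e : Finset.univ.filter (fun i => b i = 0) = Finset.univ := by
      refine Finset.filter_true_of_mem fun i _ => le_antisymm ?_ (hb1 i).1
      simpa [hK] using (hb1 i).2
    rw [ha2, hb2, e, Finset.card_univ, div_self hJ.ne']
    have : ((Finset.univ.filter (fun i => a i = 0)).card : ℝ) / Fintype.card I ≤ 1 := by
      rw [div_le_one hI]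
      exact_mod_cast Finset.card_le_univ _
    linarith
  have hk : (1 : ℝ) ≤ K := by exact_mod_cast hK
  have hk0 : (0 : ℝ) < K := by linarith
  have hlog : 0 ≤ Real.log K := Real.log_nonneg hk
  set L : ℝ := 2 * Real.log K / ε + 1 with hL
  have hL0 : 0 < L := by positivity
  have hLε : Real.log K ≤ ε / 2 * L := by
    have : ε / 2 * L = Real.log K + ε / 2 := by rw [hL]; field_simp
    linarith
  set η : ℝ := Real.exp (-L) with hη
  have hη0 : 0 < η := Real.exp_pos _
  have hη1 : η ≤ K := by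
    have : η ≤ 1 := Real.exp_le_one_iff.mpr (by linarith)
    linarith
  obtain ⟨n, hn⟩ := exists_pow_lt_of_lt_one (half_pos hε)
    (show ((K : ℝ) - η) / K < 1 by rw [div_lt_one hk0]; linarith)
  refine ⟨n, fun I I' J J' _ _ _ _ _ _ _ _ A B hA hB ht => ?_⟩
  obtain ⟨a, ha1, ha2, ha3, -⟩ := LuckMAux.spec K A hA
  obtain ⟨b, hb1, hb2, hb3, hb4⟩ := LuckMAux.spec K B hB
  have hI : (0 : ℝ) < Fintype.card I := by exact_mod_cast Fintype.card_pos
  have hJ : (0 : ℝ) < Fintype.card J := by exact_mod_cast Fintype.card_pos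
  have ht' : (∑ i, ((K : ℝ) - a i) ^ n) * Fintype.card J =
      (∑ i, ((K : ℝ) - b i) ^ n) * Fintype.card I := by
    rw [← ha3 n, ← hb3 n]
    exact_mod_cast ht
  have h1 := LuckMAux.lower (K : ℝ) a ha1 n
  have h2 := LuckMAux.upper (K : ℝ) η hη1 b hb1 n
  have h3 := LuckMAux.small_count (K : ℝ) L hk b hb1 hb4
  rw [ha2, hb2]
  rw [← hη] at h3
  set x : ℝ := ((Finset.univ.filter (fun i => a i = 0)).card : ℝ) with hx
  set y : ℝ := ((Finset.univ.filter (fun i => b i = 0)).card : ℝ) with hy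
  set c : ℝ := ((Finset.univ.filter (fun i => b i ≠ 0 ∧ b i < η)).card : ℝ) with hc
  have hP : (0 : ℝ) < (K : ℝ) ^ n := pow_pos hk0 n
  have h4 : c ≤ Fintype.card J * (ε / 2) := by
    have : c * L ≤ Fintype.card J * (ε / 2) * L := by
      calc c * L ≤ Fintype.card J * Real.log K := h3
        _ ≤ Fintype.card J * (ε / 2 * L) := mul_le_mul_of_nonneg_left hLε hJ.le
        _ = Fintype.card J * (ε / 2) * L := by ring
    exact le_of_mul_le_mul_right this hL0
  have h5 : ((K : ℝ) - η) ^ n ≤ ε / 2 * (K : ℝ) ^ n := by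
    rw [div_pow, div_lt_iff₀ hP] at hn
    exact hn.le
  have h6 : ∑ i, ((K : ℝ) - b i) ^ n ≤ (y + Fintype.card J * ε) * (K : ℝ) ^ n := by
    have e1 : c * (K : ℝ) ^ n ≤ Fintype.card J * (ε / 2) * (K : ℝ) ^ n :=
      mul_le_mul_of_nonneg_right h4 hP.le
    have e2 : Fintype.card J * ((K : ℝ) - η) ^ n ≤ Fintype.card J * (ε / 2 * (K : ℝ) ^ n) :=
      mul_le_mul_of_nonneg_left h5 hJ.le
    nlinarith
  have h7 : x * Fintype.card J * (K : ℝ) ^ n ≤
      (y + Fintype.card J * ε) * Fintype.card I * (K : ℝ) ^ n := by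
    calc x * Fintype.card J * (K : ℝ) ^ n = x * (K : ℝ) ^ n * Fintype.card J := by ring
      _ ≤ (∑ i, ((K : ℝ) - a i) ^ n) * Fintype.card J := mul_le_mul_of_nonneg_right h1 hJ.le
      _ = (∑ i, ((K : ℝ) - b i) ^ n) * Fintype.card I := ht'
      _ ≤ (y + Fintype.card J * ε) * (K : ℝ) ^ n * Fintype.card I :=
          mul_le_mul_of_nonneg_right h6 hI.le
      _ = _ := by ring
  have h8 := le_of_mul_le_mul_right h7 hP
  have e : y / Fintype.card J + ε = (y + Fintype.card J * ε) / Fintype.card J := by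
    field_simp
  rw [e, div_le_div_iff₀ hI hJ]
  exact h8

end Pool.Agent.P.MP_50f9b9_al.RP
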