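import Pool.Agent.P.MP_50f9b9_al.RP.Pres
import Pool.Agent.P.MP_50f9b9_al.RP.LuckM

/-! Approximation for matrices over the group ring acting on permutation modules.

Hint. `permMat X r` is the integer matrix by which `r` acts on functions on `X`. It is additive
and multiplicative in `r`, `permMat X (zinv r)` is the transpose, the sum of the absolute values
of a row is at most the sum of the absolute values of the coefficients of `r`, and the trace is
`card X * (coefficient of r at 1)` when the other elements of the support of `r` have no fixed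
point. For a matrix `A` over the group ring form the block matrix on `Fin b × X`; its product
with its transpose is the block matrix of `A* * A`, `A* i j = zinv (A j i)`. Take for `S` the
union of the supports of the diagonal entries of `(K - A* * A) ^ n` and use `luck_matrix` with
`ε / b` (for `b = 0` both sides vanish). -/

namespace Pool.Agent.P.MP_50f9b9_al.RP

variable {Γ : Type} [Group Γ]

/-- The action of the group ring on a module. -/
noncomputable def zact {Q : Type} [AddCommGroup Q] [DistribMulAction Γ Q] (q : Q) : ZG Γ →+ Q :=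
  ext fun g => g • q

@[simp] theorem zact_og {Q : Type} [AddCommGroup Q] [DistribMulAction Γ Q] (q : Q) (g : Γ) :
    zact q (og g) = g • q := ext_og _ _

/-- The solutions of a linear system over the group ring in a real permutation module. -/
def Sol {a b : Type} [Fintype b] (A : a → b → ZG Γ) (X : Type) [MulAction Γ X] :
    Submodule ℝ (b → Perm X ℝ) where
  carrier := {q | ∀ i, ∑ j, zact (q j) (A i j) = 0}
  add_mem' := fun {p q} hp hq i => by
    have h : ∀ (u v : Perm X ℝ) (r : ZG Γ), zact (u + v) r = zact u r + zact v r := fun u v r => by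
      induction r using zg_ind with
      | h0 => simp
      | hsub a b ha hb => simp only [map_sub, ha, hb]; abel
      | hog g => simp
    simp only [Pi.add_apply, h, Finset.sum_add_distrib, hp i, hq i, add_zero]
  zero_mem' := fun i => by
    have h : ∀ r : ZG Γ, zact (0 : Perm X ℝ) r = 0 := fun r => by
      induction r using zg_ind with
      | h0 => simp
      | hsub a b ha hb => simp only [map_sub, ha, hb, sub_zero]
      | hog g => simp
    simp only [Pi.zero_apply, h, Finset.sum_const_zero]
  smul_mem' := fun t q hq i => by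
    have h : ∀ (u : Perm X ℝ) (r : ZG Γ), zact (t • u) r = t • zact u r := fun u r => by
      induction r using zg_ind with
      | h0 => simp
      | hsub a b ha hb => simp only [map_sub, ha, hb, smul_sub]
      | hog g => simp only [zact_og]; exact smul_comm g t u
    simp only [Pi.smul_apply, h, ← Finset.smul_sum, hq i, smul_zero]

namespace LuckGAux

open Matrix

/-- The permutation matrix of a group element. -/
def pm (X : Type) [DecidableEq X] [MulAction Γ X] (g : Γ) : Matrix X X ℤ :=
  Matrix.of fun x y => if g • y = x then 1 else 0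

theorem pm_one (X : Type) [DecidableEq X] [MulAction Γ X] : pm X (1 : Γ) = 1 := by
  ext x y
  simp [pm, Matrix.one_apply, eq_comm]

theorem pm_mul (X : Type) [Fintype X] [DecidableEq X] [MulAction Γ X] (g h : Γ) :
    pm X (g * h) = pm X g * pm X h := by
  ext x y
  simp only [pm, Matrix.of_apply, Matrix.mul_apply, mul_ite, mul_one, mul_zero]
  rw [Finset.sum_ite_eq]
  simp [mul_smul]

theorem pm_inv (X : Type) [DecidableEq X] [MulAction Γ X] (g : Γ) :
    pm X g⁻¹ = (pm X g)ᵀ := by
  ext x y
  simp only [pm, Matrix.of_apply, Matrix.transpose_apply, inv_smul_eq_iff]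
  simp only [eq_comm]

theorem ext_pm_mul (X : Type) [Fintype X] [DecidableEq X] [MulAction Γ X] (r s : ZG Γ) :
    ext (pm X) (r * s) = ext (pm X) r * ext (pm X) s := by
  induction r using zg_ind with
  | h0 => simp
  | hsub a b ha hb => simp only [sub_mul, map_sub, ha, hb]
  | hog g =>
    induction s using zg_ind with
    | h0 => simp
    | hsub a b ha hb => simp only [mul_sub, map_sub, ha, hb]
    | hog h => rw [← og_mul, ext_og, ext_og, ext_og, pm_mul]

/-- The matrix representation of the group ring. -/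
noncomputable def permMat (X : Type) [Fintype X] [DecidableEq X] [MulAction Γ X] :
    ZG Γ →+* Matrix X X ℤ where
  toFun := ext (pm X)
  map_one' := by rw [← og_one, ext_og, pm_one]
  map_mul' := ext_pm_mul X
  map_zero' := map_zero _
  map_add' := map_add _

theorem permMat_og (X : Type) [Fintype X] [DecidableEq X] [MulAction Γ X] (g : Γ) :
    permMat X (og g) = pm X g := ext_og _ _

theorem permMat_zinv (X : Type) [Fintype X] [DecidableEq X] [MulAction Γ X] (r : ZG Γ) :
    permMat X (zinv r) = (permMat X r)ᵀ := by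
  induction r using zg_ind with
  | h0 => simp
  | hsub a b ha hb => simp only [map_sub, ha, hb, transpose_sub]
  | hog g => rw [zinv_og, permMat_og, permMat_og, pm_inv]

theorem exists_row (r : ZG Γ) : ∃ K : ℕ, ∀ (X : Type) [Fintype X] [DecidableEq X]
    [MulAction Γ X] (x : X), ∑ y, |permMat X r x y| ≤ K := by
  induction r using zg_ind with
  | h0 => exact ⟨0, fun X _ _ _ x => by simp⟩
  | hsub a b ha hb =>
    obtain ⟨K, hK⟩ := ha
    obtain ⟨L, hL⟩ := hb
    refine ⟨K + L, fun X _ _ _ x => ?_⟩
    calc ∑ y, |permMat X (a - b) x y| ≤ ∑ y, (|permMat X a x y| + |permMat X b x y|) := by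
          refine Finset.sum_le_sum fun y _ => ?_
          rw [map_sub, Matrix.sub_apply]
          exact abs_sub _ _
      _ ≤ ((K + L : ℕ) : ℤ) := by
          rw [Finset.sum_add_distrib]
          push_cast
          exact add_le_add (hK X x) (hL X x)
  | hog g =>
    refine ⟨1, fun X _ _ _ x => le_of_eq ?_⟩
    have h : ∀ y, |permMat X (og g) x y| = if g⁻¹ • x = y then 1 else 0 := fun y => by
      rw [permMat_og]
      simp only [pm, Matrix.of_apply, inv_smul_eq_iff]
      by_cases h : g • y = x
      · rw [if_pos h, if_pos h.symm]; simp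
      · rw [if_neg h, if_neg (fun e => h e.symm)]; simp
    simp only [h]
    rw [Finset.sum_ite_eq]
    simp

theorem exists_trace (r : ZG Γ) : ∃ (S : Finset Γ) (c : ℤ), ∀ (X : Type) [Fintype X]
    [DecidableEq X] [MulAction Γ X], (∀ s ∈ S, s ≠ 1 → ∀ x : X, s • x ≠ x) →
    (permMat X r).trace = c * Fintype.card X := by
  classical
  induction r using zg_ind with
  | h0 => exact ⟨∅, 0, fun X _ _ _ _ => by simp⟩
  | hsub a b ha hb =>
    obtain ⟨S, c, hS⟩ := ha
    obtain ⟨T, d, hT⟩ := hb
    refine ⟨S ∪ T, c - d, fun X _ _ _ h => ?_⟩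
    rw [map_sub, trace_sub, hS X fun s hs => h s (Finset.mem_union_left _ hs),
      hT X fun s hs => h s (Finset.mem_union_right _ hs), sub_mul]
  | hog g =>
    by_cases hg : g = 1
    · refine ⟨∅, 1, fun X _ _ _ _ => ?_⟩
      rw [hg, og_one, map_one, trace_one, one_mul]
    · refine ⟨{g}, 0, fun X _ _ _ h => ?_⟩
      rw [permMat_og, zero_mul]
      refine Finset.sum_eq_zero fun x _ => ?_
      exact if_neg (h g (Finset.mem_singleton_self g) hg x)

/-- The block matrix of a matrix over the group ring. -/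
noncomputable def blk {a b : Type} (X : Type) [Fintype X] [DecidableEq X] [MulAction Γ X]
    (A : Matrix a b (ZG Γ)) : Matrix (a × X) (b × X) ℤ :=
  Matrix.of fun p q => permMat X (A p.1 q.1) p.2 q.2

/-- The block matrix as a ring homomorphism. -/
noncomputable def blkHom (b X : Type) [Fintype b] [DecidableEq b] [Fintype X] [DecidableEq X]
    [MulAction Γ X] : Matrix b b (ZG Γ) →+* Matrix (b × X) (b × X) ℤ :=
  (Matrix.compRingEquiv b X ℤ).toRingHom.comp (permMat X).mapMatrix

theorem blkHom_eq {b : Type} (X : Type) [Fintype b] [DecidableEq b] [Fintype X] [DecidableEq X]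
    [MulAction Γ X] (A : Matrix b b (ZG Γ)) : blkHom b X A = blk X A := rfl

theorem blk_gram {a b : Type} [Fintype a] (X : Type) [Fintype X] [DecidableEq X] [MulAction Γ X]
    (A : Matrix a b (ZG Γ)) :
    (blk X A)ᵀ * blk X A = blk X (Matrix.of fun j k => ∑ i, zinv (A i j) * A i k) := by
  ext p q
  simp only [blk, Matrix.mul_apply, transpose_apply, Matrix.of_apply, map_sum, map_mul,
    permMat_zinv, Matrix.sum_apply, Fintype.sum_prod_type]

theorem blk_row {b : Type} [Fintype b] (M : Matrix b b (ZG Γ)) : ∃ K : ℕ, ∀ (X : Type)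
    [Fintype X] [DecidableEq X] [MulAction Γ X] (p : b × X), ∑ q, |blk X M p q| ≤ K := by
  choose K hK using fun j k => exists_row (M j k)
  refine ⟨∑ j, ∑ k, K j k, fun X _ _ _ p => ?_⟩
  rw [Fintype.sum_prod_type]
  push_cast
  calc ∑ k, ∑ y, |blk X M p (k, y)| ≤ ∑ k, (K p.1 k : ℤ) :=
        Finset.sum_le_sum fun k _ => hK p.1 k X p.2
    _ ≤ ∑ j, ∑ k, (K j k : ℤ) :=
        Finset.single_le_sum (f := fun j => ∑ k, (K j k : ℤ))
          (fun j _ => Finset.sum_nonneg fun k _ => Int.natCast_nonneg _) (Finset.mem_univ p.1)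

theorem blk_trace {b : Type} [Fintype b] (M : Matrix b b (ZG Γ)) : ∃ (S : Finset Γ) (c : ℤ),
    ∀ (X : Type) [Fintype X] [DecidableEq X] [MulAction Γ X],
    (∀ s ∈ S, s ≠ 1 → ∀ x : X, s • x ≠ x) → (blk X M).trace = c * Fintype.card X := by
  obtain ⟨S, c, h⟩ := exists_trace (∑ j, M j j)
  refine ⟨S, c, fun X _ _ _ hX => ?_⟩
  rw [← h X hX, map_sum, trace_sum]
  simp only [Matrix.trace, Matrix.diag_apply, Fintype.sum_prod_type, blk, Matrix.of_apply]

theorem zact_apply (X : Type) [Fintype X] [DecidableEq X] [MulAction Γ X] (q : Perm X ℝ)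
    (r : ZG Γ) (x : X) : zact q r x = ∑ y, (permMat X r x y : ℝ) * q y := by
  induction r using zg_ind with
  | h0 => simp only [map_zero, Matrix.zero_apply, Int.cast_zero, zero_mul,
      Finset.sum_const_zero]; rfl
  | hsub a b ha hb =>
    have e : zact q (a - b) x = zact q a x - zact q b x := by rw [map_sub]; rfl
    rw [e, ha, hb, ← Finset.sum_sub_distrib]
    refine Finset.sum_congr rfl fun y _ => ?_
    rw [map_sub, Matrix.sub_apply, Int.cast_sub, sub_mul]
  | hog g =>
    rw [zact_og, Perm.smul_apply, permMat_og, Finset.sum_eq_single (g⁻¹ • x)]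
    · simp [pm]
    · intro y _ hy
      have : ¬ g • y = x := fun e => hy (by rw [← e, inv_smul_smul])
      simp [pm, this]
    · simp

/-- Uncurrying. -/
def unc (b X : Type) : (b → Perm X ℝ) ≃ₗ[ℝ] (b × X → ℝ) where
  toFun q p := q p.1 p.2
  invFun v j x := v (j, x)
  map_add' _ _ := rfl
  map_smul' _ _ := rfl
  left_inv _ := rfl
  right_inv _ := rfl

theorem finrank_sol {a b : Type} [Fintype b] (A : a → b → ZG Γ) (X : Type) [Fintype X]
    [DecidableEq X] [MulAction Γ X] : Module.finrank ℝ (Sol A X) = Module.finrank ℝ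
      (LinearMap.ker ((blk X (Matrix.of A)).map (Int.cast : ℤ → ℝ)).mulVecLin) := by
  have key : ∀ q : b → Perm X ℝ, q ∈ Sol A X ↔ unc b X q ∈
      LinearMap.ker ((blk X (Matrix.of A)).map (Int.cast : ℤ → ℝ)).mulVecLin := fun q => by
    have h : ∀ i x, (∑ j, zact (q j) (A i j)) x =
        ((blk X (Matrix.of A)).map (Int.cast : ℤ → ℝ)).mulVecLin (unc b X q) (i, x) :=
      fun i x => by
      have e : (∑ j, zact (q j) (A i j)) x = ∑ j, zact (q j) (A i j) x :=
        Finset.sum_apply x Finset.univ fun j => (zact (q j) (A i j) : X → ℝ)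
      rw [e]
      simp only [zact_apply, mulVecLin_apply, mulVec, dotProduct, Fintype.sum_prod_type,
        Matrix.map_apply, blk, Matrix.of_apply]
      rfl
    rw [LinearMap.mem_ker]
    constructor
    · intro hq
      funext p
      rw [← h p.1 p.2, hq p.1]
      rfl
    · intro hq i
      funext x
      rw [h i x, hq]
      rfl
  have e : LinearMap.ker ((blk X (Matrix.of A)).map (Int.cast : ℤ → ℝ)).mulVecLin =
      (Sol A X).map (unc b X : (b → Perm X ℝ) →ₗ[ℝ] (b × X → ℝ)) := by
    ext v
    obtain ⟨q, rfl⟩ := (unc b X).surjective v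
    rw [← key, Submodule.mem_map]
    constructor
    · intro hq
      exact ⟨q, hq, rfl⟩
    · rintro ⟨q', hq', e⟩
      rwa [← (unc b X).injective e]
  rw [e, LinearEquiv.finrank_map_eq]

end LuckGAux

theorem luck_sol {a b : Type} [Fintype a] [Fintype b] (A : a → b → ZG Γ) (ε : ℝ) (hε : 0 < ε) :
    ∃ S : Finset Γ, ∀ (X Y : Type) [Finite X] [Finite Y] [Nonempty X] [Nonempty Y]
      [MulAction Γ X] [MulAction Γ Y], (∀ s ∈ S, s ≠ 1 → ∀ x : X, s • x ≠ x) →
      (∀ s ∈ S, s ≠ 1 → ∀ y : Y, s • y ≠ y) →
      (Module.finrank ℝ (Sol A X) : ℝ) / Nat.card X ≤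
        (Module.finrank ℝ (Sol A Y) : ℝ) / Nat.card Y + ε := by
  classical
  rcases isEmpty_or_nonempty b with hb | hb
  · refine ⟨∅, fun X Y _ _ _ _ _ _ _ _ => ?_⟩
    rw [Module.finrank_zero_of_subsingleton, Module.finrank_zero_of_subsingleton]
    simpa using hε.le
  have hb0 : (0 : ℝ) < Fintype.card b := by exact_mod_cast Fintype.card_pos
  set M : Matrix b b (ZG Γ) :=
    Matrix.of fun j k => ∑ i, zinv (Matrix.of A i j) * Matrix.of A i k with hM
  obtain ⟨K, hK⟩ := LuckGAux.blk_row M
  obtain ⟨n, hn⟩ := luck_matrix K (ε / Fintype.card b) (div_pos hε hb0)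
  obtain ⟨S, c, hS⟩ := LuckGAux.blk_trace (((K : ℤ) • (1 : Matrix b b (ZG Γ)) - M) ^ n)
  refine ⟨S, fun X Y _ _ _ _ _ _ hX hY => ?_⟩
  let _ := Fintype.ofFinite X
  let _ := Fintype.ofFinite Y
  have tr : ∀ (Z : Type) [Fintype Z] [DecidableEq Z] [MulAction Γ Z],
      (∀ s ∈ S, s ≠ 1 → ∀ x : Z, s • x ≠ x) →
      (((K : ℤ) • (1 : Matrix (b × Z) (b × Z) ℤ) - (LuckGAux.blk Z (Matrix.of A)).transpose *
        LuckGAux.blk Z (Matrix.of A)) ^ n).trace = c * Fintype.card Z := fun Z _ _ _ hZ => by
    rw [← hS Z hZ, LuckGAux.blk_gram, ← hM, ← LuckGAux.blkHom_eq, ← LuckGAux.blkHom_eq, map_pow,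
      map_sub, map_zsmul, map_one]
  have h := hn (b × X) (a × X) (b × Y) (a × Y) (LuckGAux.blk X (Matrix.of A))
    (LuckGAux.blk Y (Matrix.of A))
    (fun p => by rw [LuckGAux.blk_gram]; exact hK X p)
    (fun p => by rw [LuckGAux.blk_gram]; exact hK Y p)
    (by
      rw [tr X hX, tr Y hY, Fintype.card_prod, Fintype.card_prod]
      push_cast
      ring)
  rw [← LuckGAux.finrank_sol, ← LuckGAux.finrank_sol, Fintype.card_prod, Fintype.card_prod] at h
  rw [Nat.card_eq_fintype_card, Nat.card_eq_fintype_card]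
  have hX0 : (0 : ℝ) < Fintype.card X := by exact_mod_cast Fintype.card_pos
  have hY0 : (0 : ℝ) < Fintype.card Y := by exact_mod_cast Fintype.card_pos
  push_cast at h
  have h2 := mul_le_mul_of_nonneg_left h hb0.le
  have e1 : (Fintype.card b : ℝ) * ((Module.finrank ℝ (Sol A X) : ℝ) /
      (Fintype.card b * Fintype.card X)) = (Module.finrank ℝ (Sol A X) : ℝ) / Fintype.card X := by
    field_simp
  have e2 : (Fintype.card b : ℝ) * ((Module.finrank ℝ (Sol A Y) : ℝ) /
      (Fintype.card b * Fintype.card Y) + ε / Fintype.card b) =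
      (Module.finrank ℝ (Sol A Y) : ℝ) / Fintype.card Y + ε := by
    field_simp
  rwa [e1, e2] at h2

end Pool.Agent.P.MP_50f9b9_al.RP
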