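import Pool.Agent.P.MP_50f9b9_al.RP.Dual
import Pool.Agent.P.MP_50f9b9_al.RP.LuckG

/-! Cochains with finite coefficients and the duality identity for derivations. -/

namespace Pool.Agent.P.MP_50f9b9_al.RP

variable {Γ : Type} [Group Γ]

section
variable {Q Q' : Type} [AddCommGroup Q] [DistribMulAction Γ Q] [AddCommGroup Q']
  [DistribMulAction Γ Q'] {P P' : Type} [AddCommGroup P] [Module (ZG Γ) P] [AddCommGroup P']
  [Module (ZG Γ) P']

theorem zact_og_mul (q : Q) (g : Γ) (r : ZG Γ) : zact q (og g * r) = g • zact q r := by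
  induction r using zg_ind with
  | h0 => simp
  | hsub a b ha hb => simp only [mul_sub, map_sub, ha, hb, smul_sub]
  | hog h => simp [← og_mul, mul_smul]

theorem zact_mul_og (q : Q) (g : Γ) (r : ZG Γ) : zact q (r * og g) = zact (g • q) r := by
  induction r using zg_ind with
  | h0 => simp
  | hsub a b ha hb => simp only [sub_mul, map_sub, ha, hb]
  | hog h => simp [← og_mul, mul_smul]

theorem zact_map (π : Q →+ Q') (hπ : ∀ (g : Γ) q, π (g • q) = g • π q) (q : Q) (r : ZG Γ) :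
    π (zact q r) = zact (π q) r := by
  induction r using zg_ind with
  | h0 => simp
  | hsub a b ha hb => simp only [map_sub, ha, hb]
  | hog h => simp [hπ]

theorem zact_add (q q' : Q) (r : ZG Γ) : zact (q + q') r = zact q r + zact q' r := by
  induction r using zg_ind with
  | h0 => simp
  | hsub a b ha hb => simp only [map_sub, ha, hb]; abel
  | hog h => simp

theorem zact_triv {q : Q} (hq : ∀ g : Γ, g • q = q) (r : ZG Γ) : zact q r = tau ⊤ r • q := by
  induction r using zg_ind with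
  | h0 => simp
  | hsub a b ha hb => simp only [map_sub, ha, hb, sub_smul]
  | hog h => simp [hq, tau_og_mem _ (Subgroup.mem_top h)]

variable (Γ) in
/-- Cochains. -/
noncomputable abbrev Co (P : Type) [AddCommGroup P] [Module (ZG Γ) P] (Q : Type) [AddCommGroup Q]
    [DistribMulAction Γ Q] : Submodule ℤ (P →+ Q) := Hm ℤ (la (Γ := Γ) P) Q

theorem Co_smul (c : Co Γ P Q) (r : ZG Γ) (x : P) : c.1 (r • x) = zact (c.1 x) r := by
  induction r using zg_ind with
  | h0 => simp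
  | hsub a b ha hb => simp only [sub_smul, map_sub, ha, hb]
  | hog h => rw [zact_og]; exact c.2 h x

/-- The cochain given by a linear form and a vector. -/
noncomputable def el (a : P →ₗ[ZG Γ] ZG Γ) : Q →+ Co Γ P Q :=
  AddMonoidHom.mk' (fun q => ⟨(zact q).comp a.toAddMonoidHom, fun g x => by
    simp [zact_og_mul]⟩) fun q q' => Subtype.ext (AddMonoidHom.ext fun x => zact_add q q' _)

@[simp] theorem el_apply (a : P →ₗ[ZG Γ] ZG Γ) (q : Q) (x : P) :
    (el a q).1 x = zact q (a x) := rfl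

theorem Co_ext {c c' : Co Γ P Q} (h : ∀ x, c.1 x = c'.1 x) : c = c' :=
  Subtype.ext (AddMonoidHom.ext h)

theorem el_add (a b : P →ₗ[ZG Γ] ZG Γ) (q : Q) : el (a + b) q = el a q + el b q :=
  Co_ext fun x => by simp

theorem el_rm_og (a : P →ₗ[ZG Γ] ZG Γ) (g : Γ) (q : Q) : el (rm a (og g)) q = el a (g • q) :=
  Co_ext fun x => by simp [zact_mul_og]

theorem el_sum (F : Frame Γ P) (c : Co Γ P Q) : ∑ i, el (F.j i) (c.1 (F.e i)) = c :=
  Co_ext fun x => by
    conv_rhs => rw [← F.sum x, map_sum]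
    simp [AddMonoidHom.finsetSum_apply, Co_smul]

theorem finite_Co (F : Frame Γ P) [Finite Q] : Finite (Co Γ P Q) :=
  Finite.of_injective (fun (c : Co Γ P Q) i => c.1 (F.e i)) fun c c' h => by
    rw [← el_sum F c, ← el_sum F c']
    exact Finset.sum_congr rfl fun i _ => congrArg _ (congrFun h i)

variable (P) in
/-- Change of coefficients. -/
noncomputable def coMap (π : Q →+ Q') (hπ : ∀ (g : Γ) q, π (g • q) = g • π q) : Co Γ P Q →+ Co Γ P Q' :=
  AddMonoidHom.mk' (fun c => ⟨π.comp c.1, fun g x => by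
    rw [AddMonoidHom.comp_apply, c.2, hπ]; rfl⟩) fun _ _ => Co_ext fun x => map_add π _ _

@[simp] theorem coMap_apply (π : Q →+ Q') (hπ : ∀ (g : Γ) q, π (g • q) = g • π q) (c : Co Γ P Q)
    (x : P) : (coMap P π hπ c).1 x = π (c.1 x) := rfl

theorem coMap_inj (π : Q →+ Q') (hπ : ∀ (g : Γ) q, π (g • q) = g • π q)
    (h : Function.Injective π) : Function.Injective (coMap P π hπ) := fun _ _ e =>
  Co_ext fun x => h (DFunLike.congr_fun (congrArg Subtype.val e) x)

theorem coMap_surj (F : Frame Γ P) (π : Q →+ Q') (hπ : ∀ (g : Γ) q, π (g • q) = g • π q)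
    (h : Function.Surjective π) : Function.Surjective (coMap P π hπ) := fun c => by
  choose b hb using fun i => h (c.1 (F.e i))
  refine ⟨∑ i, el (F.j i) (b i), ?_⟩
  rw [← el_sum F c, map_sum]
  exact Finset.sum_congr rfl fun i _ => Co_ext fun x => by simp [zact_map π hπ, hb]

theorem coMap_exact {Q'' : Type} [AddCommGroup Q''] [DistribMulAction Γ Q''] (i : Q →+ Q')
    (π : Q' →+ Q'') (hi : ∀ (g : Γ) q, i (g • q) = g • i q)
    (hπ : ∀ (g : Γ) q, π (g • q) = g • π q) (hi' : Function.Injective i)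
    (hex : ∀ b, π b = 0 ↔ ∃ a, i a = b) (c : Co Γ P Q') :
    coMap P π hπ c = 0 ↔ ∃ a, coMap P i hi a = c := by
  constructor
  · intro h
    choose a ha using fun x => (hex (c.1 x)).mp (DFunLike.congr_fun (congrArg Subtype.val h) x)
    exact ⟨⟨AddMonoidHom.mk' a fun x y => hi' (by rw [map_add, ha, ha, ha, map_add]),
      fun g x => hi' (by
        change i (a _) = i (g • a x)
        rw [hi, ha, ha, c.2])⟩, Co_ext ha⟩
  · rintro ⟨a, rfl⟩
    exact Co_ext fun x => (hex _).mpr ⟨_, rfl⟩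

variable (Q) in
/-- The coboundary. -/
noncomputable def del (d : P' →ₗ[ZG Γ] P) : Co Γ P Q →+ Co Γ P' Q :=
  AddMonoidHom.mk' (fun c => ⟨c.1.comp d.toAddMonoidHom, fun g x => by
    simpa using c.2 g (d x)⟩) fun _ _ => rfl

@[simp] theorem del_apply (d : P' →ₗ[ZG Γ] P) (c : Co Γ P Q) (x : P') :
    (del Q d c).1 x = c.1 (d x) := rfl

theorem del_el (d : P' →ₗ[ZG Γ] P) (a : P →ₗ[ZG Γ] ZG Γ) (q : Q) :
    del Q d (el a q) = el (a ∘ₗ d) q := rfl

variable {p : ℕ}

/-- A functional on cochains as an equivariant map on the dual module. -/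
noncomputable def dlCo (l : Dl p (Co Γ P Q)) : Hm ℤ (ra (Γ := Γ) P) (Dl p Q) :=
  ⟨AddMonoidHom.mk' (fun a => AddMonoidHom.comp l (el a)) fun a b => Dl.ext fun q => by
    change l (el (a + b) q) = l (el a q) + l (el b q)
    rw [el_add, map_add], fun g a => Dl.ext fun q => congrArg l (el_rm_og a g⁻¹ q)⟩

theorem dlCo_apply (l : Dl p (Co Γ P Q)) (a : P →ₗ[ZG Γ] ZG Γ) (q : Q) :
    (dlCo l).1 a q = l (el a q) := rfl

theorem dlCo_bij (F : Frame Γ P) : Function.Bijective (dlCo (Γ := Γ) (p := p) (Q := Q) (P := P)) := by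
  constructor
  · intro l l' h
    refine Dl.ext fun c => ?_
    rw [← el_sum F c, map_sum, map_sum]
    refine Finset.sum_congr rfl fun i _ => ?_
    rw [← dlCo_apply, ← dlCo_apply, h]
  · intro T
    have hT : ∀ (b : P →ₗ[ZG Γ] ZG Γ) (q : Q) (r : ZG Γ), T.1 (rm b r) q = T.1 b (zact q r) :=
      fun b q r => by
      induction r using zg_ind with
      | h0 =>
        rw [show rm b 0 = 0 from (rmHom b).map_zero, map_zero, map_zero, map_zero]; rfl
      | hsub r s hr hs =>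
        rw [show rm b (r - s) = rm b r - rm b s from (rmHom b).map_sub r s, map_sub, map_sub,
          map_sub, ← hr, ← hs]; rfl
      | hog g =>
        have := T.2 g⁻¹ b
        rw [ra_apply, inv_inv] at this
        rw [this, Dl.smul_apply, inv_inv, zact_og]
    refine ⟨AddMonoidHom.mk' (fun c => ∑ i, T.1 (F.j i) (c.1 (F.e i))) fun c c' => by
      simp [Finset.sum_add_distrib], Subtype.ext (AddMonoidHom.ext fun a => Dl.ext fun q => ?_)⟩
    change ∑ i, T.1 (F.j i) (zact q (a (F.e i))) = T.1 a q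
    conv_rhs => rw [← F.dual_sum a, map_sum]
    simp only [← hT]
    exact (AddMonoidHom.finsetSum_apply _ _ _).symm

theorem Co_nsmul (h : ∀ q : Q, p • q = 0) (c : Co Γ P Q) : p • c = 0 := Co_ext fun _ => h _

end

variable {p : ℕ} [hp : Fact p.Prime]

theorem card_dres_Z1 (R : Res3 Γ) (hR : R.Gp = ⊤) (Q : Type) [AddCommGroup Q]
    [DistribMulAction Γ Q] :
    Nat.card ((dres R hR).Z1 ℤ (Dl p Q)) = Nat.card (Ann p (del Q R.d2)) := by
  symm
  refine Nat.card_congr (Equiv.ofBijective (fun l => ⟨(dlCo l.1).1,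
    (mem_dres_Z1 R hR _).mpr ⟨(dlCo l.1).2, fun b => Dl.ext fun q => l.2 (el b q)⟩⟩)
    ⟨fun l l' h => Subtype.ext ((dlCo_bij R.F2).1 (Subtype.ext (Subtype.ext_iff.mp h :))),
      fun T => ?_⟩)
  obtain ⟨l, hl⟩ := (dlCo_bij (p := p) R.F2).2 ⟨T.1, T.2.1⟩
  refine ⟨⟨l, fun c => ?_⟩, Subtype.ext (Subtype.ext_iff.mp hl :)⟩
  rw [← el_sum R.F1 c, map_sum, map_sum]
  refine Finset.sum_eq_zero fun i _ => ?_
  rw [del_el, ← dlCo_apply, hl]
  exact DFunLike.congr_fun (((mem_dres_Z1 R hR _).mp T.2).2 _) _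

theorem card_pres_Z1 (R : Res3 Γ) (Q : Type) [AddCommGroup Q] [DistribMulAction Γ Q] :
    Nat.card ((pres R).Z1 ℤ Q) = Nat.card (del Q R.d2).ker :=
  Nat.card_congr
    { toFun := fun c => ⟨⟨c.1, c.2.1⟩, Co_ext ((mem_pres_Z1 R _).mp c.2).2⟩
      invFun := fun c => ⟨c.1.1, (mem_pres_Z1 R _).mpr
        ⟨c.1.2, fun z => DFunLike.congr_fun (congrArg Subtype.val c.2) z⟩⟩
      left_inv := fun _ => rfl
      right_inv := fun _ => rfl }

theorem card_ker_mul {A B : Type} [AddCommGroup A] [AddCommGroup B] (f : A →+ B) :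
    Nat.card f.ker * Nat.card f.range = Nat.card A :=
  (card_exact (C := f.range) f.ker.subtype f.rangeRestrict Subtype.val_injective
    f.rangeRestrict_surjective fun b => by
      rw [← Subtype.coe_inj]
      exact ⟨fun h => ⟨⟨b, h⟩, rfl⟩, fun ⟨c, hc⟩ => hc ▸ c.2⟩).symm

theorem pdi_aux (R : Res3 Γ) (hR : R.Gp = ⊤) (Q : Type) [AddCommGroup Q] [DistribMulAction Γ Q]
    [Finite Q] (hQ : ∀ q : Q, p • q = 0) :
    Nat.card (Der ℤ Γ Q) * (Nat.card (Co Γ R.P0 Q) * Nat.card (Co Γ R.P2 Q)) =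
      Nat.card (Der ℤ Γ (Dl p Q)) * (Nat.card (Co Γ R.P1 Q) * Nat.card (Co Γ R.P3 Q)) := by
  have := finite_Co (Q := Q) R.F2
  have := finite_Co (Q := Q) R.F3
  have h1 : _ = Nat.card (Co Γ R.P0 Q) * _ := (pres R).card_Z1 ℤ Q
  have h2 : _ = Nat.card (Hm ℤ (ra (Γ := Γ) R.P3) (Dl p Q)) * _ := (dres R hR).card_Z1 ℤ (Dl p Q)
  rw [card_pres_Z1] at h1
  rw [card_dres_Z1, card_Dl Q hQ, ← Nat.card_congr (Equiv.ofBijective _ (dlCo_bij R.F3)),
    card_Dl _ (Co_nsmul hQ)] at h2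
  rw [← card_ker_mul (del Q R.d2), ← card_Ann (Co_nsmul hQ) (del Q R.d2)]
  calc _ = (Nat.card (Co Γ R.P0 Q) * Nat.card (Der ℤ Γ Q)) * Nat.card (Ann p (del Q R.d2)) *
        Nat.card (del Q R.d2).range := by ring
    _ = Nat.card (del Q R.d2).ker * (Nat.card (Ann p (del Q R.d2)) * Nat.card Q) *
        Nat.card (del Q R.d2).range := by rw [← h1]; ring
    _ = _ := by rw [h2]; ring

theorem card_Co_pow {P : Type} [AddCommGroup P] [Module (ZG Γ) P] (F : Frame Γ P)
    {N : Subgroup Γ} (hN : POpen p N) (e : ℕ) (Q : Type) [AddCommGroup Q] [DistribMulAction Γ Q]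
    [Finite Q] (he : Nat.card Q = p ^ e) (ht : ∀ n ∈ N, ∀ q : Q, n • q = q) :
    Nat.card (Co Γ P Q) = Nat.card (Co Γ P (Tr (ZMod p))) ^ e :=
  mult_pow hN (fun Q _ _ => Nat.card (Co Γ P Q))
    (fun _ _ _ _ => Nat.card_eq_one_iff_unique.mpr
      ⟨⟨fun _ _ => Co_ext fun _ => Subsingleton.elim _ _⟩, ⟨0⟩⟩)
    (fun _ _ _ _ _ _ _ i π hi hπ hi' hπ' hex _ => card_exact (coMap P i hi) (coMap P π hπ)
      (coMap_inj i hi hi') (coMap_surj F π hπ hπ') (coMap_exact i π hi hπ hi' hex)) e Q he ht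

theorem tr_nsmul (q : Tr (ZMod p)) : p • q = 0 := by
  change p • (show ZMod p from q) = 0
  simp

theorem pdi (R : Res3 Γ) (hR : R.Gp = ⊤) {N : Subgroup Γ} (hN : POpen p N) (Q : Type)
    [AddCommGroup Q] [DistribMulAction Γ Q] [Finite Q] (hQ : ∀ q : Q, p • q = 0)
    (ht : ∀ n ∈ N, ∀ q : Q, n • q = q) :
    Nat.card (Der ℤ Γ Q) = Nat.card (Der ℤ Γ (Dl p Q)) := by
  have := R.fg
  have h0 := pdi_aux R hR (Tr (ZMod p)) tr_nsmul
  have hc : Nat.card (Tr (ZMod p)) = p ^ 1 := by rw [pow_one]; exact Nat.card_zmod p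
  rw [card_der_triv _ tr_nsmul (fun _ _ => rfl) 1 hc, card_der_triv _ (Dl.nsmul_eq_zero _)
    (fun _ _ => rfl) 1 ((card_Dl _ tr_nsmul).trans hc)] at h0
  replace h0 := Nat.eq_of_mul_eq_mul_left (pow_pos Nat.card_pos 1) h0
  obtain ⟨e, he⟩ := exists_card_eq_pow Q hQ
  have h1 := pdi_aux R hR Q hQ
  rw [card_Co_pow R.F0 hN e Q he ht, card_Co_pow R.F1 hN e Q he ht, card_Co_pow R.F2 hN e Q he ht,
    card_Co_pow R.F3 hN e Q he ht, ← mul_pow, ← mul_pow, h0] at h1
  have := finite_Co (Q := Tr (ZMod p)) R.F1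
  have := finite_Co (Q := Tr (ZMod p)) R.F3
  exact Nat.eq_of_mul_eq_mul_right (pow_pos (mul_pos Nat.card_pos Nat.card_pos) e) h1

end Pool.Agent.P.MP_50f9b9_al.RP
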