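import Pool.Agent.P.MP_50f9b9_al.RP.Base

/-! The two ends of the resolution, Shapiro's lemma in degree one and a counting inequality. -/

namespace Pool.Agent.P.MP_50f9b9_al.RP

variable {Γ : Type} [Group Γ]

/-- The inversion of the group ring. -/
noncomputable def zinv : ZG Γ →+ ZG Γ := ext fun g => og g⁻¹

@[simp] theorem zinv_og (g : Γ) : zinv (og g) = og g⁻¹ := ext_og _ _

theorem zinv_mul_og (r : ZG Γ) (g : Γ) : zinv (r * og g) = og g⁻¹ * zinv r := by
  induction r using zg_ind with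
  | h0 => simp
  | hsub a b ha hb => simp only [sub_mul, mul_sub, map_sub, ha, hb]
  | hog h => simp [← og_mul]

theorem tau_zinv (W : Subgroup Γ) (r : ZG Γ) : tau W (zinv r) = tau W r := by
  classical
  induction r using zg_ind with
  | h0 => simp
  | hsub a b ha hb => simp only [map_sub, ha, hb]
  | hog h => simp [tau_og]

theorem exists_al (R : Res3 Γ) : ∃ α : R.P0 →+ ZG Γ, (∀ g x, α (og g • x) = og g * α x) ∧
    ∀ x, tau ⊤ (α x) = R.eps x := by
  obtain ⟨α, hα, hα'⟩ := R.F0.exists_lift (M := ZG Γ) ⊤ (fun g => g) (fun _ _ => rfl)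
    (((tau ⊤).comp (AddMonoidHom.snd R.P0 (ZG Γ))).eqLocus
      (R.eps.comp (AddMonoidHom.fst R.P0 (ZG Γ))))
    (fun h x y e => by
      change tau ⊤ _ = R.eps _ at e ⊢
      simpa [R.eps_smul, tau_left ⊤ h.2] using e)
    (fun x => ⟨R.eps x • 1, by
      change tau ⊤ (R.eps x • og (1 : Γ)) = R.eps x
      rw [map_zsmul, tau_og_mem _ (Subgroup.mem_top _)]; simp⟩)
  exact ⟨α, fun g x => hα ⟨g, trivial⟩ x, hα'⟩

/-- The bottom of the resolution. -/
noncomputable def pres (R : Res3 Γ) : PRes Γ R.P1 R.P0 where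
  a1 := la R.P1
  a0 := la R.P0
  a0_mul g h x := by simp [og_mul, mul_smul]
  d := R.d1.toAddMonoidHom
  d_a g y := by simp
  eps := R.eps
  eps_a := R.eps_smul
  r0 := R.r0
  eps_r0 := R.eps_r0
  ex := R.ex0
  al := (exists_al R).choose
  al_a := (exists_al R).choose_spec.1
  tau_al := (exists_al R).choose_spec.2

/-- The bottom of the dual resolution, for an orientable group. -/
noncomputable def dres (R : Res3 Γ) (hR : R.Gp = ⊤) :
    PRes Γ (R.P2 →ₗ[ZG Γ] ZG Γ) (R.P3 →ₗ[ZG Γ] ZG Γ) where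
  a1 := ra R.P2
  a0 := ra R.P3
  a0_mul g h x := by ext y : 1; simp [og_mul, mul_assoc]
  d := AddMonoidHom.mk' (fun b => b ∘ₗ R.d3) fun _ _ => rfl
  d_a g y := rfl
  eps := R.deg
  eps_a g x := R.deg_rm_og (hR ▸ Subgroup.mem_top _) x
  r0 := R.u
  eps_r0 := R.deg_u
  ex := R.deg_ker
  al := AddMonoidHom.mk' (fun a => zinv (a (R.exists_fund ⊤ hR.ge).choose)) fun a b => by simp
  al_a g x := by simp [zinv_mul_og]
  tau_al x := (tau_zinv _ _).trans ((R.exists_fund ⊤ hR.ge).choose_spec x)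

section
variable {k : Type} [CommRing k] {Q : Type} [AddCommGroup Q] [Module k Q] [DistribMulAction Γ Q]
  [SMulCommClass Γ k Q]

theorem mem_pres_Z1 (R : Res3 Γ) (c : R.P1 →+ Q) : c ∈ (pres R).Z1 k Q ↔
    c ∈ Hm k (la (Γ := Γ) R.P1) Q ∧ ∀ z, c (R.d2 z) = 0 :=
  and_congr_right fun _ => ⟨fun h z => h _ (R.d1_d2 z), fun h y hy => by
    obtain ⟨z, rfl⟩ := (R.ex1 y).mp hy
    exact h z⟩

theorem mem_dres_Z1 (R : Res3 Γ) (hR : R.Gp = ⊤) (T : (R.P2 →ₗ[ZG Γ] ZG Γ) →+ Q) :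
    T ∈ (dres R hR).Z1 k Q ↔
      T ∈ Hm k (ra (Γ := Γ) R.P2) Q ∧ ∀ b : R.P1 →ₗ[ZG Γ] ZG Γ, T (b ∘ₗ R.d2) = 0 :=
  and_congr_right fun _ => ⟨fun h b => h _ (LinearMap.ext fun z => by
    change b (R.d2 (R.d3 z)) = 0
    rw [R.d2_d3, map_zero]), fun h y hy => by
    obtain ⟨b, rfl⟩ := R.co2 y hy
    exact h b⟩

end

section Shapiro
variable (k : Type) [CommRing k] (K : Subgroup Γ) (A : Type) [AddCommGroup A] [Module k A]

/-- The homomorphism on the stabiliser attached to a derivation. -/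
def shap : Der k Γ (Perm (Γ ⧸ K) A) →ₗ[k] Hom k K A where
  toFun D := ⟨fun x => D.1 x ((1 : Γ) : Γ ⧸ K), fun x y => by
    beta_reduce
    rw [Subgroup.coe_mul, D.2]
    change _ + D.1 y ((x : Γ)⁻¹ • ((1 : Γ) : Γ ⧸ K)) = _
    have e : (x : Γ)⁻¹ • ((1 : Γ) : Γ ⧸ K) = ((1 : Γ) : Γ ⧸ K) :=
      QuotientGroup.eq.mpr (by simp)
    rw [e]⟩
  map_add' _ _ := rfl
  map_smul' _ _ := rfl

theorem shap_apply (D : Der k Γ (Perm (Γ ⧸ K) A)) (x : K) :
    (shap k K A D).1 x = D.1 x ((1 : Γ) : Γ ⧸ K) := rfl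

theorem shap_eq_zero (D : Der k Γ (Perm (Γ ⧸ K) A)) :
    shap k K A D = 0 ↔ ∃ f, pr k Γ (Perm (Γ ⧸ K) A) f = D := by
  constructor
  · intro h
    have h0 : ∀ x ∈ K, D.1 x ((1 : Γ) : Γ ⧸ K) = 0 := fun x hx =>
      congrFun (congrArg Subtype.val h) ⟨x, hx⟩
    have h1 : ∀ g h x : Γ, D.1 (g * h) (x : Γ ⧸ K) = D.1 g x + D.1 h ((g⁻¹ * x : Γ) : Γ ⧸ K) :=
      fun g h x => by rw [D.2]; rfl
    refine ⟨fun c => Quotient.liftOn' c (fun g => -D.1 g (g : Γ ⧸ K)) fun a b hab => ?_,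
      Subtype.ext (funext fun h => funext fun c => ?_)⟩
    · rw [QuotientGroup.leftRel_apply] at hab
      have e : (b : Γ ⧸ K) = a := (QuotientGroup.eq.mpr hab).symm
      have := h1 a (a⁻¹ * b) a
      rw [mul_inv_cancel_left, inv_mul_cancel, h0 _ hab, add_zero] at this
      rw [e, this]
    · obtain ⟨g, rfl⟩ := QuotientGroup.mk_surjective c
      change -D.1 (h⁻¹ * g) ((h⁻¹ * g : Γ) : Γ ⧸ K) - -D.1 g (g : Γ ⧸ K) = D.1 h (g : Γ ⧸ K)
      have := h1 h (h⁻¹ * g) g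
      rw [mul_inv_cancel_left] at this
      rw [this]
      abel
  · rintro ⟨f, rfl⟩
    refine Subtype.ext (funext fun x => ?_)
    change f ((x : Γ)⁻¹ • ((1 : Γ) : Γ ⧸ K)) - f _ = 0
    rw [sub_eq_zero]
    congr 1
    exact QuotientGroup.eq.mpr (by simp)

theorem shap_surj : Function.Surjective (shap k K A) := fun l => by
  have hm : ∀ g : Γ, ((g : Γ ⧸ K).out)⁻¹ * g ∈ K := fun g =>
    QuotientGroup.eq.mp (QuotientGroup.out_eq' _)
  let F : Γ → A := fun g => l.1 ⟨_, hm g⟩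
  have hF : ∀ (g : Γ) (x : K), F (g * x) = F g + l.1 x := fun g x => by
    have e : ((g * x : Γ) : Γ ⧸ K) = g := QuotientGroup.eq.mpr (by simp)
    rw [← l.2]
    exact congrArg l.1 (Subtype.ext (by simp [e, mul_assoc]))
  let D : Γ → Perm (Γ ⧸ K) A := fun h c => F c.out - F (h⁻¹ * c.out)
  have hD : ∀ h g : Γ, D h (g : Γ ⧸ K) = F g - F (h⁻¹ * g) := fun h g => by
    have e1 := hF (g : Γ ⧸ K).out ⟨_, hm g⟩
    have e2 := hF (h⁻¹ * (g : Γ ⧸ K).out) ⟨_, hm g⟩
    simp only [mul_assoc, mul_inv_cancel_left] at e1 e2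
    rw [e1, e2]
    change F _ - F _ = _
    abel
  refine ⟨⟨D, fun g h => funext fun c => ?_⟩, Subtype.ext (funext fun x => ?_)⟩
  · obtain ⟨x, rfl⟩ := QuotientGroup.mk_surjective c
    change D (g * h) (x : Γ ⧸ K) = D g (x : Γ ⧸ K) + D h ((g⁻¹ * x : Γ) : Γ ⧸ K)
    rw [hD, hD, hD, mul_inv_rev, mul_assoc]
    abel
  · change D x ((1 : Γ) : Γ ⧸ K) = l.1 x
    have e := hF (x : Γ)⁻¹ x
    rw [inv_mul_cancel] at e
    rw [hD, mul_one, e]
    abel

/-- Constant functions. -/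
def cst (X : Type) : A →ₗ[k] Perm X A where
  toFun a := fun _ => a
  map_add' _ _ := rfl
  map_smul' _ _ := rfl

theorem pr_eq_zero (f : Perm (Γ ⧸ K) A) :
    pr k Γ (Perm (Γ ⧸ K) A) f = 0 ↔ ∃ a, cst k A (Γ ⧸ K) a = f := by
  constructor
  · intro h
    refine ⟨f ((1 : Γ) : Γ ⧸ K), funext fun c => ?_⟩
    obtain ⟨g, rfl⟩ := QuotientGroup.mk_surjective c
    have : f (g⁻¹ • (g : Γ ⧸ K)) - f g = 0 :=
      congrFun (congrFun (congrArg Subtype.val h) g) (g : Γ ⧸ K)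
    rw [sub_eq_zero] at this
    rw [← this]
    exact congrArg f (QuotientGroup.eq.mpr (by simp))
  · rintro ⟨a, rfl⟩
    exact Subtype.ext (funext fun g => funext fun c => sub_self a)

theorem cst_inj : Function.Injective (cst k A (Γ ⧸ K)) := fun _ _ h =>
  congrFun h ((1 : Γ) : Γ ⧸ K)

theorem card_shap : Nat.card (Der k Γ (Perm (Γ ⧸ K) A)) * Nat.card A =
    Nat.card (Hom k K A) * Nat.card (Perm (Γ ⧸ K) A) := by
  let B := LinearMap.range (pr k Γ (Perm (Γ ⧸ K) A))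
  have h1 := card_exact B.subtype.toAddMonoidHom (shap k K A).toAddMonoidHom Subtype.val_injective
    (shap_surj k K A) fun D => (shap_eq_zero k K A D).trans
      ⟨fun h => ⟨(⟨D, h⟩ : B), rfl⟩, fun ⟨(b : B), hb⟩ => (show b.1 = D from hb) ▸ b.2⟩
  let q : Perm (Γ ⧸ K) A →ₗ[k] B := (pr k Γ (Perm (Γ ⧸ K) A)).rangeRestrict
  have h2 := card_exact (C := B) (cst k A (Γ ⧸ K)).toAddMonoidHom q.toAddMonoidHom
    (cst_inj k K A)
    (LinearMap.surjective_rangeRestrict _) fun f => by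
      rw [← Subtype.coe_inj]
      exact pr_eq_zero k K A f
  rw [h1, h2]
  ring

theorem finrank_shap (k : Type) [Field k] (K : Subgroup Γ) [K.FiniteIndex]
    [FiniteDimensional k (Der k Γ (Perm (Γ ⧸ K) k))] :
    Module.finrank k (Der k Γ (Perm (Γ ⧸ K) k)) + 1 =
      Module.finrank k (Hom k K k) + K.index := by
  let B := LinearMap.range (pr k Γ (Perm (Γ ⧸ K) k))
  have : FiniteDimensional k (Perm (Γ ⧸ K) k) := inferInstanceAs (FiniteDimensional k (_ → k))
  have h1 := finrank_exact B.subtype (shap k K k) Subtype.val_injective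
    (shap_surj k K k) fun D => (shap_eq_zero k K k D).trans
      ⟨fun h => ⟨(⟨D, h⟩ : B), rfl⟩, fun ⟨(b : B), hb⟩ => (show b.1 = D from hb) ▸ b.2⟩
  let q : Perm (Γ ⧸ K) k →ₗ[k] B := (pr k Γ (Perm (Γ ⧸ K) k)).rangeRestrict
  have h2 := finrank_exact (C := B) (cst k k (Γ ⧸ K)) q (cst_inj k K k)
    (LinearMap.surjective_rangeRestrict _) fun f => by
      rw [← Subtype.coe_inj]
      exact pr_eq_zero k K k f
  have h3 : Module.finrank k (Perm (Γ ⧸ K) k) = K.index := by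
    have := Fintype.ofFinite (Γ ⧸ K)
    rw [Subgroup.index, Nat.card_eq_fintype_card]
    exact Module.finrank_fintype_fun_eq_card k
  rw [h3, Module.finrank_self] at h2
  rw [h1, h2]
  ring

end Shapiro

section
variable {k : Type} [CommRing k] {Q : Type} [AddCommGroup Q] [Module k Q] [DistribMulAction Γ Q]
  [SMulCommClass Γ k Q]

theorem der_ext {S : Set Γ} (hS : Subgroup.closure S = ⊤) {D : Γ → Q} (hD : D ∈ Der k Γ Q)
    (h : ∀ s ∈ S, D s = 0) : D = 0 := by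
  funext g
  have hg : g ∈ Subgroup.closure S := hS ▸ Subgroup.mem_top g
  induction hg using Subgroup.closure_induction with
  | mem x hx => exact h x hx
  | one => exact der_one hD
  | mul x y _ _ hx hy => rw [hD, hx, hy]; simp
  | inv x _ hx =>
    have := hD x⁻¹ x
    rw [inv_mul_cancel, der_one hD, hx] at this
    simpa using this.symm

/-- Evaluation of derivations on a finite set. -/
def derEv (S : Finset Γ) : Der k Γ Q →ₗ[k] (S → Q) where
  toFun D s := D.1 s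
  map_add' _ _ := rfl
  map_smul' _ _ := rfl

theorem derEv_inj {S : Finset Γ} (hS : Subgroup.closure (S : Set Γ) = ⊤) :
    Function.Injective (derEv (k := k) (Q := Q) S) :=
  (injective_iff_map_eq_zero _).mpr fun D h =>
    Subtype.ext (der_ext hS D.2 fun s hs => congrFun h ⟨s, hs⟩)

instance [h : Group.FG Γ] [Finite Q] : Finite (Der k Γ Q) := by
  obtain ⟨S, hS⟩ := h.out
  exact Finite.of_injective _ (derEv_inj hS)

end

instance {k L A : Type} [CommRing k] [Group L] [Group.FG L] [AddCommGroup A] [Module k A]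
    [Finite A] : Finite (Hom k L A) :=
  Finite.of_injective (fun f : Hom k L A => (⟨f.1, f.2⟩ : Der ℤ L (Tr A))) fun _ _ h =>
    Subtype.ext (congrArg Subtype.val h)

theorem card_der_tr (A : Type) [AddCommGroup A] :
    Nat.card (Der ℤ Γ (Tr A)) = Nat.card (Hom ℤ Γ A) := rfl

/-- The counting inequality for a short exact sequence of finite modules. -/
theorem card_der_le [Group.FG Γ] {A B C : Type} [AddCommGroup A] [AddCommGroup B]
    [AddCommGroup C] [DistribMulAction Γ A] [DistribMulAction Γ B] [DistribMulAction Γ C]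
    [Finite B] (i : A →+ B) (π : B →+ C) (hi : ∀ (g : Γ) a, i (g • a) = g • i a)
    (hπ : ∀ (g : Γ) b, π (g • b) = g • π b) (hi' : Function.Injective i)
    (hex : ∀ b, π b = 0 ↔ ∃ a, i a = b) :
    Nat.card (Der ℤ Γ A) * Nat.card B ≤
      Nat.card (Der ℤ Γ B) * (Nat.card A * Nat.card (Fix Γ C ⊓ π.range : AddSubgroup C)) := by
  let ι : Der ℤ Γ A →+ Der ℤ Γ B := AddMonoidHom.mk'
    (fun D => ⟨fun g => i (D.1 g), fun g h => by beta_reduce; rw [D.2, map_add, hi]⟩) fun D D' =>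
      Subtype.ext (funext fun g => map_add i _ _)
  let Ξ : Der ℤ Γ A × B →+ Der ℤ Γ B := ι.coprod (pr ℤ Γ B).toAddMonoidHom
  let T : AddSubgroup B := (Fix Γ C).comap π
  have h1 := card_exact Ξ.ker.subtype Ξ.rangeRestrict Subtype.val_injective
    Ξ.rangeRestrict_surjective fun b => Subtype.ext_iff.trans
      ⟨fun h => ⟨⟨b, h⟩, rfl⟩, fun ⟨c, hc⟩ => hc ▸ c.2⟩
  have hk : ∀ b : Ξ.ker, ∀ g, i (b.1.1.1 g) + (g • b.1.2 - b.1.2) = 0 := fun b g =>
    congrFun (congrArg Subtype.val b.2) g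
  have h2 : Nat.card Ξ.ker ≤ Nat.card T :=
    Nat.card_le_card_of_injective (fun b => ⟨b.1.2, fun g => by
      have := congrArg π (hk b g)
      rwa [map_add, (hex _).mpr ⟨_, rfl⟩, zero_add, map_sub, hπ, map_zero, sub_eq_zero] at this⟩)
      fun b b' h => by
        have e : b.1.2 = b'.1.2 := congrArg Subtype.val h
        refine Subtype.ext (Prod.ext (Subtype.ext (funext fun g => hi' ?_)) e)
        have := (hk b g).trans (hk b' g).symm
        rwa [e, add_left_inj] at this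
  have h3 : Nat.card T = Nat.card A * Nat.card (Fix Γ C ⊓ π.range : AddSubgroup C) :=
    card_exact (i.codRestrict T fun a g => by rw [(hex _).mpr ⟨_, rfl⟩, smul_zero])
      ((π.comp T.subtype).codRestrict _ fun b => ⟨b.2, b.1, rfl⟩)
      (fun a b h => hi' (congrArg Subtype.val h))
      (fun ⟨c, hc, b, hb⟩ => ⟨⟨b, by rwa [← hb] at hc⟩, Subtype.ext hb⟩)
      fun b => Subtype.ext_iff.trans ((hex b.1).trans
        ⟨fun ⟨a, ha⟩ => ⟨a, Subtype.ext ha⟩, fun ⟨a, ha⟩ => ⟨a, congrArg Subtype.val ha⟩⟩)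
  have h4 : Nat.card Ξ.range ≤ Nat.card (Der ℤ Γ B) :=
    Nat.card_le_card_of_injective _ Subtype.val_injective
  rw [← Nat.card_prod, h1, ← h3, mul_comm]
  exact Nat.mul_le_mul h4 h2

end Pool.Agent.P.MP_50f9b9_al.RP
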