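import Pool.Agent.P.MP_50f9b9_al.RP.Open
import Pool.Agent.P.MP_50f9b9_al.RP.Pres

/-! Generation of finite `p`-groups and separating points for spaces of homomorphisms. -/

namespace Pool.Agent.P.MP_50f9b9_al.RP

variable {p : ℕ} [hp : Fact p.Prime]

theorem eq_top_of_hom {P : Type} [Group P] [Finite P] (hP : IsPGroup p P) (S : Subgroup P)
    (h : ∀ f ∈ Hom ℤ P (ZMod p), (∀ s ∈ S, f s = 0) → f = 0) : S = ⊤ := by
  by_contra hS
  obtain ⟨M, hM, hSM⟩ := (eq_top_or_exists_le_coatom S).resolve_left hS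
  have := hP.isNilpotent
  have hn : M.Normal := Subgroup.NormalizerCondition.normal_of_coatom M
    Group.normalizerCondition_of_isNilpotent hM
  have hQ : IsPGroup p (P ⧸ M) := hP.to_quotient M
  have hnt : Nontrivial (P ⧸ M) := QuotientGroup.nontrivial_iff.mpr hM.1
  obtain ⟨e, he0, he⟩ := hQ.nontrivial_iff_card.mp hnt
  obtain ⟨x, hx⟩ := exists_prime_orderOf_dvd_card' (G := P ⧸ M) p
    (he ▸ dvd_pow_self p he0.ne')
  have h1 : Subgroup.zpowers x = ⊤ := by
    have h2 : M ≤ (Subgroup.zpowers x).comap (QuotientGroup.mk' M) := fun y hy => by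
      rw [Subgroup.mem_comap, QuotientGroup.mk'_apply, (QuotientGroup.eq_one_iff y).mpr hy]
      exact one_mem _
    rcases h2.eq_or_lt with h3 | h3
    · obtain ⟨y, rfl⟩ := QuotientGroup.mk_surjective x
      have : y ∈ M := h3 ▸ Subgroup.mem_zpowers _
      rw [(QuotientGroup.eq_one_iff y).mpr this, orderOf_one] at hx
      exact absurd hx.symm hp.out.ne_one
    · refine eq_top_iff.mpr fun z _ => ?_
      obtain ⟨y, rfl⟩ := QuotientGroup.mk_surjective z
      exact (hM.2 _ h3).ge (Subgroup.mem_top y)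
  have h4 : Nat.card (P ⧸ M) = p := by
    rw [← hx, ← Nat.card_zpowers, h1, Subgroup.card_top]
  let e : (P ⧸ M) ≃* Multiplicative (ZMod p) := mulEquivOfPrimeCardEq h4 (by simp)
  have h5 := h (fun y => (e y).toAdd) (fun y z => by simp) fun s hs => by
    simp [(QuotientGroup.eq_one_iff s).mpr (hSM hs)]
  obtain ⟨z, hz⟩ := exists_ne (1 : P ⧸ M)
  obtain ⟨y, rfl⟩ := QuotientGroup.mk_surjective z
  exact hz (e.injective ((show e y = 1 from congrFun h5 y).trans (map_one e).symm))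

theorem sup_eq_top_of_hom {L : Type} [Group L] (N : Subgroup L) [N.Normal] (hN : POpen p N)
    (S : Subgroup L) (h : ∀ f ∈ Hom ℤ L (ZMod p), (∀ s ∈ S, f s = 0) → (∀ s ∈ N, f s = 0) →
      f = 0) (x : L) : ∃ s ∈ S, x * s⁻¹ ∈ N := by
  have := hN.1
  have h1 := eq_top_of_hom hN.isPGroup (S.map (QuotientGroup.mk' N)) fun f hf hS => by
    have h2 := h (fun y => f y) (fun y z => hf (y : L ⧸ N) (z : L ⧸ N))
      (fun s hs => hS _ ⟨s, hs, rfl⟩) fun s hs => by
        beta_reduce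
        rw [(QuotientGroup.eq_one_iff s).mpr hs, hom_one hf]
    funext z
    obtain ⟨y, rfl⟩ := QuotientGroup.mk_surjective z
    exact congrFun h2 y
  obtain ⟨s, hs, e⟩ := h1.ge (Subgroup.mem_top (x : L ⧸ N))
  refine ⟨s, hs, ?_⟩
  rw [← QuotientGroup.eq_one_iff, QuotientGroup.mk_mul, QuotientGroup.mk_inv, ← e]
  exact mul_inv_cancel _

theorem card_step {X : Type} (T : Submodule ℤ (X → ZMod p)) (f : X → ZMod p) (hf : f ∈ T) (x : X)
    (hx : f x ≠ 0) : Nat.card T =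
      Nat.card (T ⊓ LinearMap.ker (LinearMap.proj x) : Submodule ℤ (X → ZMod p)) * p := by
  have h := card_exact (A := (T ⊓ LinearMap.ker (LinearMap.proj x) : Submodule ℤ (X → ZMod p)))
    (B := T) (C := ZMod p) (Submodule.inclusion inf_le_left).toAddMonoidHom
    (AddMonoidHom.mk' (fun g => g.1 x) fun _ _ => rfl) (Submodule.inclusion_injective inf_le_left)
    (fun t => ⟨((t * (f x)⁻¹).val : ℤ) • ⟨f, hf⟩, by
      change ((t * (f x)⁻¹).val : ℤ) • f x = t
      simp [hx]⟩)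
    fun g => ⟨fun h => ⟨⟨g.1, g.2, h⟩, rfl⟩, fun ⟨g', h⟩ => h ▸ g'.2.2⟩
  rwa [Nat.card_zmod] at h

theorem exists_sep {X : Type} (x0 : X) (k : ℕ) : ∀ T : Submodule ℤ (X → ZMod p), Finite T →
    Nat.card T ≤ p ^ k → ∃ g : Fin k → X, ∀ f ∈ T, (∀ i, f (g i) = 0) → f = 0 := by
  induction k with
  | zero =>
    intro T _ hT
    have : Subsingleton T := Finite.card_le_one_iff_subsingleton.mp hT
    exact ⟨Fin.elim0, fun f hf _ => congrArg Subtype.val (Subsingleton.elim (⟨f, hf⟩ : T) 0)⟩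
  | succ k ih =>
    intro T _ hT
    by_cases h0 : ∀ f ∈ T, f = 0
    · exact ⟨fun _ => x0, fun f hf _ => h0 f hf⟩
    push Not at h0
    obtain ⟨f, hf, hf0⟩ := h0
    obtain ⟨x, hx⟩ := Function.ne_iff.mp hf0
    rw [card_step T f hf x hx, pow_succ] at hT
    obtain ⟨g, hg⟩ := ih _ (Finite.of_injective _ (Submodule.inclusion_injective inf_le_left))
      (Nat.le_of_mul_le_mul_right hT hp.out.pos)
    exact ⟨Fin.cons x g, fun f' hf' h => hg f' ⟨hf', h 0⟩ fun i => h i.succ⟩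

theorem exists_two {L : Type} [Group L] (T : Submodule ℤ (L → ZMod p))
    (hT : T ≤ Hom ℤ L (ZMod p)) (h : p < Nat.card T) :
    ∃ f ∈ T, ∃ f' ∈ T, ∃ a b, f a = 1 ∧ f' a = 0 ∧ f b = 0 ∧ f' b = 1 := by
  have key : ∀ T : Submodule ℤ (L → ZMod p), 1 < Nat.card T → ∃ f ∈ T, ∃ a, f a = 1 :=
    fun T h => by
    have : Finite T := Nat.finite_of_card_ne_zero (by omega)
    have : Nontrivial T := Finite.one_lt_card_iff_nontrivial.mp h
    obtain ⟨f, hf⟩ := exists_ne (0 : T)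
    obtain ⟨a, ha⟩ := Function.ne_iff.mp fun e => hf (Subtype.ext e)
    refine ⟨((f.1 a)⁻¹.val : ℤ) • f.1, T.smul_mem _ f.2, a, ?_⟩
    change ((f.1 a)⁻¹.val : ℤ) • f.1 a = 1
    simpa using inv_mul_cancel₀ ha
  obtain ⟨f, hf, a, ha⟩ := key T (hp.out.one_lt.trans h)
  rw [card_step T f hf a (ha ▸ one_ne_zero)] at h
  obtain ⟨f', hf', b, hb⟩ := key _ (lt_of_mul_lt_mul_right (by rwa [one_mul]) p.zero_le)
  have h0 : f' a = 0 := hf'.2
  refine ⟨f, hf, f', hf'.1, a, b * (a ^ (f b).val)⁻¹, ha, h0, ?_, ?_⟩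
  · rw [hT hf, hom_inv (hT hf), hom_pow (hT hf), ha]
    simp
  · rw [hT hf'.1, hom_inv (hT hf'.1), hom_pow (hT hf'.1), h0, hb]
    simp

theorem exists_card_eq_pow (Q : Type) [AddCommGroup Q] [Finite Q] (h : ∀ q : Q, p • q = 0) :
    ∃ e, Nat.card Q = p ^ e := by
  let := AddCommGroup.zmodModule h
  exact ⟨Module.finrank (ZMod p) Q, by rw [Module.natCard_eq_pow_finrank (K := ZMod p)]; simp⟩

theorem exists_card_hom (L : Type) [Group L] [Group.FG L] :
    ∃ r, Nat.card (Hom ℤ L (ZMod p)) = p ^ r :=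
  exists_card_eq_pow _ fun f => Subtype.ext (funext fun x => by
    change p • f.1 x = 0
    simp)

end Pool.Agent.P.MP_50f9b9_al.RP
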