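import Pool.Agent.P.MP_50f9b9_al.RP.PDI

/-! The stable image of an endomorphism of a finite abelian group. -/

namespace Pool.Agent.P.MP_50f9b9_al.RP

variable {A B C : Type} [AddCommGroup A] [AddCommGroup B] [AddCommGroup C]

/-- The stable image. -/
def stab (e : AddMonoid.End A) : AddSubgroup A where
  carrier := {x | ∀ k : ℕ, ∃ y, (e ^ k) y = x}
  add_mem' := fun ha hb k =>
    let ⟨y, hy⟩ := ha k
    let ⟨z, hz⟩ := hb k
    ⟨y + z, by rw [map_add, hy, hz]⟩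
  zero_mem' := fun _ => ⟨0, map_zero _⟩
  neg_mem' := fun ha k =>
    let ⟨y, hy⟩ := ha k
    ⟨-y, by rw [map_neg, hy]⟩

theorem aend_mul (e e' : AddMonoid.End A) (x : A) : (e * e') x = e (e' x) := rfl

theorem exists_stab [Finite A] (e : AddMonoid.End A) : ∃ n : ℕ, 1 ≤ n ∧ ∀ m : ℕ, 1 ≤ m →
    (∀ x, (e ^ (n * m)) x ∈ stab e) ∧ ∀ x ∈ stab e, (e ^ (n * m)) x = x := by
  have : Finite (AddMonoid.End A) :=
    Finite.of_injective (fun g : AddMonoid.End A => (g : _ → _)) DFunLike.coe_injective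
  obtain ⟨n, hn, hn'⟩ := exists_idem_pow _ e
  have h1 : ∀ i : ℕ, e ^ (n * (i + 1)) = e ^ n := fun i => by
    induction i with
    | zero => simp
    | succ i ih => rw [mul_add, pow_add, ih, mul_one, hn']
  refine ⟨n, hn, fun m hm => ?_⟩
  obtain ⟨m, rfl⟩ := Nat.exists_eq_add_of_le' hm
  rw [h1]
  refine ⟨fun x k => ?_, fun x hx => ?_⟩
  · obtain ⟨c, hc⟩ : ∃ c, n * (k + 1) = k + c := ⟨n * (k + 1) - k, by
      have : k + 1 ≤ n * (k + 1) := Nat.le_mul_of_pos_left _ hn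
      omega⟩
    exact ⟨(e ^ c) x, by rw [← aend_mul, ← pow_add, ← hc, h1]⟩
  · obtain ⟨y, rfl⟩ := hx n
    rw [← aend_mul, hn']

theorem pow_comm_map {e : AddMonoid.End A} {e' : AddMonoid.End B} (h : A →+ B)
    (hh : ∀ x, h (e x) = e' (h x)) (k : ℕ) (x : A) : h ((e ^ k) x) = (e' ^ k) (h x) := by
  induction k with
  | zero => rfl
  | succ k ih => rw [pow_succ', pow_succ', aend_mul, aend_mul, hh, ih]

theorem stab_map {e : AddMonoid.End A} {e' : AddMonoid.End B} (h : A →+ B)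
    (hh : ∀ x, h (e x) = e' (h x)) {x : A} (hx : x ∈ stab e) : h x ∈ stab e' := fun k =>
  let ⟨y, hy⟩ := hx k
  ⟨h y, by rw [← pow_comm_map h hh, hy]⟩

theorem stab_lift [Finite A] [Finite B] {e : AddMonoid.End A} {e' : AddMonoid.End B} (h : A →+ B)
    (hh : ∀ x, h (e x) = e' (h x)) {x : A} (hx : h x ∈ stab e') : ∃ y ∈ stab e, h y = h x := by
  obtain ⟨n, hn, h1⟩ := exists_stab e
  obtain ⟨m, hm, h2⟩ := exists_stab e'
  exact ⟨_, (h1 m hm).1 x, by rw [pow_comm_map h hh, mul_comm, (h2 n hn).2 _ hx]⟩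

theorem stab_inj [Finite A] (e : AddMonoid.End A) {x : A} (hx : x ∈ stab e) (h : e x = 0) :
    x = 0 := by
  obtain ⟨n, hn, h1⟩ := exists_stab e
  obtain ⟨n, rfl⟩ := Nat.exists_eq_add_of_le' hn
  rw [← (h1 1 le_rfl).2 x hx, mul_one, pow_succ, aend_mul, h, map_zero]

theorem card_stab [Finite A] [Finite B] {e : AddMonoid.End A} {e' : AddMonoid.End B} (h : A →+ B)
    (hh : ∀ x, h (e x) = e' (h x)) : Nat.card (stab e) =
      Nat.card (stab e ⊓ h.ker : AddSubgroup A) * Nat.card (stab e' ⊓ h.range : AddSubgroup B) :=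
  card_exact (AddSubgroup.inclusion inf_le_left)
    ((h.comp (stab e).subtype).codRestrict _ fun x => ⟨stab_map h hh x.2, x.1, rfl⟩)
    (AddSubgroup.inclusion_injective _)
    (by
      rintro ⟨_, hy, x, rfl⟩
      obtain ⟨y, h1, h2⟩ := stab_lift h hh hy
      exact ⟨⟨y, h1⟩, Subtype.ext h2⟩)
    fun x => ⟨fun h0 => ⟨⟨x.1, x.2, (Subtype.ext_iff.mp h0 :)⟩, rfl⟩,
      fun ⟨y, hy⟩ => hy ▸ Subtype.ext y.2.2⟩

theorem card_stab_exact [Finite B] {e : AddMonoid.End A} {e' : AddMonoid.End B}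
    {e'' : AddMonoid.End C} (i : A →+ B) (π : B →+ C) (hi : ∀ x, i (e x) = e' (i x))
    (hπ : ∀ x, π (e' x) = e'' (π x)) (hi' : Function.Injective i) (hπ' : Function.Surjective π)
    (hex : ∀ b, π b = 0 ↔ ∃ a, i a = b) :
    Nat.card (stab e') = Nat.card (stab e) * Nat.card (stab e'') := by
  have := Finite.of_injective i hi'
  have := Finite.of_surjective π hπ'
  rw [card_stab i hi, card_stab π hπ, AddMonoidHom.range_eq_top.mpr hπ', inf_top_eq,
    (AddMonoidHom.ker_eq_bot_iff i).mpr hi', inf_bot_eq, AddSubgroup.card_bot, one_mul,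
    show π.ker = i.range from AddSubgroup.ext hex]

theorem card_le_mul_of_ker [Finite B] (S T : AddSubgroup A) [Finite T] (τ : S →+ B)
    (h : ∀ x, τ x = 0 → x.1 ∈ T) : Nat.card S ≤ Nat.card T * Nat.card B := by
  rw [← card_ker_mul τ]
  exact Nat.mul_le_mul (Nat.card_le_card_of_injective (fun x => (⟨x.1.1, h x.1 x.2⟩ : T))
    fun _ _ e => Subtype.ext (Subtype.ext (Subtype.ext_iff.mp e :)))
    (Nat.card_le_card_of_injective _ Subtype.val_injective)

theorem card_range_le [Finite A] (σ : A →+ B) (κ : A →+ C) (h : ∀ x, σ x = 0 → κ x = 0) :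
    Nat.card κ.range ≤ Nat.card σ.range := by
  have h1 := (card_ker_mul κ).trans (card_ker_mul σ).symm
  have h2 : Nat.card σ.ker ≤ Nat.card κ.ker := AddSubgroup.card_le_of_le h
  exact Nat.le_of_mul_le_mul_left (h1.le.trans (Nat.mul_le_mul_right _ h2)) Nat.card_pos

theorem exists_gen {p : ℕ} [hp : Fact p.Prime] [Finite A] (κ : A →+ B) (hB : ∀ b : B, p • b = 0)
    (h : Nat.card κ.range ≤ p) : ∃ a0, ∀ a, ∃ t : ℤ, κ (a - t • a0) = 0 := by
  by_cases h0 : ∀ a, κ a = 0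
  · exact ⟨0, fun a => ⟨0, h0 _⟩⟩
  push Not at h0
  obtain ⟨a0, ha0⟩ := h0
  have : Finite κ.range := Finite.of_surjective _ κ.rangeRestrict_surjective
  have h1 : AddSubgroup.zmultiples (κ a0) = κ.range :=
    AddSubgroup.eq_of_le_of_card_ge (AddSubgroup.zmultiples_le_of_mem ⟨a0, rfl⟩)
      (by rwa [Nat.card_zmultiples, addOrderOf_eq_prime (hB _) ha0])
  refine ⟨a0, fun a => ?_⟩
  obtain ⟨t, ht⟩ := AddSubgroup.mem_zmultiples_iff.mp (h1.ge ⟨a, rfl⟩)
  exact ⟨t, by rw [map_sub, map_zsmul, ht, sub_self]⟩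

end Pool.Agent.P.MP_50f9b9_al.RP
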