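import Pool.Agent.P.MP_50f9b9_al.RP.Stab
import Pool.Agent.P.MP_50f9b9_al.RP.KI

/-! The rank of the map induced on second cohomology by an endomorphism of index divisible
by `p`. -/

namespace Pool.Agent.P.MP_50f9b9_al.RP

variable {Γ : Type} [Group Γ] {p : ℕ} [hp : Fact p.Prime]

/-- The homomorphisms to `ZMod p` that vanish on the image of `ϕ`. -/
def Kill (p : ℕ) (ϕ : Γ →* Γ) : Submodule ℤ (Γ → ZMod p) where
  carrier := {f | f ∈ Hom ℤ Γ (ZMod p) ∧ ∀ x, f (ϕ x) = 0}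
  add_mem' := fun ha hb => ⟨add_mem ha.1 hb.1, fun x => by simp [ha.2 x, hb.2 x]⟩
  zero_mem' := ⟨zero_mem _, fun _ => rfl⟩
  smul_mem' := fun t f hf => ⟨Submodule.smul_mem _ t hf.1, fun x => by simp [hf.2 x]⟩

theorem kill_le (ϕ : Γ →* Γ) : Kill p ϕ ≤ Hom ℤ Γ (ZMod p) := fun _ h => h.1

instance [Group.FG Γ] (ϕ : Γ →* Γ) : Finite (Kill p ϕ) :=
  Finite.of_injective _ (Submodule.inclusion_injective (kill_le ϕ))

/-- Composition of homomorphisms to an additive group with a homomorphism of groups. -/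
def homComp {L L' : Type} [Group L] [Group L'] (A : Type) [AddCommGroup A] (j : L' →* L) :
    Hom ℤ L A →+ Hom ℤ L' A :=
  AddMonoidHom.mk' (fun f => ⟨fun x => f.1 (j x), fun x y => by
    beta_reduce; rw [map_mul, f.2]⟩) fun _ _ => rfl

theorem card_hom_congr {L L' : Type} [Group L] [Group L'] (A : Type) [AddCommGroup A]
    (e : L ≃* L') : Nat.card (Hom ℤ L A) = Nat.card (Hom ℤ L' A) :=
  Nat.card_congr
    { toFun := homComp A e.symm.toMonoidHom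
      invFun := homComp A e.toMonoidHom
      left_inv := fun f => Subtype.ext (funext fun x => congrArg f.1 (e.symm_apply_apply x))
      right_inv := fun f => Subtype.ext (funext fun x => congrArg f.1 (e.apply_symm_apply x)) }

theorem card_ker_le_kill [Group.FG Γ] (ϕ : Γ →* Γ) {L : Type} [Group L] (j : L →* Γ)
    (hj : ∀ x, ϕ x ∈ j.range) : Nat.card (homComp (ZMod p) j).ker ≤ Nat.card (Kill p ϕ) := by
  exact Nat.card_le_card_of_injective (fun f => (⟨f.1.1, f.1.2, fun x => by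
    obtain ⟨y, hy⟩ := hj x
    rw [← hy]
    exact congrFun (Subtype.ext_iff.mp f.2) y⟩ : Kill p ϕ))
    fun _ _ e => Subtype.ext (Subtype.ext (Subtype.ext_iff.mp e :))

section
variable {Q : Type} [AddCommGroup Q] [DistribMulAction Γ Q]

/-- The cocycle of the dual resolution attached to a functional on cochains. -/
noncomputable def annZ (R : Res3 Γ) (hR : R.Gp = ⊤) :
    Ann p (del (Γ := Γ) Q R.d2) →+ (dres R hR).Z1 ℤ (Dl p Q) :=
  AddMonoidHom.mk' (fun l => ⟨(dlCo l.1).1,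
    (mem_dres_Z1 R hR _).mpr ⟨(dlCo l.1).2, fun b => Dl.ext fun q => l.2 (el b q)⟩⟩)
    fun _ _ => rfl

theorem ann_cocycle (R : Res3 Γ) (hR : R.Gp = ⊤) (l : Ann p (del (Γ := Γ) Q R.d2))
    (hl : ∀ g q, l.1 (el ((dres R hR).s g) q) = 0) (c : Co Γ R.P2 Q) (hc : del Q R.d3 c = 0) :
    l.1 c = 0 := by
  obtain ⟨F, hF, -⟩ := (dres R hR).exists_ext ℤ (Dl p Q) (annZ R hR l) 0
    (by rw [map_zero]; exact Subtype.ext (funext fun g => Dl.ext (hl g)))
  obtain ⟨μ, rfl⟩ := (dlCo_bij (p := p) R.F3).2 F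
  have h1 : ∀ b q, l.1 (el b q) = μ (del Q R.d3 (el b q)) := fun b q =>
    (DFunLike.congr_fun (DFunLike.congr_fun (Subtype.ext_iff.mp hF) b) q).symm
  rw [← el_sum R.F2 c, map_sum]
  simp only [h1]
  rw [← map_sum, ← map_sum, el_sum, hc, map_zero]

end

theorem card_transfer [Group.FG Γ] (K : Subgroup Γ) [K.FiniteIndex] (hpd : p ∣ K.index)
    (h1 : Nat.card (Hom ℤ K (ZMod p)) ≤ Nat.card (Hom ℤ Γ (ZMod p)))
    (h2 : Nat.card (homComp (ZMod p) K.subtype).ker ≤ p)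
    (κ : Der ℤ Γ (Dl p (Perm (Γ ⧸ K) (ZMod p))) →+ (Γ → ZMod p))
    (hκ : ∀ D g, κ D g = D.1 g (cst ℤ (ZMod p) _ 1)) : Nat.card κ.range ≤ p := by
  have := Fintype.ofFinite (Γ ⧸ K)
  let M := Perm (Γ ⧸ K) (ZMod p)
  let i : Dl p M →+ M := AddMonoidHom.mk' (fun l x => l (dlt (ZMod p) x 1)) fun _ _ => rfl
  have hi : ∀ (g : Γ) a, i (g • a) = g • i a := fun g a => funext fun x => by
    change a (g⁻¹ • dlt (ZMod p) x 1) = _
    rw [smul_dlt]; rfl
  let ι : Der ℤ Γ (Dl p M) →+ Der ℤ Γ M := AddMonoidHom.mk'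
    (fun D => ⟨fun g => i (D.1 g), fun g h => by beta_reduce; rw [D.2, map_add, hi]⟩) fun D D' =>
      Subtype.ext (funext fun g => map_add i _ _)
  let T := (homComp (ZMod p) K.subtype).range
  let σ : Der ℤ Γ (Dl p M) →+ Hom ℤ K (ZMod p) ⧸ T :=
    ((QuotientAddGroup.mk' T).comp (shap ℤ K (ZMod p)).toAddMonoidHom).comp ι
  refine (card_range_le σ κ fun D hD => ?_).trans
    ((Nat.card_le_card_of_injective _ Subtype.val_injective).trans ?_)
  · obtain ⟨μ, hμ⟩ := (QuotientAddGroup.eq_zero_iff _).mp hD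
    let Dμ : Der ℤ Γ M := ⟨fun g => cst ℤ (ZMod p) _ (μ.1 g), fun g h => by
      beta_reduce; rw [μ.2]; rfl⟩
    obtain ⟨f, hf⟩ := (shap_eq_zero ℤ K (ZMod p) (ι D - Dμ)).mp 
      ((map_sub (shap ℤ K (ZMod p)) _ _).trans (sub_eq_zero.mpr hμ.symm))
    funext g
    have e1 : ∀ x, f (g⁻¹ • x) - f x = D.1 g (dlt (ZMod p) x 1) - μ.1 g := fun x =>
      congrFun (congrFun (Subtype.ext_iff.mp hf) g) x
    have e2 := Finset.sum_congr (s₁ := Finset.univ) rfl fun x _ => e1 x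
    rw [Finset.sum_sub_distrib, Finset.sum_sub_distrib,
      show ∑ x, f (g⁻¹ • x) = _ from Equiv.sum_comp (MulAction.toPerm g⁻¹) f, sub_self,
      Finset.sum_const, Finset.card_univ, ← Nat.card_eq_fintype_card, nsmul_eq_mul,
      (ZMod.natCast_eq_zero_iff (Nat.card (Γ ⧸ K)) p).mpr hpd, zero_mul, sub_zero, ← map_sum] at e2
    rw [hκ, ← sum_dlt (cst ℤ (ZMod p) (Γ ⧸ K) 1)]
    exact e2.symm
  · have h3 := AddSubgroup.card_eq_card_quotient_mul_card_addSubgroup T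
    rw [← card_ker_mul (homComp (ZMod p) K.subtype), h3] at h1
    exact Nat.le_of_mul_le_mul_right (h1.trans (Nat.mul_le_mul_right _ h2)) Nat.card_pos

theorem two_rank (R : Res3 Γ) (hR : R.Gp = ⊤) (ϕ : Γ →* Γ) (hϕ : Function.Injective ϕ)
    [ϕ.range.FiniteIndex] (hpd : p ∣ ϕ.range.index) (hk : Nat.card (Kill p ϕ) ≤ p)
    (f1 : R.P1 →+ R.P1) (f2 : R.P2 →+ R.P2) (a1 : ∀ g x, f1 (og g • x) = og (ϕ g) • f1 x)
    (b2 : ∀ x, R.d2 (f2 x) = f1 (R.d2 x)) :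
    ∃ τ : Co Γ R.P2 (Tr (ZMod p)) →+ ZMod p, ∀ c, del _ R.d3 c = 0 → τ c = 0 →
      ∃ b : Co Γ R.P1 (Tr (ZMod p)), ∀ x, b.1 (R.d2 x) = c.1 (f2 x) := by
  have := R.fg
  let K := ϕ.range
  let M := Perm (Γ ⧸ K) (ZMod p)
  have := finite_Co (Q := M) R.F2
  let i : Tr (ZMod p) →+ M := (cst ℤ (ZMod p) (Γ ⧸ K)).toAddMonoidHom
  let ι := coMap (Γ := Γ) R.P2 i fun _ _ => rfl
  let κ : Der ℤ Γ (Dl p M) →+ (Γ → ZMod p) :=
    AddMonoidHom.mk' (fun D g => D.1 g (cst ℤ (ZMod p) _ 1)) fun _ _ => rfl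
  have h1 := card_transfer K hpd (card_hom_congr _ (MonoidHom.ofInjective hϕ)).ge
    ((card_ker_le_kill ϕ K.subtype fun x => ⟨⟨_, x, rfl⟩, rfl⟩).trans hk) κ fun _ _ => rfl
  have : Finite κ.range := Finite.of_surjective _ κ.rangeRestrict_surjective
  let κ' := κ.comp (((dres R hR).toDer ℤ (Dl p M)).toAddMonoidHom.comp (annZ R hR))
  obtain ⟨l0, hl0⟩ := exists_gen (p := p) κ' (fun b => funext fun x => by
    change p • b x = 0
    simp) ((AddSubgroup.card_le_of_le (by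
      rintro _ ⟨a, rfl⟩; exact ⟨(dres R hR).toDer ℤ (Dl p M) (annZ R hR a), rfl⟩)).trans h1)
  have h2 : ∀ l, κ' l = 0 → ∀ c, del _ R.d3 c = 0 → l.1 (ι c) = 0 := fun l hl c hc => by
    refine ann_cocycle R hR ⟨AddMonoidHom.comp l.1 ι, fun b =>
      l.2 (coMap R.P1 i (fun _ _ => rfl) b)⟩ (fun g q => ?_) c hc
    have e1 : l.1 (el ((dres R hR).s g) (i (1 : ZMod p))) = 0 := congrFun hl g
    have e2 : ι (el ((dres R hR).s g) q) = el ((dres R hR).s g) (i q) :=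
      Co_ext fun x => zact_map i (fun _ _ => rfl) _ _
    have e3 : q = ZMod.val (n := p) q • (show Tr (ZMod p) from (1 : ZMod p)) := by
      change q = ZMod.val (n := p) q • (1 : ZMod p)
      simp
    change l.1 (ι _) = 0
    rw [e2, e3, map_nsmul, map_nsmul, map_nsmul, e1, smul_zero]
  refine ⟨AddMonoidHom.comp l0.1 ι, fun c hc h0 => ?_⟩
  obtain ⟨b, hb⟩ := mem_range_of_Ann (Co_nsmul perm_nsmul) (del M R.d2) (ι c) fun l hl => by
    obtain ⟨t, ht⟩ := hl0 ⟨l, hl⟩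
    have e := h2 _ ht c hc
    change l (ι c) - t • l0.1 (ι c) = 0 at e
    rwa [show l0.1 (ι c) = 0 from h0, smul_zero, sub_zero] at e
  refine ⟨⟨AddMonoidHom.mk' (fun x => b.1 (f1 x) ((1 : Γ) : Γ ⧸ K)) fun x y => by
    rw [map_add, map_add]; rfl, fun g x => ?_⟩, fun x => ?_⟩
  · change b.1 (f1 (og g • x)) _ = b.1 (f1 x) _
    rw [a1, show b.1 (og (ϕ g) • f1 x) = _ from b.2 _ _]
    exact congrArg (b.1 (f1 x)) (QuotientGroup.eq.mpr ⟨g, by simp⟩)
  · change b.1 (f1 (R.d2 x)) _ = _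
    rw [← b2]
    exact congrFun (DFunLike.congr_fun (Subtype.ext_iff.mp hb) (f2 x)) _

end Pool.Agent.P.MP_50f9b9_al.RP
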