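import Pool.Agent.P.MP_50f9b9_al.RP.Two

/-! The Euler characteristic of the stable part of the cochains is multiplicative. -/

namespace Pool.Agent.P.MP_50f9b9_al.RP

variable {Γ : Type} [Group Γ] {p : ℕ} [hp : Fact p.Prime]

section
variable {P : Type} [AddCommGroup P] [Module (ZG Γ) P] {ϕ : Γ →* Γ} {f : P →+ P}

/-- Pull back of cochains along a semilinear map. -/
noncomputable def pb (hf : ∀ g x, f (og g • x) = og (ϕ g) • f x) {Q : Type} [AddCommGroup Q]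
    [DistribMulAction Γ Q] (hQ : ∀ (g : Γ) (q : Q), ϕ g • q = g • q) :
    AddMonoid.End (Co Γ P Q) :=
  AddMonoidHom.mk' (fun c => ⟨c.1.comp f, fun g x => by
    change c.1 (f (og g • x)) = g • c.1 (f x)
    rw [hf, ← hQ]
    exact c.2 _ _⟩) fun _ _ => rfl

open Classical in
/-- The number of stable cochains. -/
noncomputable def uc (hf : ∀ g x, f (og g • x) = og (ϕ g) • f x) (Q : Type) [AddCommGroup Q]
    [DistribMulAction Γ Q] : ℕ :=
  if h : ∀ (g : Γ) (q : Q), ϕ g • q = g • q then Nat.card (stab (pb hf h)) else 1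

theorem uc_eq (hf : ∀ g x, f (og g • x) = og (ϕ g) • f x) {Q : Type} [AddCommGroup Q]
    [DistribMulAction Γ Q] (h : ∀ (g : Γ) (q : Q), ϕ g • q = g • q) :
    uc hf Q = Nat.card (stab (pb hf h)) := dif_pos h

theorem smul_eq_of_triv {N : Subgroup Γ} (hN : ∀ g, g * (ϕ g)⁻¹ ∈ N) {Q : Type} [AddCommGroup Q]
    [DistribMulAction Γ Q] (ht : ∀ n ∈ N, ∀ q : Q, n • q = q) (g : Γ) (q : Q) :
    ϕ g • q = g • q := by
  rw [← ht _ (hN g) (ϕ g • q), smul_smul, inv_mul_cancel_right]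

theorem uc_pow (F : Frame Γ P) (hf : ∀ g x, f (og g • x) = og (ϕ g) • f x) {N : Subgroup Γ}
    (hN : POpen p N) (hN' : ∀ g, g * (ϕ g)⁻¹ ∈ N) (e : ℕ) (Q : Type) [AddCommGroup Q]
    [DistribMulAction Γ Q] [Finite Q] (he : Nat.card Q = p ^ e)
    (ht : ∀ n ∈ N, ∀ q : Q, n • q = q) : uc hf Q = uc hf (Tr (ZMod p)) ^ e :=
  mult_pow hN (fun Q _ _ => uc hf Q)
    (fun Q _ _ _ => by
      rw [uc_eq hf fun _ _ => Subsingleton.elim _ _]
      exact Nat.card_eq_one_iff_unique.mpr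
        ⟨⟨fun _ _ => Subtype.ext (Co_ext fun _ => Subsingleton.elim _ _)⟩, ⟨0⟩⟩)
    (fun B C _ _ _ _ _ i π hi hπ hi' hπ' hex ht => by
      have := finite_Co (Q := B) F
      rw [uc_eq hf (smul_eq_of_triv hN' ht), uc_eq hf (Q := Tr (ZMod p)) fun _ _ => rfl,
        uc_eq hf (Q := C) (smul_eq_of_triv hN' fun n hn q => by
          obtain ⟨b, rfl⟩ := hπ' q
          rw [← hπ, ht n hn])]
      exact card_stab_exact (coMap P i hi) (coMap P π hπ) (fun _ => rfl) (fun _ => rfl)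
        (coMap_inj i hi hi') (coMap_surj F π hπ hπ') (coMap_exact i π hi hπ hi' hex)) e Q he ht

end

section
variable (R : Res3 Γ) {Q : Type} [AddCommGroup Q] [DistribMulAction Γ Q]

/-- Cocycles of the cochain complex as cocycles of the bottom of the resolution. -/
noncomputable def toZ1 (S : AddSubgroup (Co Γ R.P1 Q)) (hS : S ≤ (del Q R.d2).ker) :
    S →+ (pres R).Z1 ℤ Q :=
  AddMonoidHom.mk' (fun c => ⟨c.1.1, (mem_pres_Z1 R _).mpr
    ⟨c.1.2, fun z => DFunLike.congr_fun (congrArg Subtype.val (hS c.2)) z⟩⟩) fun _ _ => rfl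

theorem card_z1_le (K : Subgroup Γ) [K.FiniteIndex] (A : Type) [AddCommGroup A] [Finite A]
    (U : AddSubgroup (Co Γ R.P1 (Perm (Γ ⧸ K) A))) :
    Nat.card (U ⊓ (del _ R.d2).ker : AddSubgroup _) ≤
      Nat.card (U ⊓ (del _ R.d1).range : AddSubgroup _) * Nat.card (Hom ℤ K A) := by
  have := R.fg
  have := finite_Co (Q := Perm (Γ ⧸ K) A) R.F1
  refine card_le_mul_of_ker _ _ (((shap ℤ K A).toAddMonoidHom.comp
    ((pres R).toDer ℤ _).toAddMonoidHom).comp (toZ1 R _ inf_le_right)) fun c hc => ⟨c.2.1, ?_⟩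
  obtain ⟨f, hf⟩ := (shap_eq_zero ℤ K A _).mp hc
  obtain ⟨F, hF, -⟩ := (pres R).exists_ext ℤ _ _ f hf.symm
  exact ⟨F, Subtype.ext (Subtype.ext_iff.mp hF :)⟩

theorem card_u3_le (hR : R.Gp = ⊤) (K : Subgroup Γ) [K.FiniteIndex] (A : Type) [AddCommGroup A]
    [Finite A] (U : AddSubgroup (Co Γ R.P3 (Perm (Γ ⧸ K) A))) :
    Nat.card U ≤ Nat.card (U ⊓ (del _ R.d3).range : AddSubgroup _) * Nat.card A := by
  have := finite_Co (Q := Perm (Γ ⧸ K) A) R.F3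
  have := Fintype.ofFinite (Γ ⧸ K)
  let B := (del (Perm (Γ ⧸ K) A) R.d3).range
  let σ : A →+ Co Γ R.P3 (Perm (Γ ⧸ K) A) ⧸ B :=
    ((QuotientAddGroup.mk' B).comp (el R.u)).comp (dlt A ((1 : Γ) : Γ ⧸ K))
  have h0 : ∀ (b : R.P2 →ₗ[ZG Γ] ZG Γ) q, QuotientAddGroup.mk' B (el (b ∘ₗ R.d3) q) = 0 :=
    fun b q => (QuotientAddGroup.eq_zero_iff _).mpr ⟨el b q, rfl⟩
  have h1 : ∀ q, QuotientAddGroup.mk' B (el R.u q) ∈ σ.range := fun q => by
    rw [← sum_dlt q, map_sum, map_sum]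
    refine AddSubgroup.sum_mem _ fun x _ => ?_
    obtain ⟨g, rfl⟩ := QuotientGroup.mk_surjective x
    obtain ⟨b, hb⟩ := R.exists_rm_sub (g := g) (hR ▸ Subgroup.mem_top g) R.u
    have e : dlt A (g : Γ ⧸ K) (q g) = g • dlt A ((1 : Γ) : Γ ⧸ K) (q g) := by
      rw [smul_dlt, MulAction.Quotient.smul_mk, smul_eq_mul, mul_one]
    rw [e, ← el_rm_og, ← sub_add_cancel (rm R.u (og g)) R.u, ← hb, el_add, map_add, h0, zero_add]
    exact ⟨q g, rfl⟩
  have h2 : Function.Surjective σ := fun c => by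
    obtain ⟨c, rfl⟩ := QuotientAddGroup.mk'_surjective B c
    change _ ∈ σ.range
    rw [← el_sum R.F3 c, map_sum]
    refine AddSubgroup.sum_mem _ fun i _ => ?_
    obtain ⟨b, hb⟩ := R.decomp (R.F3.j i)
    have e : ∀ (n : ℤ) (q : Perm (Γ ⧸ K) A), el (n • R.u) q = el R.u (n • q) := fun n q => by
      rw [map_zsmul]
      exact Co_ext fun x => map_zsmul (zact q) n _
    rw [hb, el_add, map_add, h0, add_zero, e]
    exact h1 _
  exact (card_le_mul_of_ker U (U ⊓ B) ((QuotientAddGroup.mk' B).comp U.subtype) fun c hc =>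
    ⟨c.2, (QuotientAddGroup.eq_zero_iff _).mp hc⟩).trans
    (Nat.mul_le_mul_left _ (Nat.card_le_card_of_surjective σ h2))

theorem card_z0_le (U : AddSubgroup (Co Γ R.P0 (Tr (ZMod p)))) :
    Nat.card (U ⊓ (del _ R.d1).ker : AddSubgroup _) ≤ p := by
  refine (Nat.card_le_card_of_injective (β := ZMod p) (fun c => c.1.1 R.r0)
    fun c c' h => Subtype.ext ((pres R).ext0 ℤ _ (Subtype.ext ?_) h)).trans_eq (Nat.card_zmod p)
  exact (Subtype.ext_iff.mp c.2.2 :).trans (Subtype.ext_iff.mp c'.2.2 :).symm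

end

theorem card_z1_ge (R : Res3 Γ) (ϕ : Monoid.End Γ) (hk : ∀ n, Nat.card (Kill p (ϕ ^ n :)) ≤ p)
    {f0 : R.P0 →+ R.P0} {f1 : R.P1 →+ R.P1} {f2 : R.P2 →+ R.P2}
    (a0 : ∀ g x, f0 (og g • x) = og (ϕ g) • f0 x) (a1 : ∀ g x, f1 (og g • x) = og (ϕ g) • f1 x)
    (a2 : ∀ g x, f2 (og g • x) = og (ϕ g) • f2 x)
    (b0 : ∀ x, R.eps (f0 x) = R.eps x) (b1 : ∀ x, R.d1 (f1 x) = f0 (R.d1 x))
    (b2 : ∀ x, R.d2 (f2 x) = f1 (R.d2 x)) :
    Nat.card (stab (pb (ϕ := ϕ) a1 (Q := Tr (ZMod p)) fun _ _ => rfl) ⊓ (del _ R.d1).range :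
      AddSubgroup _) * Nat.card (Hom ℤ Γ (ZMod p)) ≤
    Nat.card (stab (pb (ϕ := ϕ) a1 (Q := Tr (ZMod p)) fun _ _ => rfl) ⊓ (del _ R.d2).ker :
      AddSubgroup _) * p := by
  have := R.fg
  have := finite_Co (Q := Tr (ZMod p)) R.F1
  let e := pb (ϕ := ϕ) a1 (Q := Tr (ZMod p)) fun _ _ => rfl
  let e2 := pb (ϕ := ϕ) a2 (Q := Tr (ZMod p)) fun _ _ => rfl
  have hd : ∀ c, del _ R.d2 (e c) = e2 (del _ R.d2 c) := fun c =>
    Co_ext fun x => congrArg c.1 (b2 x).symm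
  have h1 : ∀ c : Co Γ R.P1 (Tr (ZMod p)), del _ R.d2 c = 0 → ∀ g,
      (e c).1 ((pres R).s g) = c.1 ((pres R).s (ϕ g)) := fun c hc g => by
    obtain ⟨y, hy⟩ := (R.ex0 (f0 R.r0 - R.r0)).mp (by rw [map_sub, b0, sub_self])
    have hs : ∀ g, R.d1 ((pres R).s g) = og g • R.r0 - R.r0 := (pres R).d_s
    have h2 := PRes.Z1_congr (toZ1 R _ le_rfl ⟨c, hc⟩).2 (y := f1 ((pres R).s g))
      (y' := (pres R).s (ϕ g) + (og (ϕ g) • y - y)) (by
        change R.d1 _ = R.d1 _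
        rw [b1, hs, map_add, map_sub, map_sub, a0, hs, map_smul, hy, smul_sub]
        abel)
    refine h2.trans ?_
    change c.1 _ = _
    rw [map_add, map_sub, show c.1 (og (ϕ g) • y) = c.1 y from c.2 _ _, sub_self, add_zero]
  have h2 : ∀ (n : ℕ) (c : Co Γ R.P1 (Tr (ZMod p))), del _ R.d2 c = 0 → ∀ g,
      ((e ^ n) c).1 ((pres R).s g) = c.1 ((pres R).s ((ϕ ^ n) g)) := fun n => by
    induction n with
    | zero => intro c _ g; rfl
    | succ n ih =>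
      intro c hc g
      rw [pow_succ, aend_mul, ih _ (by rw [hd, hc, map_zero]), h1 c hc, pow_succ']
      rfl
  obtain ⟨n, -, hn⟩ := exists_stab e
  replace hn := (hn 1 le_rfl).1
  rw [mul_one] at hn
  let Φ : (stab e ⊓ (del _ R.d2).ker : AddSubgroup _) →+ Hom ℤ Γ (ZMod p) :=
    ((pres R).toDer ℤ (Tr (ZMod p))).toAddMonoidHom.comp (toZ1 R _ inf_le_right)
  have h3 : Nat.card (stab e ⊓ (del _ R.d1).range : AddSubgroup _) ≤ Nat.card Φ.ker :=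
    Nat.card_le_card_of_injective (fun c => ⟨⟨c.1, c.2.1, by
      obtain ⟨b, hb⟩ := c.2.2
      rw [← hb]
      exact Co_ext fun x => by simp [R.d1_d2]⟩, by
      obtain ⟨b, hb⟩ := c.2.2
      refine Subtype.ext (funext fun g => ?_)
      change c.1.1 ((pres R).s g) = 0
      rw [← hb, del_apply, show R.d1 _ = og g • R.r0 - R.r0 from (pres R).d_s g, map_sub,
        show b.1 (og g • R.r0) = b.1 R.r0 from b.2 _ _, sub_self]⟩)
      fun _ _ h => Subtype.ext (Subtype.ext_iff.mp (Subtype.ext_iff.mp h :) :)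
  have hsj := (pres R).exists_toDer ℤ (Tr (ZMod p))
  have h4 : Nat.card (homComp (ZMod p) (ϕ ^ n :)).range ≤ Nat.card Φ.range :=
    AddSubgroup.card_le_of_le (by
      rintro _ ⟨l, rfl⟩
      obtain ⟨c, q, hc⟩ := hsj l
      have hc0 : del _ R.d2 ⟨c.1, c.2.1⟩ = 0 := Co_ext ((mem_pres_Z1 R _).mp c.2).2
      refine ⟨⟨(e ^ n) ⟨c.1, c.2.1⟩, hn _, ?_⟩, Subtype.ext (funext fun g => ?_)⟩
      · change del _ R.d2 _ = 0
        rw [pow_comm_map _ hd, hc0, map_zero]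
      · refine (h2 n _ hc0 g).trans ((congrFun (Subtype.ext_iff.mp hc) _).trans ?_)
        exact (congrArg (HAdd.hAdd _) (sub_self q)).trans (add_zero _))
  have h5 := (card_ker_le_kill (p := p) (ϕ ^ n :) (ϕ ^ n :) fun x => ⟨x, rfl⟩).trans (hk n)
  rw [← card_ker_mul Φ, ← card_ker_mul (homComp (ZMod p) (ϕ ^ n :)), mul_assoc]
  exact Nat.mul_le_mul h3 ((Nat.mul_le_mul h5 h4).trans_eq (mul_comm _ _))

theorem unit_bound (R : Res3 Γ) (hR : R.Gp = ⊤) (ϕ : Monoid.End Γ) (hϕ : Function.Injective ϕ)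
    [ϕ.range.FiniteIndex] (hpd : p ∣ ϕ.range.index) (hk : ∀ n, Nat.card (Kill p (ϕ ^ n :)) ≤ p)
    (N : Subgroup Γ) [N.Normal] (hN : POpen p N) (hN' : ∀ g, g * (ϕ g)⁻¹ ∈ N) (r : ℕ)
    (hr : Nat.card (Hom ℤ Γ (ZMod p)) = p ^ (r + 3)) (k : ℕ) :
    (p ^ k) ^ (r * N.index) ≤ Nat.card (Hom ℤ N (ZMod (p ^ k))) * p ^ k := by
  have := R.fg
  have := hN.1
  obtain ⟨f0, f1, f2, f3, a0, a1, a2, a3, b0, b1, b2, b3⟩ :=
    R.exists_chain ⊤ (fun g => ϕ g) fun _ _ => map_mul ϕ _ _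
  replace a0 : ∀ g x, f0 (og g • x) = og (ϕ g) • f0 x := fun g => a0 ⟨g, trivial⟩
  replace a1 : ∀ g x, f1 (og g • x) = og (ϕ g) • f1 x := fun g => a1 ⟨g, trivial⟩
  replace a2 : ∀ g x, f2 (og g • x) = og (ϕ g) • f2 x := fun g => a2 ⟨g, trivial⟩
  replace a3 : ∀ g x, f3 (og g • x) = og (ϕ g) • f3 x := fun g => a3 ⟨g, trivial⟩
  have key : ∀ (Q : Type) [AddCommGroup Q] [DistribMulAction Γ Q] [Finite Q]
      (h : ∀ (g : Γ) (q : Q), ϕ g • q = g • q),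
      uc (ϕ := ϕ) a0 Q = Nat.card (stab (pb (ϕ := ϕ) a0 h) ⊓ (del _ R.d1).ker : AddSubgroup _) *
        Nat.card (stab (pb (ϕ := ϕ) a1 h) ⊓ (del _ R.d1).range : AddSubgroup _) ∧
      uc (ϕ := ϕ) a1 Q = Nat.card (stab (pb (ϕ := ϕ) a1 h) ⊓ (del _ R.d2).ker : AddSubgroup _) *
        Nat.card (stab (pb (ϕ := ϕ) a2 h) ⊓ (del _ R.d2).range : AddSubgroup _) ∧
      uc (ϕ := ϕ) a2 Q = Nat.card (stab (pb (ϕ := ϕ) a2 h) ⊓ (del _ R.d3).ker : AddSubgroup _) *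
        Nat.card (stab (pb (ϕ := ϕ) a3 h) ⊓ (del _ R.d3).range : AddSubgroup _) :=
    fun Q _ _ _ h => by
    have := finite_Co (Q := Q) R.F0
    have := finite_Co (Q := Q) R.F1
    have := finite_Co (Q := Q) R.F2
    have := finite_Co (Q := Q) R.F3
    rw [uc_eq a0 h, uc_eq a1 h, uc_eq a2 h]
    exact ⟨card_stab _ fun c => Co_ext fun x => congrArg c.1 (b1 x).symm,
      card_stab _ fun c => Co_ext fun x => congrArg c.1 (b2 x).symm,
      card_stab _ fun c => Co_ext fun x => congrArg c.1 (b3 x).symm⟩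
  have h1 : uc (ϕ := ϕ) a0 (Tr (ZMod p)) * uc (ϕ := ϕ) a2 (Tr (ZMod p)) * p ^ r ≤
      uc (ϕ := ϕ) a1 (Tr (ZMod p)) * uc (ϕ := ϕ) a3 (Tr (ZMod p)) := by
    have := finite_Co (Q := Tr (ZMod p)) R.F2
    have := finite_Co (Q := Tr (ZMod p)) R.F3
    obtain ⟨e0, e1, e2⟩ := key (Tr (ZMod p)) fun _ _ => rfl
    have z0 := card_z0_le R (stab (pb (ϕ := ϕ) a0 (Q := Tr (ZMod p)) fun _ _ => rfl))
    have z1 := card_z1_ge R ϕ hk a0 a1 a2 b0 b1 b2
    obtain ⟨τ, hτ⟩ := two_rank R hR ϕ hϕ hpd (by simpa using hk 1) f1 f2 a1 b2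
    let e := pb (ϕ := ϕ) a2 (Q := Tr (ZMod p)) fun _ _ => rfl
    have z2 : Nat.card (stab e ⊓ (del _ R.d3).ker : AddSubgroup _) ≤
        Nat.card (stab e ⊓ (del _ R.d2).range : AddSubgroup _) * p := by
      let σ := τ.comp (stab e ⊓ (del _ R.d3).ker : AddSubgroup _).subtype
      rw [← card_ker_mul σ]
      refine Nat.mul_le_mul (Nat.card_le_card_of_injective (fun c => ⟨e c.1.1,
        stab_map e (fun _ => rfl) c.1.2.1, ?_⟩) fun c c' h => ?_)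
        ((Nat.card_le_card_of_injective _ Subtype.val_injective).trans_eq (Nat.card_zmod p))
      · obtain ⟨b, hb⟩ := hτ c.1.1 c.1.2.2 c.2
        exact ⟨b, Co_ext hb⟩
      · refine Subtype.ext (Subtype.ext (sub_eq_zero.mp (stab_inj e
          (sub_mem c.1.2.1 c'.1.2.1) ?_)))
        rw [map_sub, sub_eq_zero]
        exact (Subtype.ext_iff.mp h :)
    have z3 : Nat.card (stab (pb (ϕ := ϕ) a3 (Q := Tr (ZMod p)) fun _ _ => rfl) ⊓
        (del _ R.d3).range : AddSubgroup _) ≤ uc (ϕ := ϕ) a3 (Tr (ZMod p)) := by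
      rw [uc_eq a3 fun _ _ => rfl]
      exact AddSubgroup.card_le_of_le inf_le_left
    rw [hr] at z1
    rw [e0, e1, e2]
    refine Nat.le_of_mul_le_mul_right ?_ (pow_pos hp.out.pos 3)
    generalize Nat.card (stab _ ⊓ (del (Tr (ZMod p)) R.d1).range : AddSubgroup _) = β1 at *
    generalize Nat.card (stab _ ⊓ (del (Tr (ZMod p)) R.d2).range : AddSubgroup _) = β2 at *
    generalize Nat.card (stab _ ⊓ (del (Tr (ZMod p)) R.d3).range : AddSubgroup _) = β3 at *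
    generalize Nat.card (stab _ ⊓ (del (Tr (ZMod p)) R.d1).ker : AddSubgroup _) = ζ0 at *
    generalize Nat.card (stab _ ⊓ (del (Tr (ZMod p)) R.d2).ker : AddSubgroup _) = ζ1 at *
    generalize Nat.card (stab _ ⊓ (del (Tr (ZMod p)) R.d3).ker : AddSubgroup _) = ζ2 at *
    calc _ = ζ0 * (β1 * p ^ (r + 3)) * ζ2 * β3 := by ring
      _ ≤ p * (ζ1 * p) * (β2 * p) * uc (ϕ := ϕ) a3 (Tr (ZMod p)) := by gcongr
      _ = _ := by ring
  let Q := Perm (Γ ⧸ N) (ZMod (p ^ k))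
  have ht : ∀ n ∈ N, ∀ q : Q, n • q = q := fun n hn =>
    perm_triv N _ n (by rwa [Subgroup.normalCore_eq_self])
  have he : Nat.card Q = p ^ (k * N.index) := by
    rw [pow_mul]
    exact (Nat.card_fun (α := Γ ⧸ N) (β := ZMod (p ^ k))).trans (by rw [Nat.card_zmod]; rfl)
  have h2 := Nat.pow_le_pow_left h1 (k * N.index)
  rw [mul_pow, mul_pow, mul_pow, ← uc_pow R.F0 a0 hN hN' _ Q he ht,
    ← uc_pow R.F1 a1 hN hN' _ Q he ht, ← uc_pow R.F2 a2 hN hN' _ Q he ht,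
    ← uc_pow R.F3 a3 hN hN' _ Q he ht] at h2
  have hQ := smul_eq_of_triv (ϕ := ϕ) hN' ht
  obtain ⟨e0, e1, e2⟩ := key Q hQ
  have z1 := card_z1_le R N (ZMod (p ^ k)) (stab (pb (ϕ := ϕ) a1 hQ))
  have z3 := card_u3_le R hR N (ZMod (p ^ k)) (stab (pb (ϕ := ϕ) a3 hQ))
  rw [Nat.card_zmod, ← uc_eq a3 hQ] at z3
  have := finite_Co (Q := Q) R.F0
  have := finite_Co (Q := Q) R.F1
  have := finite_Co (Q := Q) R.F2
  have := finite_Co (Q := Q) R.F3
  have z0 : 1 ≤ Nat.card (stab (pb (ϕ := ϕ) a0 hQ) ⊓ (del _ R.d1).ker : AddSubgroup _) :=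
    Nat.card_pos
  have z2 : Nat.card (stab (pb (ϕ := ϕ) a2 hQ) ⊓ (del _ R.d2).range : AddSubgroup _) ≤
      Nat.card (stab (pb (ϕ := ϕ) a2 hQ) ⊓ (del _ R.d3).ker : AddSubgroup _) :=
    AddSubgroup.card_le_of_le (inf_le_inf_left _ (by
      rintro _ ⟨b, rfl⟩
      exact Co_ext fun x => by simp [R.d2_d3]))
  have hpos : 0 < Nat.card (stab (pb (ϕ := ϕ) a1 hQ) ⊓ (del _ R.d1).range : AddSubgroup _) *
      Nat.card (stab (pb (ϕ := ϕ) a2 hQ) ⊓ (del _ R.d2).range : AddSubgroup _) *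
      Nat.card (stab (pb (ϕ := ϕ) a3 hQ) ⊓ (del _ R.d3).range : AddSubgroup _) :=
    mul_pos (mul_pos Nat.card_pos Nat.card_pos) Nat.card_pos
  rw [e0, e1, e2, ← pow_mul, show r * (k * N.index) = k * (r * N.index) by ring, pow_mul] at h2
  refine Nat.le_of_mul_le_mul_left ?_ hpos
  generalize Nat.card (stab _ ⊓ (del Q R.d1).range : AddSubgroup _) = β1 at *
  generalize Nat.card (stab _ ⊓ (del Q R.d2).range : AddSubgroup _) = β2 at *
  generalize Nat.card (stab _ ⊓ (del Q R.d3).range : AddSubgroup _) = β3 at *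
  generalize Nat.card (stab _ ⊓ (del Q R.d1).ker : AddSubgroup _) = ζ0 at *
  generalize Nat.card (stab _ ⊓ (del Q R.d2).ker : AddSubgroup _) = ζ1 at *
  generalize Nat.card (stab _ ⊓ (del Q R.d3).ker : AddSubgroup _) = ζ2 at *
  calc _ = 1 * β1 * (β2 * β3) * (p ^ k) ^ (r * N.index) := by ring
    _ ≤ ζ0 * β1 * (ζ2 * β3) * (p ^ k) ^ (r * N.index) := by gcongr
    _ ≤ _ := h2
    _ ≤ (β1 * Nat.card (Hom ℤ N (ZMod (p ^ k)))) * β2 * (β3 * p ^ k) := by gcongr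
    _ = _ := by ring

end Pool.Agent.P.MP_50f9b9_al.RP
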